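import Mathlib

/-! MP_4f9849: dominated real exponential sums, local lower bounds, finite classes. -/

namespace Pool.Agent.Helper77.EHR

open Filter Topology

/-- in a nonzero real exponential sum one term dominates for large `y`. -/
lemma dom (w l : Fin 4 → ℝ) (hl : Function.Injective l) (hw : ∃ j, w j ≠ 0) :
    ∃ j, ∃ Y : ℝ, 0 ≤ Y ∧ ∀ y, Y ≤ y →
      ∑ i ∈ Finset.univ.erase j, |w i| * Real.exp (-(l i * y)) < |w j| * Real.exp (-(l j * y)) := by
  classical
  obtain ⟨j, hj, hmin⟩ := Finset.exists_min_image (Finset.univ.filter fun j => w j ≠ 0) l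
    (by obtain ⟨j, hj⟩ := hw; exact ⟨j, by simp [hj]⟩)
  have hwj : w j ≠ 0 := by simpa using hj
  have hT : Tendsto (fun y : ℝ => ∑ i ∈ Finset.univ.erase j, |w i| * Real.exp (-((l i - l j) * y)))
      atTop (𝓝 (∑ i ∈ Finset.univ.erase j, (0 : ℝ))) := by
    refine tendsto_finsetSum _ (fun i hi => ?_)
    have hij : i ≠ j := (Finset.mem_erase.1 hi).1
    by_cases hwi : w i = 0
    · simp [hwi]
    · have h1 : l j < l i := by
        have := hmin i (by simp [hwi])
        exact lt_of_le_of_ne this (fun h => hij (hl h.symm))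
      have h2 : Tendsto (fun y : ℝ => -((l i - l j) * y)) atTop atBot := by
        have : Tendsto (fun y : ℝ => (l i - l j) * y) atTop atTop :=
          Tendsto.const_mul_atTop (by linarith) tendsto_id
        exact tendsto_neg_atTop_atBot.comp this
      have h3 := (Real.tendsto_exp_atBot.comp h2).const_mul (|w i|)
      simpa using h3
  rw [Finset.sum_const_zero] at hT
  have hpos : 0 < |w j| := abs_pos.2 hwj
  obtain ⟨Y, hY⟩ := eventually_atTop.1 (hT.eventually (gt_mem_nhds hpos))
  refine ⟨j, max Y 0, le_max_right _ _, fun y hy => ?_⟩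
  have h := hY y (le_trans (le_max_left _ _) hy)
  have he : 0 < Real.exp (-(l j * y)) := Real.exp_pos _
  have := mul_lt_mul_of_pos_right h he
  rw [Finset.sum_mul] at this
  refine lt_of_le_of_lt (le_of_eq ?_) this
  refine Finset.sum_congr rfl (fun i _ => ?_)
  rw [mul_assoc, ← Real.exp_add]
  congr 2
  ring

lemma expsum_ne (w l : Fin 4 → ℝ) (hl : Function.Injective l) (hw : ∃ j, w j ≠ 0) :
    ∃ y : ℝ, ∑ i, w i * Real.exp (-(l i * y)) ≠ 0 := by
  classical
  obtain ⟨j, Y, _, hY⟩ := dom w l hl hw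
  refine ⟨Y, fun h => ?_⟩
  have h1 := hY Y le_rfl
  rw [← Finset.add_sum_erase _ _ (Finset.mem_univ j)] at h
  have h2 : |w j| * Real.exp (-(l j * Y)) ≤
      ∑ i ∈ Finset.univ.erase j, |w i| * Real.exp (-(l i * Y)) := by
    calc |w j| * Real.exp (-(l j * Y)) = |w j * Real.exp (-(l j * Y))| := by
          rw [abs_mul, abs_of_pos (Real.exp_pos _)]
      _ = |∑ i ∈ Finset.univ.erase j, w i * Real.exp (-(l i * Y))| := by
          rw [eq_neg_of_add_eq_zero_left h, abs_neg]
      _ ≤ ∑ i ∈ Finset.univ.erase j, |w i * Real.exp (-(l i * Y))| :=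
          Finset.abs_sum_le_sum_abs _ _
      _ = _ := by
          refine Finset.sum_congr rfl (fun i _ => ?_)
          rw [abs_mul, abs_of_pos (Real.exp_pos _)]
  linarith

/-- an analytic function that is not identically zero: finitely many classes on a compact interval. -/
lemma cover (E : ℝ → ℝ) (hE : ∀ y, AnalyticAt ℝ E y) (hne : ∃ y, E y ≠ 0) (H : ℝ) :
    ∃ (t : Finset ℝ) (cls : ℝ → ℝ) (n : ℕ) (K : ℝ), 0 < n ∧ 0 < K ∧
      (∀ y, |y| ≤ H → cls y ∈ t) ∧
      ∀ y y' η, |y| ≤ H → |y'| ≤ H → |E y| ≤ η → |E y'| ≤ η → cls y = cls y' →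
        |y - y'| ^ n ≤ K * η := by
  classical
  have hloc : ∀ y0 : ℝ, ∃ (n : ℕ) (c : ℝ), 0 < c ∧ ∀ᶠ y in 𝓝 y0, c * |y - y0| ^ n ≤ |E y| := by
    intro y0
    have hnz : ¬ ∀ᶠ y in 𝓝 y0, E y = 0 := by
      intro h
      obtain ⟨y1, hy1⟩ := hne
      have h2 : AnalyticOnNhd ℝ E Set.univ := fun y _ => hE y
      have := h2.eqOn_zero_of_preconnected_of_eventuallyEq_zero isPreconnected_univ
        (Set.mem_univ y0) h
      exact hy1 (this (Set.mem_univ y1))
    obtain ⟨n, g, hg, hg0, hev⟩ := ((hE y0).exists_eventuallyEq_pow_smul_nonzero_iff).2 hnz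
    refine ⟨n, |g y0| / 2, by positivity, ?_⟩
    have hc : ∀ᶠ y in 𝓝 y0, |g y0| / 2 < |g y| := by
      have := hg.continuousAt.abs.eventually (lt_mem_nhds (a := |g y0| / 2) (by
        have := abs_pos.2 hg0; linarith))
      exact this
    filter_upwards [hev, hc] with y h1 h2
    rw [h1, smul_eq_mul, abs_mul, abs_pow, mul_comm]
    exact mul_le_mul_of_nonneg_left h2.le (by positivity)
  choose n c hc hev using hloc
  obtain ⟨t, hts, htc⟩ := (isCompact_Icc (a := -H) (b := H)).elim_nhds_subcover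
    (fun y0 => {y | c y0 * |y - y0| ^ n y0 ≤ |E y|}) (fun y0 _ => hev y0)
  have hex : ∀ y, |y| ≤ H → ∃ i, i ∈ t ∧ c i * |y - i| ^ n i ≤ |E y| := by
    intro y hy
    have := htc (abs_le.1 hy)
    simpa using this
  let cls : ℝ → ℝ := fun y => if h : |y| ≤ H then (hex y h).choose else 0
  have hcls : ∀ y, |y| ≤ H → cls y ∈ t ∧ c (cls y) * |y - cls y| ^ n (cls y) ≤ |E y| := by
    intro y hy
    have : cls y = (hex y hy).choose := by simp [cls, hy]
    rw [this]
    exact (hex y hy).choose_spec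
  let m : ℕ := ∑ i ∈ t, n i + 1
  let C : ℝ := ∑ i ∈ t, (c i)⁻¹
  refine ⟨t, cls, m, 2 ^ m * (2 * H + 1) ^ m * C + 1, by omega, ?_, fun y hy => (hcls y hy).1, ?_⟩
  · have hC : 0 ≤ C := Finset.sum_nonneg (fun i _ => inv_nonneg.2 (hc i).le)
    by_cases hH : 0 ≤ H
    · positivity
    · by_contra hcon
      have : t = ∅ := by
        rw [Finset.eq_empty_iff_forall_notMem]
        intro i hi
        have := hts i hi
        rw [Set.mem_Icc] at this
        linarith
      have hC0 : C = 0 := by simp [C, this]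
      rw [hC0] at hcon
      norm_num at hcon
  · intro y y' η hy hy' hEy hEy' hcl
    have hH : 0 ≤ H := (abs_nonneg y).trans hy
    obtain ⟨ht1, h1⟩ := hcls y hy
    obtain ⟨ht2, h2⟩ := hcls y' hy'
    rw [← hcl] at h2
    set i := cls y with hi
    have hη : 0 ≤ η := (abs_nonneg _).trans hEy
    have hni : n i ≤ m := by
      have : n i ≤ ∑ j ∈ t, n j := Finset.single_le_sum (f := n) (fun j _ => Nat.zero_le _) ht1
      omega
    have hCi : (c i)⁻¹ ≤ C :=
      Finset.single_le_sum (f := fun j => (c j)⁻¹) (fun j _ => inv_nonneg.2 (hc j).le) ht1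
    have hci := hc i
    have key : ∀ s : ℝ, |s| ≤ H → c i * |s - i| ^ n i ≤ η →
        |s - i| ^ m ≤ (2 * H + 1) ^ m * C * η := by
      intro s hs h
      have hi' := hts i ht1
      rw [Set.mem_Icc] at hi'
      have hsi : |s - i| ≤ 2 * H + 1 := by
        rw [abs_le] at hs ⊢
        constructor <;> linarith
      have h3 : |s - i| ^ n i ≤ C * η := by
        have : |s - i| ^ n i ≤ (c i)⁻¹ * η := by
          rw [inv_mul_eq_div, le_div_iff₀ hci]; linarith
        exact this.trans (mul_le_mul_of_nonneg_right hCi hη)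
      obtain ⟨k, hk⟩ := Nat.exists_eq_add_of_le hni
      have h4 : |s - i| ^ k ≤ (2 * H + 1) ^ m := by
        calc |s - i| ^ k ≤ (2 * H + 1) ^ k := pow_le_pow_left₀ (abs_nonneg _) hsi k
          _ ≤ (2 * H + 1) ^ m := pow_le_pow_right₀ (by linarith) (by omega)
      rw [hk, pow_add, ← hk]
      calc |s - i| ^ n i * |s - i| ^ k ≤ (C * η) * (2 * H + 1) ^ m :=
            mul_le_mul h3 h4 (by positivity) (le_trans (by positivity) h3)
        _ = _ := by ring
    have k1 := key y hy (h1.trans hEy)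
    have k2 := key y' hy' (h2.trans hEy')
    have hmx : |y - y'| ≤ 2 * max |y - i| |y' - i| := by
      have : |y - y'| ≤ |y - i| + |y' - i| := by
        have := abs_sub_le y i y'
        rwa [abs_sub_comm i y'] at this
      have a1 := le_max_left |y - i| |y' - i|
      have a2 := le_max_right |y - i| |y' - i|
      linarith
    have hmx2 : (max |y - i| |y' - i|) ^ m ≤ (2 * H + 1) ^ m * C * η := by
      rcases max_cases |y - i| |y' - i| with ⟨h, _⟩ | ⟨h, _⟩ <;> rw [h] <;> assumption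
    calc |y - y'| ^ m ≤ (2 * max |y - i| |y' - i|) ^ m := pow_le_pow_left₀ (abs_nonneg _) hmx m
      _ = 2 ^ m * (max |y - i| |y' - i|) ^ m := mul_pow _ _ _
      _ ≤ 2 ^ m * ((2 * H + 1) ^ m * C * η) := mul_le_mul_of_nonneg_left hmx2 (by positivity)
      _ ≤ (2 ^ m * (2 * H + 1) ^ m * C + 1) * η := by nlinarith

end Pool.Agent.Helper77.EHR
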