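import Mathlib
import Pool.Agent.Helper77.EHR.Dom

/-! MP_4f9849: near double zeros of a four-term exponential sum fall into finitely many classes. -/

namespace Pool.Agent.Helper77.EHR

open Filter Topology Asymptotics
open scoped ComplexConjugate

/-- the `j`-th term. -/
noncomputable def u (c : Fin 4 → ℂ) (l : Fin 4 → ℝ) (j : Fin 4) (z : ℂ) : ℂ :=
  c j * Complex.exp (Complex.I * (l j : ℂ) * z)

lemma norm_u (c : Fin 4 → ℂ) (l : Fin 4 → ℝ) (j : Fin 4) (z : ℂ) :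
    ‖u c l j z‖ = ‖c j‖ * Real.exp (-(l j * z.im)) := by
  rw [u, norm_mul, Complex.norm_exp]
  congr 2
  simp

/-- near double zero with error `δ`. -/
def Near (c : Fin 4 → ℂ) (l : Fin 4 → ℝ) (H δ : ℝ) (z : ℂ) : Prop :=
  |z.im| ≤ H ∧ ∑ j, u c l j z = 0 ∧ ‖∑ j, (l j : ℂ) * u c l j z‖ ≤ δ

/-- the phase form `u₀ ū₁`. -/
noncomputable def W (c : Fin 4 → ℂ) (l : Fin 4 → ℝ) (z : ℂ) : ℂ := u c l 0 z * conj (u c l 1 z)

lemma ident (a0 a1 a2 : ℝ) (u0 u1 u2 e : ℂ) (h : (a0 : ℂ) * u0 + a1 * u1 + a2 * u2 = e) :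
    a0 ^ 2 * ‖u0‖ ^ 2 + a1 ^ 2 * ‖u1‖ ^ 2 + 2 * a0 * a1 * (u0 * conj u1).re - a2 ^ 2 * ‖u2‖ ^ 2
      = ‖e‖ ^ 2 - 2 * a2 * (e * conj u2).re := by
  subst h
  simp only [Complex.sq_norm, Complex.normSq_apply, Complex.add_re, Complex.add_im, Complex.mul_re,
    Complex.mul_im, Complex.conj_re, Complex.conj_im, Complex.ofReal_re, Complex.ofReal_im]
  ring

/-- the real exponential sum in the height. -/
noncomputable def κ (l : Fin 4 → ℝ) : Fin 4 → ℝ :=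
  let a : Fin 4 → ℝ := fun j => l j - l 3
  let b : Fin 4 → ℝ := fun j => l j - l 2
  ![a 0 * b 0 * (a 0 * b 1 - a 1 * b 0), - (a 1 * b 1 * (a 0 * b 1 - a 1 * b 0)),
    - (b 0 * b 1 * a 2 ^ 2), a 0 * a 1 * b 3 ^ 2]

lemma κ_ne (l : Fin 4 → ℝ) (hl : Function.Injective l) (j : Fin 4) : κ l j ≠ 0 := by
  have h : ∀ i j : Fin 4, i ≠ j → l i - l j ≠ 0 := fun i j hij h =>
    hij (hl (sub_eq_zero.1 h))
  have hD : (l 0 - l 3) * (l 1 - l 2) - (l 1 - l 3) * (l 0 - l 2) ≠ 0 := by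
    have : (l 0 - l 3) * (l 1 - l 2) - (l 1 - l 3) * (l 0 - l 2) = (l 0 - l 1) * (l 3 - l 2) := by ring
    rw [this]
    exact mul_ne_zero (h _ _ (by decide)) (h _ _ (by decide))
  have h03 := h 0 3 (by decide)
  have h02 := h 0 2 (by decide)
  have h13 := h 1 3 (by decide)
  have h12 := h 1 2 (by decide)
  have h23 := h 2 3 (by decide)
  have h32 := h 3 2 (by decide)
  fin_cases j
  · simpa [κ] using ⟨⟨h03, h02⟩, hD⟩
  · simpa [κ] using ⟨⟨h13, h12⟩, hD⟩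
  · simpa [κ] using ⟨⟨h02, h12⟩, h23⟩
  · simpa [κ] using ⟨⟨h03, h13⟩, h32⟩

noncomputable def E (c : Fin 4 → ℂ) (l : Fin 4 → ℝ) (y : ℝ) : ℝ :=
  ∑ j, κ l j * ‖c j‖ ^ 2 * Real.exp (-(2 * l j * y))

lemma E_analytic (c : Fin 4 → ℂ) (l : Fin 4 → ℝ) (y : ℝ) : AnalyticAt ℝ (E c l) y := by
  unfold E
  fun_prop

lemma E_ne (c : Fin 4 → ℂ) (l : Fin 4 → ℝ) (hl : Function.Injective l) (hc : c 0 ≠ 0) :
    ∃ y, E c l y ≠ 0 := by
  have := expsum_ne (fun j => κ l j * ‖c j‖ ^ 2) (fun j => 2 * l j)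
    (fun i j h => hl (by simpa using h))
    ⟨0, mul_ne_zero (κ_ne l hl 0) (by simpa using hc)⟩
  simpa [E] using this

/-- admissible pairs. -/
abbrev Pr (c : Fin 4 → ℂ) (l : Fin 4 → ℝ) (H : ℝ) :=
  {p : ℂ × ℂ × ℝ // p.2.2 ≤ 1 ∧ Near c l H p.2.2 p.1 ∧ Near c l H p.2.2 p.2.1 ∧
    (0 ≤ (W c l p.1).im ↔ 0 ≤ (W c l p.2.1).im)}

section
variable {c : Fin 4 → ℂ} {l : Fin 4 → ℝ} {H : ℝ}

def pz (p : Pr c l H) : ℂ := p.1.1
def pw (p : Pr c l H) : ℂ := p.1.2.1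
def pd (p : Pr c l H) : ℝ := p.1.2.2
noncomputable def pt (p : Pr c l H) : ℝ := |(pz p).im - (pw p).im| + pd p

lemma pd_nonneg (p : Pr c l H) : 0 ≤ pd p := (norm_nonneg _).trans p.2.2.1.2.2
lemma pd_le (p : Pr c l H) : pd p ≤ 1 := p.2.1
lemma pt_nonneg (p : Pr c l H) : 0 ≤ pt p := add_nonneg (abs_nonneg _) (pd_nonneg p)
lemma pz_im (p : Pr c l H) : |(pz p).im| ≤ H := p.2.2.1.1
lemma pw_im (p : Pr c l H) : |(pw p).im| ≤ H := p.2.2.2.1.1
lemma pt_le (p : Pr c l H) : pt p ≤ 2 * H + 1 := by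
  have h1 := pz_im p
  have h2 := pw_im p
  have h3 := pd_le p
  have h4 : |(pz p).im - (pw p).im| ≤ |(pz p).im| + |(pw p).im| := abs_sub _ _
  unfold pt; linarith

lemma O_of_le {ι : Type*} {E' : Type*} [Norm E'] {f : ι → E'} {g : ι → ℝ} (K : ℝ)
    (h : ∀ p, ‖f p‖ ≤ K * ‖g p‖) : f =O[⊤] g :=
  IsBigO.of_bound K (Eventually.of_forall h)

lemma O_le {ι : Type*} {E' : Type*} [SeminormedAddCommGroup E'] {f : ι → E'} {g : ι → ℝ} (h : f =O[⊤] g) :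
    ∃ K, 0 ≤ K ∧ ∀ p, ‖f p‖ ≤ K * ‖g p‖ := by
  obtain ⟨K, hK, h⟩ := h.exists_nonneg
  exact ⟨K, hK, fun p => by
    have := h.bound
    rw [eventually_top] at this
    exact this p⟩

lemma exp_lip (p q B : ℝ) (hp : p ≤ B) (hq : q ≤ B) :
    |Real.exp p - Real.exp q| ≤ Real.exp B * |p - q| := by
  wlog h : q ≤ p generalizing p q
  · rw [abs_sub_comm, abs_sub_comm p q]; exact this q p hq hp (le_of_not_ge h)
  rw [abs_of_nonneg (by linarith [Real.exp_le_exp.2 h]), abs_of_nonneg (by linarith)]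
  have h1 : Real.exp q ≥ Real.exp p * (1 + (q - p)) := by
    have := Real.add_one_le_exp (q - p)
    calc Real.exp q = Real.exp p * Real.exp (q - p) := by rw [← Real.exp_add]; ring_nf
      _ ≥ Real.exp p * (1 + (q - p)) := mul_le_mul_of_nonneg_left (by linarith) (Real.exp_pos _).le
  have h2 : Real.exp p ≤ Real.exp B := Real.exp_le_exp.2 hp
  nlinarith [Real.exp_pos p]

lemma le_absH (s : ℝ) (y : ℝ) (hy : |y| ≤ H) : s * y ≤ |s| * H := by
  calc s * y ≤ |s * y| := le_abs_self _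
    _ = |s| * |y| := abs_mul _ _
    _ ≤ |s| * H := mul_le_mul_of_nonneg_left hy (abs_nonneg _)

lemma O_exp_z (s : ℝ) : (fun p : Pr c l H => Real.exp (s * (pz p).im)) =O[⊤] (fun _ => (1 : ℝ)) := by
  refine O_of_le (Real.exp (|s| * H)) (fun p => ?_)
  rw [Real.norm_of_nonneg (Real.exp_pos _).le, norm_one, mul_one]
  exact Real.exp_le_exp.2 (le_absH s _ (pz_im p))

lemma O_exp_w (s : ℝ) : (fun p : Pr c l H => Real.exp (s * (pw p).im)) =O[⊤] (fun _ => (1 : ℝ)) := by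
  refine O_of_le (Real.exp (|s| * H)) (fun p => ?_)
  rw [Real.norm_of_nonneg (Real.exp_pos _).le, norm_one, mul_one]
  exact Real.exp_le_exp.2 (le_absH s _ (pw_im p))

lemma O_exp_d (s : ℝ) : (fun p : Pr c l H => Real.exp (s * (pz p).im) - Real.exp (s * (pw p).im))
    =O[⊤] (fun p => pt p) := by
  refine O_of_le (Real.exp (|s| * H) * |s|) (fun p => ?_)
  rw [Real.norm_eq_abs, Real.norm_of_nonneg (pt_nonneg p)]
  have h := exp_lip (s * (pz p).im) (s * (pw p).im) (|s| * H) (le_absH s _ (pz_im p))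
    (le_absH s _ (pw_im p))
  rw [← mul_sub, abs_mul] at h
  have h2 : |(pz p).im - (pw p).im| ≤ pt p := by
    have := pd_nonneg p
    unfold pt; linarith
  calc _ ≤ Real.exp (|s| * H) * (|s| * |(pz p).im - (pw p).im|) := h
    _ ≤ Real.exp (|s| * H) * (|s| * pt p) := by gcongr
    _ = _ := by ring

lemma O_u_z (j : Fin 4) : (fun p : Pr c l H => u c l j (pz p)) =O[⊤] (fun _ => (1 : ℝ)) := by
  have h := (O_exp_z (c := c) (l := l) (H := H) (-(l j))).const_mul_left (‖c j‖)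
  refine (IsBigO.of_norm_left ?_)
  refine h.congr_left (fun p => ?_)
  rw [norm_u]; ring_nf

lemma O_u_w (j : Fin 4) : (fun p : Pr c l H => u c l j (pw p)) =O[⊤] (fun _ => (1 : ℝ)) := by
  have h := (O_exp_w (c := c) (l := l) (H := H) (-(l j))).const_mul_left (‖c j‖)
  refine (IsBigO.of_norm_left ?_)
  refine h.congr_left (fun p => ?_)
  rw [norm_u]; ring_nf

lemma sq_u (j : Fin 4) (z : ℂ) : ‖u c l j z‖ ^ 2 = ‖c j‖ ^ 2 * Real.exp ((-(2 * l j)) * z.im) := by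
  rw [norm_u, mul_pow, ← Real.exp_nat_mul]
  congr 2
  push_cast; ring

lemma O_sq_d (j : Fin 4) : (fun p : Pr c l H => ‖u c l j (pz p)‖ ^ 2 - ‖u c l j (pw p)‖ ^ 2)
    =O[⊤] (fun p => pt p) := by
  refine ((O_exp_d (c := c) (l := l) (H := H) (-(2 * l j))).const_mul_left (‖c j‖ ^ 2)).congr_left
    (fun p => ?_)
  rw [sq_u, sq_u]; ring

end

end Pool.Agent.Helper77.EHR
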