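import Mathlib
import Pool.Agent.Helper77.EHR.Near

/-! MP_4f9849: two near double zeros of one class have almost equal phases. -/

namespace Pool.Agent.Helper77.EHR

open Filter Topology Asymptotics
open scoped ComplexConjugate

section
variable {c : Fin 4 → ℂ} {l : Fin 4 → ℝ} {H : ℝ}

noncomputable def ep (c : Fin 4 → ℂ) (l : Fin 4 → ℝ) (z : ℂ) : ℂ := ∑ j, (l j : ℂ) * u c l j z

lemma linA (z : ℂ) (h : ∑ j, u c l j z = 0) :
    ((l 0 - l 3 : ℝ) : ℂ) * u c l 0 z + ((l 1 - l 3 : ℝ) : ℂ) * u c l 1 z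
      + ((l 2 - l 3 : ℝ) : ℂ) * u c l 2 z = ep c l z := by
  rw [Fin.sum_univ_four] at h
  rw [ep, Fin.sum_univ_four]
  push_cast
  linear_combination (-(l 3 : ℂ)) * h

lemma linB (z : ℂ) (h : ∑ j, u c l j z = 0) :
    ((l 0 - l 2 : ℝ) : ℂ) * u c l 0 z + ((l 1 - l 2 : ℝ) : ℂ) * u c l 1 z
      + ((l 3 - l 2 : ℝ) : ℂ) * u c l 3 z = ep c l z := by
  rw [Fin.sum_univ_four] at h
  rw [ep, Fin.sum_univ_four]
  push_cast
  linear_combination (-(l 2 : ℂ)) * h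

noncomputable def errA (c : Fin 4 → ℂ) (l : Fin 4 → ℝ) (z : ℂ) : ℝ :=
  ‖ep c l z‖ ^ 2 - 2 * (l 2 - l 3) * (ep c l z * conj (u c l 2 z)).re

noncomputable def errB (c : Fin 4 → ℂ) (l : Fin 4 → ℝ) (z : ℂ) : ℝ :=
  ‖ep c l z‖ ^ 2 - 2 * (l 3 - l 2) * (ep c l z * conj (u c l 3 z)).re

lemma relA (z : ℂ) (h : ∑ j, u c l j z = 0) :
    (l 0 - l 3) ^ 2 * ‖u c l 0 z‖ ^ 2 + (l 1 - l 3) ^ 2 * ‖u c l 1 z‖ ^ 2
      + 2 * (l 0 - l 3) * (l 1 - l 3) * (W c l z).re - (l 2 - l 3) ^ 2 * ‖u c l 2 z‖ ^ 2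
      = errA c l z := ident _ _ _ _ _ _ _ (linA z h)

lemma relB (z : ℂ) (h : ∑ j, u c l j z = 0) :
    (l 0 - l 2) ^ 2 * ‖u c l 0 z‖ ^ 2 + (l 1 - l 2) ^ 2 * ‖u c l 1 z‖ ^ 2
      + 2 * (l 0 - l 2) * (l 1 - l 2) * (W c l z).re - (l 3 - l 2) ^ 2 * ‖u c l 3 z‖ ^ 2
      = errB c l z := ident _ _ _ _ _ _ _ (linB z h)

lemma E_eq (z : ℂ) (h : ∑ j, u c l j z = 0) :
    E c l z.im = (l 0 - l 2) * (l 1 - l 2) * errA c l z - (l 0 - l 3) * (l 1 - l 3) * errB c l z := by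
  rw [← relA z h, ← relB z h, E, Fin.sum_univ_four]
  simp only [sq_u]
  simp only [κ, Matrix.cons_val_zero, Matrix.cons_val_one, Matrix.cons_val]
  ring_nf

lemma O_ep_z : (fun p : Pr c l H => ep c l (pz p)) =O[⊤] (fun p => pd p) := by
  refine O_of_le 1 (fun p => ?_)
  rw [one_mul, Real.norm_of_nonneg (pd_nonneg p)]
  exact p.2.2.1.2.2

lemma O_ep_w : (fun p : Pr c l H => ep c l (pw p)) =O[⊤] (fun p => pd p) := by
  refine O_of_le 1 (fun p => ?_)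
  rw [one_mul, Real.norm_of_nonneg (pd_nonneg p)]
  exact p.2.2.2.1.2.2

lemma O_pd_one : (fun p : Pr c l H => pd p) =O[⊤] (fun _ => (1 : ℝ)) := by
  refine O_of_le 1 (fun p => ?_)
  rw [Real.norm_of_nonneg (pd_nonneg p)]
  simpa using pd_le p

lemma O_pd_pt : (fun p : Pr c l H => pd p) =O[⊤] (fun p => pt p) := by
  refine O_of_le 1 (fun p => ?_)
  rw [Real.norm_of_nonneg (pd_nonneg p), Real.norm_of_nonneg (pt_nonneg p), one_mul]
  unfold pt
  linarith [abs_nonneg ((pz p).im - (pw p).im)]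

lemma O_pt_one : (fun p : Pr c l H => pt p) =O[⊤] (fun _ => (1 : ℝ)) := by
  refine O_of_le (2 * H + 1) (fun p => ?_)
  rw [Real.norm_of_nonneg (pt_nonneg p)]
  simpa using pt_le p

lemma O_sq {f : Pr c l H → ℂ} {g : Pr c l H → ℝ} (h : f =O[⊤] g)
    (hg : g =O[⊤] (fun _ => (1 : ℝ))) : (fun p => ‖f p‖ ^ 2) =O[⊤] g := by
  have h1 : (fun p => ‖f p‖ ^ 2) =O[⊤] (fun p => g p * g p) := by
    have := (h.norm_left).mul (h.norm_left)
    exact this.congr_left (fun p => by ring)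
  have h2 : (fun p => g p * g p) =O[⊤] (fun p => g p * 1) := (isBigO_refl g ⊤).mul hg
  simpa using h1.trans h2

lemma O_re {f : Pr c l H → ℂ} {g : Pr c l H → ℝ} (h : f =O[⊤] g) :
    (fun p => (f p).re) =O[⊤] g :=
  IsBigO.trans (O_of_le (g := fun p => ‖f p‖) 1 (fun p => by
    rw [one_mul, Real.norm_eq_abs, norm_norm]; exact Complex.abs_re_le_norm _)) h.norm_left

lemma O_im {f : Pr c l H → ℂ} {g : Pr c l H → ℝ} (h : f =O[⊤] g) :
    (fun p => (f p).im) =O[⊤] g :=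
  IsBigO.trans (O_of_le (g := fun p => ‖f p‖) 1 (fun p => by
    rw [one_mul, Real.norm_eq_abs, norm_norm]; exact Complex.abs_im_le_norm _)) h.norm_left

lemma O_conj {f : Pr c l H → ℂ} {g : Pr c l H → ℝ} (h : f =O[⊤] g) :
    (fun p => conj (f p)) =O[⊤] g :=
  IsBigO.trans (O_of_le (g := fun p => ‖f p‖) 1 (fun p => by
    rw [one_mul, norm_norm]; simp)) h.norm_left

lemma O_mul_one {f g : Pr c l H → ℂ} {h : Pr c l H → ℝ} (hf : f =O[⊤] h)
    (hg : g =O[⊤] (fun _ => (1 : ℝ))) : (fun p => f p * g p) =O[⊤] h := by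
  simpa using hf.mul hg

lemma O_err (f v : Pr c l H → ℂ) (hf : f =O[⊤] (fun p => pd p)) (hv : v =O[⊤] (fun _ => (1 : ℝ)))
    (s : ℝ) : (fun p => ‖f p‖ ^ 2 - 2 * s * (f p * conj (v p)).re) =O[⊤] (fun p => pd p) := by
  refine (O_sq hf O_pd_one).sub ?_
  exact (O_re (O_mul_one hf (O_conj hv))).const_mul_left _

lemma O_errA_z : (fun p : Pr c l H => errA c l (pz p)) =O[⊤] (fun p => pd p) :=
  O_err _ _ O_ep_z (O_u_z 2) (l 2 - l 3)
lemma O_errA_w : (fun p : Pr c l H => errA c l (pw p)) =O[⊤] (fun p => pd p) :=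
  O_err _ _ O_ep_w (O_u_w 2) (l 2 - l 3)
lemma O_errB_z : (fun p : Pr c l H => errB c l (pz p)) =O[⊤] (fun p => pd p) :=
  O_err _ _ O_ep_z (O_u_z 3) (l 3 - l 2)

lemma O_E : (fun p : Pr c l H => E c l (pz p).im) =O[⊤] (fun p => pd p) := by
  have h := ((O_errA_z (c := c) (l := l) (H := H)).const_mul_left ((l 0 - l 2) * (l 1 - l 2))).sub
    ((O_errB_z (c := c) (l := l) (H := H)).const_mul_left ((l 0 - l 3) * (l 1 - l 3)))
  exact h.congr_left (fun p => (E_eq _ p.2.2.1.2.1).symm)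

/-- the real part of the phase form is close. -/
lemma O_X (hl : Function.Injective l) :
    (fun p : Pr c l H => (W c l (pz p)).re - (W c l (pw p)).re) =O[⊤] (fun p => pt p) := by
  have h0 : (2 * (l 0 - l 3) * (l 1 - l 3)) ≠ 0 := by
    have h1 : l 0 - l 3 ≠ 0 := fun h => absurd (hl (sub_eq_zero.1 h)) (by decide)
    have h2 : l 1 - l 3 ≠ 0 := fun h => absurd (hl (sub_eq_zero.1 h)) (by decide)
    positivity
  rw [← isBigO_const_mul_left_iff h0]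
  have hA : (fun p : Pr c l H => errA c l (pz p) - errA c l (pw p)) =O[⊤] (fun p => pt p) :=
    (O_errA_z.sub O_errA_w).trans O_pd_pt
  have h := ((((O_sq_d (c := c) (l := l) (H := H) 2).const_mul_left ((l 2 - l 3) ^ 2)).sub
    ((O_sq_d (c := c) (l := l) (H := H) 0).const_mul_left ((l 0 - l 3) ^ 2))).sub
    ((O_sq_d (c := c) (l := l) (H := H) 1).const_mul_left ((l 1 - l 3) ^ 2))).add hA
  refine h.congr_left (fun p => ?_)
  have e1 := relA _ p.2.2.1.2.1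
  have e2 := relA _ p.2.2.2.1.2.1
  change _ = errA c l (pz p) at e1
  change _ = errA c l (pw p) at e2
  rw [← e1, ← e2]
  change _ = 2 * (l 0 - l 3) * (l 1 - l 3) * ((W c l (pz p)).re - (W c l (pw p)).re)
  simp only [pz, pw]
  ring

lemma O_W_z : (fun p : Pr c l H => W c l (pz p)) =O[⊤] (fun _ => (1 : ℝ)) :=
  O_mul_one (O_u_z 0) (O_conj (O_u_z 1))
lemma O_W_w : (fun p : Pr c l H => W c l (pw p)) =O[⊤] (fun _ => (1 : ℝ)) :=
  O_mul_one (O_u_w 0) (O_conj (O_u_w 1))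

lemma W_sq (z : ℂ) : (W c l z).re ^ 2 + (W c l z).im ^ 2
    = (‖c 0‖ ^ 2 * ‖c 1‖ ^ 2) * Real.exp ((-(2 * l 0 + 2 * l 1)) * z.im) := by
  have h1 : (W c l z).re ^ 2 + (W c l z).im ^ 2 = ‖W c l z‖ ^ 2 := by
    rw [Complex.sq_norm, Complex.normSq_apply]; ring
  rw [h1, W, norm_mul, mul_pow, RCLike.norm_conj, sq_u, sq_u]
  rw [mul_mul_mul_comm, ← Real.exp_add]
  congr 2; ring

lemma sq_sub_le (a b : ℝ) (h : 0 ≤ a ↔ 0 ≤ b) : (a - b) ^ 2 ≤ |a ^ 2 - b ^ 2| := by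
  have : a ^ 2 - b ^ 2 = (a - b) * (a + b) := by ring
  rw [this, abs_mul, ← sq_abs, pow_two]
  refine mul_le_mul_of_nonneg_left ?_ (abs_nonneg _)
  by_cases ha : 0 ≤ a
  · have hb := h.1 ha
    rw [abs_of_nonneg (add_nonneg ha hb), abs_le]; constructor <;> linarith
  · have hb : ¬ 0 ≤ b := fun hb => ha (h.2 hb)
    rw [not_le] at ha hb
    rw [abs_of_nonpos (by linarith : a + b ≤ 0), abs_le]; constructor <;> linarith

lemma O_V (hl : Function.Injective l) :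
    (fun p : Pr c l H => ((W c l (pz p)).im - (W c l (pw p)).im) ^ 2) =O[⊤] (fun p => pt p) := by
  have hX := O_X (c := c) (l := l) (H := H) hl
  have h1 : (fun p : Pr c l H => (W c l (pz p)).im ^ 2 - (W c l (pw p)).im ^ 2)
      =O[⊤] (fun p => pt p) := by
    have hs : (fun p : Pr c l H => ((W c l (pz p)).re - (W c l (pw p)).re) *
        ((W c l (pz p)).re + (W c l (pw p)).re)) =O[⊤] (fun p => pt p) := by
      simpa using hX.mul ((O_re O_W_z).add (O_re O_W_w))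
    have h := ((O_exp_d (c := c) (l := l) (H := H) (-(2 * l 0 + 2 * l 1))).const_mul_left
      (‖c 0‖ ^ 2 * ‖c 1‖ ^ 2)).sub hs
    refine h.congr_left (fun p => ?_)
    rw [mul_sub, ← W_sq, ← W_sq]
    ring
  refine IsBigO.trans (O_of_le 1 (fun p => ?_)) h1.norm_left
  rw [one_mul, norm_norm, Real.norm_of_nonneg (sq_nonneg _), Real.norm_eq_abs]
  exact sq_sub_le _ _ p.2.2.2.2

lemma O_W (hl : Function.Injective l) :
    (fun p : Pr c l H => W c l (pz p) - W c l (pw p)) =O[⊤] (fun p => √(pt p)) := by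
  have hX : (fun p : Pr c l H => ((W c l (pz p)).re - (W c l (pw p)).re) ^ 2)
      =O[⊤] (fun p => pt p) := by
    have h := (O_X (c := c) (l := l) (H := H) hl).mul (O_X (c := c) (l := l) (H := H) hl)
    have h2 : (fun p : Pr c l H => pt p * pt p) =O[⊤] (fun p => pt p * 1) :=
      (isBigO_refl _ ⊤).mul O_pt_one
    have h3 := h.trans h2
    simp only [mul_one] at h3
    exact h3.congr_left (fun p => by ring)
  obtain ⟨K, hK, h⟩ := O_le (hX.add (O_V hl))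
  refine O_of_le (√K) (fun p => ?_)
  have hp := h p
  rw [Real.norm_of_nonneg (by positivity), Real.norm_of_nonneg (pt_nonneg p)] at hp
  rw [Real.norm_of_nonneg (Real.sqrt_nonneg _), ← Real.sqrt_mul hK]
  refine Real.le_sqrt_of_sq_le ?_
  rw [Complex.sq_norm, Complex.normSq_apply]
  simp only [Complex.sub_re, Complex.sub_im]
  nlinarith [hp]

lemma O_pt_st : (fun p : Pr c l H => pt p) =O[⊤] (fun p => √(pt p)) := by
  refine O_of_le (√(2 * H + 1)) (fun p => ?_)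
  rw [Real.norm_of_nonneg (pt_nonneg p), Real.norm_of_nonneg (Real.sqrt_nonneg _)]
  have h1 : √(pt p) ≤ √(2 * H + 1) := Real.sqrt_le_sqrt (pt_le p)
  calc pt p = √(pt p) * √(pt p) := (Real.mul_self_sqrt (pt_nonneg p)).symm
    _ ≤ √(2 * H + 1) * √(pt p) := mul_le_mul_of_nonneg_right h1 (Real.sqrt_nonneg _)

lemma O_ofReal {f : Pr c l H → ℝ} {g : Pr c l H → ℝ} (h : f =O[⊤] g) :
    (fun p => ((f p : ℝ) : ℂ)) =O[⊤] g :=
  IsBigO.trans (O_of_le (g := fun p => ‖f p‖) 1 (fun p => by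
    rw [one_mul, norm_norm]; simp)) h.norm_left

/-- `u_j ū_1` is close. -/
lemma O_uu (hl : Function.Injective l) (j : Fin 4) :
    (fun p : Pr c l H => u c l j (pz p) * conj (u c l 1 (pz p)) -
      u c l j (pw p) * conj (u c l 1 (pw p))) =O[⊤] (fun p => √(pt p)) := by
  have hW := O_W (c := c) (l := l) (H := H) hl
  have h1 : (fun p : Pr c l H => ((‖u c l 1 (pz p)‖ ^ 2 - ‖u c l 1 (pw p)‖ ^ 2 : ℝ) : ℂ))
      =O[⊤] (fun p => √(pt p)) := O_ofReal ((O_sq_d 1).trans O_pt_st)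
  have h1' : (fun p : Pr c l H => ((‖u c l 1 (pz p)‖ ^ 2 : ℝ) : ℂ) - ((‖u c l 1 (pw p)‖ ^ 2 : ℝ) : ℂ))
      =O[⊤] (fun p => √(pt p)) := h1.congr_left (fun p => Complex.ofReal_sub _ _)
  have hn : ∀ z : ℂ, u c l 1 z * conj (u c l 1 z) = ((‖u c l 1 z‖ ^ 2 : ℝ) : ℂ) := by
    intro z
    rw [Complex.mul_conj, Complex.sq_norm]
  have he : (fun p : Pr c l H => ep c l (pz p) * conj (u c l 1 (pz p)) -
      ep c l (pw p) * conj (u c l 1 (pw p))) =O[⊤] (fun p => √(pt p)) :=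
    ((O_mul_one O_ep_z (O_conj (O_u_z 1))).sub (O_mul_one O_ep_w (O_conj (O_u_w 1)))).trans
      (O_pd_pt.trans O_pt_st)
  fin_cases j
  · exact hW
  · refine h1.congr_left (fun p => ?_)
    have e1 := hn (pz p)
    have e2 := hn (pw p)
    change _ = u c l 1 (pz p) * conj (u c l 1 (pz p)) - u c l 1 (pw p) * conj (u c l 1 (pw p))
    rw [e1, e2]; push_cast; ring
  · have h0 : ((l 2 - l 3 : ℝ) : ℂ) ≠ 0 := by
      have : l 2 - l 3 ≠ 0 := fun h => absurd (hl (sub_eq_zero.1 h)) (by decide)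
      exact_mod_cast this
    change (fun p : Pr c l H => u c l 2 (pz p) * conj (u c l 1 (pz p)) -
      u c l 2 (pw p) * conj (u c l 1 (pw p))) =O[⊤] (fun p => √(pt p))
    rw [← isBigO_const_mul_left_iff h0]
    have h := (he.sub (hW.const_mul_left ((l 0 - l 3 : ℝ) : ℂ))).sub
      (h1'.const_mul_left ((l 1 - l 3 : ℝ) : ℂ))
    refine h.congr_left (fun p => ?_)
    have e1 : ((l 0 - l 3 : ℝ) : ℂ) * u c l 0 (pz p) + ((l 1 - l 3 : ℝ) : ℂ) * u c l 1 (pz p)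
      + ((l 2 - l 3 : ℝ) : ℂ) * u c l 2 (pz p) = ep c l (pz p) := linA _ p.2.2.1.2.1
    have e2 : ((l 0 - l 3 : ℝ) : ℂ) * u c l 0 (pw p) + ((l 1 - l 3 : ℝ) : ℂ) * u c l 1 (pw p)
      + ((l 2 - l 3 : ℝ) : ℂ) * u c l 2 (pw p) = ep c l (pw p) := linA _ p.2.2.2.1.2.1
    have n1 := hn (pz p)
    have n2 := hn (pw p)
    simp only [W]
    linear_combination (-(conj (u c l 1 (pz p)))) * e1 + ((l 1 - l 3 : ℝ) : ℂ) * n1
      + (conj (u c l 1 (pw p))) * e2 - ((l 1 - l 3 : ℝ) : ℂ) * n2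
  · have h0 : ((l 3 - l 2 : ℝ) : ℂ) ≠ 0 := by
      have : l 3 - l 2 ≠ 0 := fun h => absurd (hl (sub_eq_zero.1 h)) (by decide)
      exact_mod_cast this
    change (fun p : Pr c l H => u c l 3 (pz p) * conj (u c l 1 (pz p)) -
      u c l 3 (pw p) * conj (u c l 1 (pw p))) =O[⊤] (fun p => √(pt p))
    rw [← isBigO_const_mul_left_iff h0]
    have h := (he.sub (hW.const_mul_left ((l 0 - l 2 : ℝ) : ℂ))).sub
      (h1'.const_mul_left ((l 1 - l 2 : ℝ) : ℂ))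
    refine h.congr_left (fun p => ?_)
    have e1 : ((l 0 - l 2 : ℝ) : ℂ) * u c l 0 (pz p) + ((l 1 - l 2 : ℝ) : ℂ) * u c l 1 (pz p)
      + ((l 3 - l 2 : ℝ) : ℂ) * u c l 3 (pz p) = ep c l (pz p) := linB _ p.2.2.1.2.1
    have e2 : ((l 0 - l 2 : ℝ) : ℂ) * u c l 0 (pw p) + ((l 1 - l 2 : ℝ) : ℂ) * u c l 1 (pw p)
      + ((l 3 - l 2 : ℝ) : ℂ) * u c l 3 (pw p) = ep c l (pw p) := linB _ p.2.2.2.1.2.1
    have n1 := hn (pz p)
    have n2 := hn (pw p)
    simp only [W]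
    linear_combination (-(conj (u c l 1 (pz p)))) * e1 + ((l 1 - l 2 : ℝ) : ℂ) * n1
      + (conj (u c l 1 (pw p))) * e2 - ((l 1 - l 2 : ℝ) : ℂ) * n2

lemma phase (j : Fin 4) (z : ℂ) : u c l j z * conj (u c l 1 z) *
    ((Real.exp ((l j + l 1) * z.im) : ℝ) : ℂ) =
    (c j * conj (c 1)) * Complex.exp (Complex.I * ((l j - l 1) * z.re : ℝ)) := by
  unfold u
  rw [map_mul, ← Complex.exp_conj]
  have : ∀ a b d e f g : ℂ, a * b * (d * e) * f = a * d * (b * e * f) := by intros; ring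
  rw [mul_mul_mul_comm, mul_assoc, Complex.ofReal_exp, ← Complex.exp_add, ← Complex.exp_add]
  congr 2
  apply Complex.ext
  · simp; ring
  · simp; ring

lemma O_phase (hl : Function.Injective l) (h1 : c 1 ≠ 0) (j : Fin 4) (hj : c j ≠ 0) :
    (fun p : Pr c l H => Complex.exp (Complex.I * ((l j - l 1) * (pz p).re : ℝ)) -
      Complex.exp (Complex.I * ((l j - l 1) * (pw p).re : ℝ))) =O[⊤] (fun p => √(pt p)) := by
  have h0 : c j * conj (c 1) ≠ 0 := mul_ne_zero hj (by simpa using h1)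
  rw [← isBigO_const_mul_left_iff h0]
  have a1 : (fun p : Pr c l H => (u c l j (pz p) * conj (u c l 1 (pz p)) -
      u c l j (pw p) * conj (u c l 1 (pw p))) *
      ((Real.exp ((l j + l 1) * (pz p).im) : ℝ) : ℂ)) =O[⊤] (fun p => √(pt p)) :=
    O_mul_one (O_uu hl j) (O_ofReal (O_exp_z _))
  have a2 : (fun p : Pr c l H => ((Real.exp ((l j + l 1) * (pz p).im) -
      Real.exp ((l j + l 1) * (pw p).im) : ℝ) : ℂ) * (u c l j (pw p) * conj (u c l 1 (pw p))))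
      =O[⊤] (fun p => √(pt p)) :=
    O_mul_one (O_ofReal ((O_exp_d _).trans O_pt_st)) (O_mul_one (O_u_w j) (O_conj (O_u_w 1)))
  refine (a1.add a2).congr_left (fun p => ?_)
  rw [mul_sub, ← phase, ← phase]
  push_cast
  ring

end

/-- near double zeros of one class. -/
theorem classes (c : Fin 4 → ℂ) (l : Fin 4 → ℝ) (H : ℝ) (hl : Function.Injective l)
    (h0 : c 0 ≠ 0) (h1 : c 1 ≠ 0) :
    ∃ (t : Finset ℝ) (cls : ℝ → ℝ) (n : ℕ) (K : ℝ), 0 < n ∧ 0 ≤ K ∧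
      (∀ y, |y| ≤ H → cls y ∈ t) ∧
      ∀ (z w : ℂ) (δ : ℝ), δ ≤ 1 → Near c l H δ z → Near c l H δ w → cls z.im = cls w.im →
        (0 ≤ (W c l z).im ↔ 0 ≤ (W c l w).im) →
        ∃ s : ℝ, 0 ≤ s ∧ s ^ (2 * n) ≤ K * δ ∧
          ∀ j, c j ≠ 0 → ‖Complex.exp (Complex.I * ((l j - l 1) * (z.re - w.re) : ℝ)) - 1‖ ≤ s := by
  obtain ⟨t, cls, n, K, hn, hK, hcls, hcov⟩ := cover (E c l) (E_analytic c l) (E_ne c l hl h0) H
  obtain ⟨KE, hKE, hE⟩ := O_le (O_E (c := c) (l := l) (H := H))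
  have hph : ∀ j, ∃ Kj : ℝ, 0 ≤ Kj ∧ (c j ≠ 0 → ∀ p : Pr c l H,
      ‖Complex.exp (Complex.I * ((l j - l 1) * (pz p).re : ℝ)) -
      Complex.exp (Complex.I * ((l j - l 1) * (pw p).re : ℝ))‖ ≤ Kj * √(pt p)) := by
    intro j
    by_cases hj : c j = 0
    · exact ⟨0, le_rfl, fun h => absurd hj h⟩
    · obtain ⟨Kj, hKj, h⟩ := O_le (O_phase (H := H) hl h1 j hj)
      refine ⟨Kj, hKj, fun _ p => ?_⟩
      have := h p
      rwa [Real.norm_of_nonneg (Real.sqrt_nonneg _)] at this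
  choose Kp hKp hph using hph
  let KK : ℝ := ∑ j, Kp j
  have hKK : 0 ≤ KK := Finset.sum_nonneg (fun j _ => hKp j)
  refine ⟨t, cls, n, KK ^ (2 * n) * (2 ^ n * (K * KE + 1)), hn, by positivity, hcls, ?_⟩
  intro z w δ hδ hz hw hc hs
  have hδ0 : 0 ≤ δ := (norm_nonneg _).trans hz.2.2
  let p : Pr c l H := ⟨(z, w, δ), hδ, hz, hw, hs⟩
  let p' : Pr c l H := ⟨(z, z, δ), hδ, hz, hz, Iff.rfl⟩
  let p'' : Pr c l H := ⟨(w, w, δ), hδ, hw, hw, Iff.rfl⟩
  have e1 : |E c l z.im| ≤ KE * δ := by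
    have := hE p'
    rw [Real.norm_of_nonneg (pd_nonneg p')] at this
    exact this
  have e2 : |E c l w.im| ≤ KE * δ := by
    have := hE p''
    rw [Real.norm_of_nonneg (pd_nonneg p'')] at this
    exact this
  have e3 := hcov z.im w.im (KE * δ) hz.1 hw.1 e1 e2 hc
  have hpt : pt p = |z.im - w.im| + δ := rfl
  have e4 : pt p ^ n ≤ 2 ^ n * (K * KE + 1) * δ := by
    have hmx : pt p ≤ 2 * max |z.im - w.im| δ := by
      have a1 := le_max_left |z.im - w.im| δ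
      have a2 := le_max_right |z.im - w.im| δ
      rw [hpt]; linarith
    have hmx2 : (max |z.im - w.im| δ) ^ n ≤ (K * KE + 1) * δ := by
      rcases max_cases |z.im - w.im| δ with ⟨h, _⟩ | ⟨h, _⟩ <;> rw [h]
      · nlinarith
      · calc δ ^ n ≤ δ ^ 1 := pow_le_pow_of_le_one hδ0 hδ hn
          _ = δ := pow_one _
          _ ≤ (K * KE + 1) * δ := by nlinarith [mul_nonneg (mul_nonneg hK.le hKE) hδ0]
    calc pt p ^ n ≤ (2 * max |z.im - w.im| δ) ^ n := pow_le_pow_left₀ (pt_nonneg p) hmx n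
      _ = 2 ^ n * (max |z.im - w.im| δ) ^ n := mul_pow _ _ _
      _ ≤ 2 ^ n * ((K * KE + 1) * δ) := mul_le_mul_of_nonneg_left hmx2 (by positivity)
      _ = _ := by ring
  refine ⟨KK * √(pt p), by positivity, ?_, ?_⟩
  · rw [mul_pow, pow_mul (√(pt p)) 2 n, Real.sq_sqrt (pt_nonneg p), mul_assoc]
    exact mul_le_mul_of_nonneg_left e4 (by positivity)
  · intro j hj
    have h := hph j hj p
    have hle : Kp j ≤ KK := Finset.single_le_sum (f := Kp) (fun i _ => hKp i) (Finset.mem_univ j)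
    have e5 : Complex.exp (Complex.I * ((l j - l 1) * (z.re - w.re) : ℝ)) - 1 =
        (Complex.exp (Complex.I * ((l j - l 1) * z.re : ℝ)) -
          Complex.exp (Complex.I * ((l j - l 1) * w.re : ℝ))) *
          Complex.exp (-(Complex.I * ((l j - l 1) * w.re : ℝ))) := by
      have hAB : Complex.I * ((l j - l 1) * (z.re - w.re) : ℝ) =
          Complex.I * ((l j - l 1) * z.re : ℝ) - Complex.I * ((l j - l 1) * w.re : ℝ) := by
        push_cast; ring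
      rw [hAB, Complex.exp_sub, Complex.exp_neg]
      have := Complex.exp_ne_zero (Complex.I * ((l j - l 1) * w.re : ℝ))
      field_simp
    rw [e5, norm_mul]
    have e6 : ‖Complex.exp (-(Complex.I * ((l j - l 1) * w.re : ℝ)))‖ = 1 := by
      rw [Complex.norm_exp]; simp
    rw [e6, mul_one]
    exact h.trans (mul_le_mul_of_nonneg_right hle (Real.sqrt_nonneg _))

end Pool.Agent.Helper77.EHR
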