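import Mathlib

/-! MP_4f9849: from the gap principle to `O(log log R)`. -/

namespace Pool.Agent.Helper77.EHR

open Filter Topology

lemma loglog3 : 0 < Real.log (Real.log 3) := by
  apply Real.log_pos
  rw [Real.lt_log_iff_exp_lt (by norm_num)]
  exact Real.exp_one_lt_three

lemma count {ι : Type*} [DecidableEq ι] (bad : ℂ → Prop) (H : ℝ) (t : Finset ι) (cl : ℂ → ι) (T : ℝ)
    (hstrip : ∀ z, bad z → |z.im| ≤ H) (hcl : ∀ z, bad z → cl z ∈ t)
    (gap : ∀ z w, bad z → bad w → T ≤ ‖z‖ → ‖z‖ ≤ ‖w‖ → cl z = cl w →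
      |z.re - w.re| ≤ 1 ∨ (1 + ‖z‖) ^ 2 ≤ 1 + ‖w‖) :
    ∃ C : ℝ, ∀ R : ℝ, 3 ≤ R →
      ({k : ℤ | |(k : ℝ)| ≤ R ∧ ∃ z, bad z ∧ (k : ℝ) ≤ z.re ∧ z.re < k + 1}.ncard : ℝ)
        ≤ C * Real.log (Real.log R) := by
  classical
  -- base of the windows
  set B : ℝ := max 3 (T + 1) with hB
  have hB3 : 3 ≤ B := le_max_left _ _
  have hBT : T + 1 ≤ B := le_max_right _ _
  have hlB : 1 ≤ Real.log B := by
    rw [Real.le_log_iff_exp_le (by linarith)]
    linarith [Real.exp_one_lt_three]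
  let win : ℂ → ℕ := fun z => Nat.log 2 (Nat.floor (Real.log (1 + ‖z‖) / Real.log B))
  have hwin : ∀ z w, B ≤ 1 + ‖z‖ → B ≤ 1 + ‖w‖ → win z = win w → 1 + ‖w‖ < (1 + ‖z‖) ^ 2 := by
    intro z w hz hw h
    have lz : 1 ≤ Real.log (1 + ‖z‖) / Real.log B := by
      rw [one_le_div (by linarith)]
      exact Real.log_le_log (by linarith) hz
    have lw : 1 ≤ Real.log (1 + ‖w‖) / Real.log B := by
      rw [one_le_div (by linarith)]
      exact Real.log_le_log (by linarith) hw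
    set az := Nat.floor (Real.log (1 + ‖z‖) / Real.log B) with haz
    set aw := Nat.floor (Real.log (1 + ‖w‖) / Real.log B) with haw
    have haz1 : 1 ≤ az := Nat.le_floor (by simpa using lz)
    have haw1 : 1 ≤ aw := Nat.le_floor (by simpa using lw)
    have h1 : aw < 2 ^ (Nat.log 2 aw + 1) := Nat.lt_pow_succ_log_self (by norm_num) _
    have h2 : 2 ^ (Nat.log 2 az) ≤ az := Nat.pow_log_le_self 2 (by omega)
    have h3 : Nat.log 2 az = Nat.log 2 aw := h
    have h4 : aw + 1 ≤ 2 * az := by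
      rw [← h3, pow_succ] at h1
      omega
    have h5 : Real.log (1 + ‖w‖) / Real.log B < aw + 1 := Nat.lt_floor_add_one _
    have h6 : (az : ℝ) ≤ Real.log (1 + ‖z‖) / Real.log B := Nat.floor_le (by linarith)
    have h7 : Real.log (1 + ‖w‖) / Real.log B < 2 * (Real.log (1 + ‖z‖) / Real.log B) := by
      have : ((aw : ℝ) + 1) ≤ 2 * az := by exact_mod_cast h4
      linarith
    have h8 : Real.log (1 + ‖w‖) < Real.log ((1 + ‖z‖) ^ 2) := by
      rw [Real.log_pow]
      have : 0 < Real.log B := by linarith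
      rw [← mul_div_assoc, div_lt_div_iff_of_pos_right this] at h7
      exact_mod_cast h7
    exact (Real.log_lt_log_iff (by positivity) (by positivity)).1 h8
  -- constants
  obtain ⟨m, hm⟩ : ∃ m : ℕ, 1 + (2 + |H|) ≤ (3 : ℝ) ^ m :=
    ((tendsto_pow_atTop_atTop_of_one_lt (by norm_num : (1 : ℝ) < 3)).eventually_ge_atTop _).exists
  set C1 : ℝ := 2 * B + 5 with hC1
  set L3 := Real.log (Real.log 3) with hL3
  have hL3p : 0 < L3 := loglog3
  refine ⟨C1 / L3 + t.card * 4 * ((Real.log (m + 1) / Real.log 2 + 1) / L3 + 1 / Real.log 2),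
    fun R hR => ?_⟩
  have hlogR : Real.log 3 ≤ Real.log R := Real.log_le_log (by norm_num) hR
  have hl3 : 1 < Real.log 3 := by
    rw [Real.lt_log_iff_exp_lt (by norm_num)]; exact Real.exp_one_lt_three
  have hll : L3 ≤ Real.log (Real.log R) := Real.log_le_log (by linarith) hlogR
  set LL := Real.log (Real.log R) with hLL
  have hLLp : 0 < LL := lt_of_lt_of_le hL3p hll
  set S : Set ℤ := {k : ℤ | |(k : ℝ)| ≤ R ∧ ∃ z, bad z ∧ (k : ℝ) ≤ z.re ∧ z.re < k + 1} with hS
  have hch : ∀ k : ℤ, ∃ z : ℂ, k ∈ S → bad z ∧ (k : ℝ) ≤ z.re ∧ z.re < k + 1 := by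
    intro k
    by_cases hk : k ∈ S
    · obtain ⟨_, z, hz⟩ := hk
      exact ⟨z, fun _ => hz⟩
    · exact ⟨0, fun h => absurd h hk⟩
  choose zz hzz using hch
  set S1 : Set ℤ := {k ∈ S | 1 + ‖zz k‖ < B} with hS1
  set S2 : Set ℤ := {k ∈ S | B ≤ 1 + ‖zz k‖} with hS2
  have hS12 : S ⊆ S1 ∪ S2 := by
    intro k hk
    rcases lt_or_ge (1 + ‖zz k‖) B with h | h
    · exact Or.inl ⟨hk, h⟩
    · exact Or.inr ⟨hk, h⟩
  -- S1
  have hre : ∀ k ∈ S, |(k : ℝ)| ≤ ‖zz k‖ + 1 := by
    intro k hk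
    obtain ⟨_, h1, h2⟩ := hzz k hk
    have h3 := Complex.abs_re_le_norm (zz k)
    rw [abs_le] at h3 ⊢
    constructor <;> linarith
  have c1 : S1.Finite ∧ (S1.ncard : ℝ) ≤ C1 := by
    have hsub : S1 ⊆ (Finset.Icc (-(⌈B⌉)) ⌈B⌉ : Finset ℤ) := by
      intro k hk
      have h1 := hre k hk.1
      have h2 : |(k : ℝ)| ≤ (⌈B⌉ : ℝ) := by
        have := hk.2
        have := Int.le_ceil B
        linarith
      rw [abs_le] at h2
      simp only [Finset.coe_Icc, Set.mem_Icc]
      constructor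
      · have := h2.1; exact_mod_cast this
      · have := h2.2; exact_mod_cast this
    refine ⟨(Finset.finite_toSet _).subset hsub, ?_⟩
    have h1 := Set.ncard_le_ncard hsub (Finset.finite_toSet _)
    rw [Set.ncard_coe_finset, Int.card_Icc] at h1
    have h2 : (S1.ncard : ℝ) ≤ ((⌈B⌉ + 1 - (-⌈B⌉)).toNat : ℝ) := by exact_mod_cast h1
    refine h2.trans ?_
    have h3 : 0 ≤ ⌈B⌉ + 1 - (-⌈B⌉) := by
      have : 0 ≤ ⌈B⌉ := Int.ceil_nonneg (by linarith)
      omega
    have h4 : (((⌈B⌉ + 1 - (-⌈B⌉)).toNat : ℤ) : ℝ) = ((⌈B⌉ + 1 - (-⌈B⌉) : ℤ) : ℝ) := by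
      rw [Int.toNat_of_nonneg h3]
    have h5 : (((⌈B⌉ + 1 - (-⌈B⌉)).toNat : ℕ) : ℝ) = ((⌈B⌉ + 1 - (-⌈B⌉) : ℤ) : ℝ) := by
      rw [← h4]; norm_cast
    rw [h5]
    push_cast
    have := Int.ceil_lt_add_one B
    rw [hC1]; linarith
  -- S2
  set J : ℕ := Nat.log 2 (Nat.floor (Real.log (R + 2 + |H|) / Real.log B)) with hJ
  have hwJ : ∀ k ∈ S, win (zz k) ≤ J := by
    intro k hk
    obtain ⟨hb, h1, h2⟩ := hzz k hk
    have h3 : ‖zz k‖ ≤ |(zz k).re| + |(zz k).im| := Complex.norm_le_abs_re_add_abs_im _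
    have h4 : |(zz k).re| ≤ R + 1 := by
      have := hk.1
      rw [abs_le] at this ⊢
      constructor <;> linarith
    have h5 : |(zz k).im| ≤ |H| := (hstrip _ hb).trans (le_abs_self _)
    refine Nat.log_mono_right (Nat.floor_mono ?_)
    refine div_le_div_of_nonneg_right (Real.log_le_log (by positivity) (by linarith)) (by linarith)
  let f : ℤ → ι × Bool × Bool × ℕ := fun k =>
    (cl (zz k), decide (k % 2 = 0), true, win (zz k))
  have hinj : Set.InjOn f S2 := by
    intro k hk k' hk' he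
    simp only [f, Prod.mk.injEq] at he
    obtain ⟨e1, e2, _, e3⟩ := he
    obtain ⟨hb, a1, a2⟩ := hzz k hk.1
    obtain ⟨hb', a1', a2'⟩ := hzz k' hk'.1
    have hre1 : |(zz k).re - (zz k').re| ≤ 1 := by
      rcases le_total ‖zz k‖ ‖zz k'‖ with hle | hle
      · rcases gap _ _ hb hb' (by linarith [hk.2]) hle e1 with h | h
        · exact h
        · exact absurd h (not_le.2 (hwin _ _ hk.2 hk'.2 e3))
      · rcases gap _ _ hb' hb (by linarith [hk'.2]) hle e1.symm with h | h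
        · rw [abs_sub_comm]; exact h
        · exact absurd h (not_le.2 (hwin _ _ hk'.2 hk.2 e3.symm))
    rw [abs_le] at hre1
    have b1 : (k : ℝ) - k' < 2 := by linarith
    have b2 : (k' : ℝ) - k < 2 := by linarith
    have b3 : k - k' < 2 := by exact_mod_cast b1
    have b4 : k' - k < 2 := by exact_mod_cast b2
    have b5 : (k % 2 = 0 ↔ k' % 2 = 0) := by
      simpa using e2
    omega
  have c2 : S2.Finite ∧ (S2.ncard : ℝ) ≤ t.card * 4 * (J + 1) := by
    let F : Finset (ι × Bool × Bool × ℕ) :=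
      t ×ˢ (Finset.univ ×ˢ (Finset.univ ×ˢ Finset.range (J + 1)))
    have hmap : Set.MapsTo f S2 (F : Set (ι × Bool × Bool × ℕ)) := by
      intro k hk
      have := hwJ k hk.1
      have h2 := hcl _ (hzz k hk.1).1
      simp only [F, Finset.coe_product, Set.mem_prod, Finset.mem_coe, f]
      refine ⟨h2, Finset.mem_univ _, Finset.mem_univ _, ?_⟩
      rw [Finset.mem_range]; omega
    have hfin : S2.Finite := Set.Finite.of_injOn hmap hinj (Finset.finite_toSet F)
    refine ⟨hfin, ?_⟩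
    have h1 := Set.ncard_le_ncard_of_injOn f hmap hinj (Finset.finite_toSet F)
    rw [Set.ncard_coe_finset] at h1
    have h2 : F.card = t.card * (2 * (2 * (J + 1))) := by
      simp [F, Finset.card_product]
    rw [h2] at h1
    have h3 : (S2.ncard : ℝ) ≤ ((t.card * (2 * (2 * (J + 1))) : ℕ) : ℝ) := by exact_mod_cast h1
    refine h3.trans (le_of_eq ?_)
    push_cast; ring
  have hJle : (J : ℝ) ≤ Real.log (m + 1) / Real.log 2 + LL / Real.log 2 := by
    have hlog2 : 0 < Real.log 2 := Real.log_pos (by norm_num)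
    set q := Real.log (R + 2 + |H|) / Real.log B with hq
    have hRH : 1 ≤ R + 2 + |H| := by linarith [abs_nonneg H]
    have hq0 : 0 ≤ q := div_nonneg (Real.log_nonneg hRH) (by linarith)
    have hq1 : q ≤ (m + 1) * Real.log R := by
      have h1 : q ≤ Real.log (R + 2 + |H|) := div_le_self (Real.log_nonneg hRH) hlB
      have h2 : R + 2 + |H| ≤ R ^ (m + 1) := by
        have h3 : (3 : ℝ) ^ m ≤ R ^ m := pow_le_pow_left₀ (by norm_num) hR m
        rw [pow_succ]
        have h4 : R + 2 + |H| ≤ (1 + (2 + |H|)) * R := by nlinarith [abs_nonneg H]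
        have h5 : (1 + (2 + |H|)) * R ≤ R ^ m * R :=
          mul_le_mul_of_nonneg_right (hm.trans h3) (by linarith)
        linarith
      have h3 := Real.log_le_log (by linarith) h2
      rw [Real.log_pow] at h3
      push_cast at h3
      linarith
    rcases Nat.eq_zero_or_pos (Nat.floor q) with h0 | h0
    · have : J = 0 := by rw [hJ, h0]; simp
      rw [this]
      have : 0 ≤ Real.log ((m : ℝ) + 1) := Real.log_nonneg (by linarith [(Nat.cast_nonneg m : (0:ℝ) ≤ m)])
      rw [Nat.cast_zero]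
      exact add_nonneg (div_nonneg this hlog2.le) (div_nonneg hLLp.le hlog2.le)
    · have h1 : 2 ^ J ≤ Nat.floor q := Nat.pow_log_le_self 2 (Nat.pos_iff_ne_zero.1 h0)
      have h2 : ((2 : ℝ) ^ J) ≤ q := by
        have : ((2 ^ J : ℕ) : ℝ) ≤ (Nat.floor q : ℝ) := by exact_mod_cast h1
        push_cast at this
        exact this.trans (Nat.floor_le hq0)
      have h3 : ((2 : ℝ) ^ J) ≤ (m + 1) * Real.log R := h2.trans hq1
      have h4 := Real.log_le_log (by positivity) h3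
      rw [Real.log_pow, Real.log_mul (by positivity) (by linarith)] at h4
      rw [← add_div, le_div_iff₀ hlog2]
      exact h4
  have htot : (S.ncard : ℝ) ≤ C1 + t.card * 4 * (J + 1) := by
    have h1 : S.ncard ≤ (S1 ∪ S2).ncard := Set.ncard_le_ncard hS12 (c1.1.union c2.1)
    have h2 : (S1 ∪ S2).ncard ≤ S1.ncard + S2.ncard := Set.ncard_union_le _ _
    have h3 : (S.ncard : ℝ) ≤ S1.ncard + S2.ncard := by exact_mod_cast h1.trans h2
    linarith [c1.2, c2.2]
  refine htot.trans ?_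
  have hC1p : 0 ≤ C1 := by rw [hC1]; linarith
  have e1 : C1 ≤ C1 / L3 * LL := by
    rw [div_mul_eq_mul_div, le_div_iff₀ hL3p]
    exact mul_le_mul_of_nonneg_left hll hC1p
  set a := Real.log ((m : ℝ) + 1) / Real.log 2 + 1 with ha
  have hap : 0 ≤ a := by
    have h1 : 0 ≤ Real.log ((m : ℝ) + 1) := Real.log_nonneg (by linarith [(Nat.cast_nonneg m : (0:ℝ) ≤ m)])
    have h2 : 0 < Real.log 2 := Real.log_pos (by norm_num)
    positivity
  have e2 : a ≤ a / L3 * LL := by
    rw [div_mul_eq_mul_div, le_div_iff₀ hL3p]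
    exact mul_le_mul_of_nonneg_left hll hap
  have e3 : (J : ℝ) + 1 ≤ (a / L3 + 1 / Real.log 2) * LL := by
    have : (a / L3 + 1 / Real.log 2) * LL = a / L3 * LL + LL / Real.log 2 := by ring
    rw [this]
    linarith
  have e4 : (t.card : ℝ) * 4 * (J + 1) ≤ t.card * 4 * ((a / L3 + 1 / Real.log 2) * LL) :=
    mul_le_mul_of_nonneg_left e3 (by positivity)
  calc C1 + t.card * 4 * (J + 1) ≤ C1 / L3 * LL + t.card * 4 * ((a / L3 + 1 / Real.log 2) * LL) :=
        add_le_add e1 e4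
    _ = _ := by ring

end Pool.Agent.Helper77.EHR
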