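import Mathlib

/-! MP_4f9849: Liouville's inequality and the gap of two phases. -/

namespace Pool.Agent.Helper77.EHR

open Filter Topology

lemma near_int (θ s : ℝ) (h : ‖Complex.exp (Complex.I * (θ : ℝ)) - 1‖ ≤ s) :
    ∃ m : ℤ, |θ - 2 * Real.pi * m| ≤ 2 * s := by
  have hpi := Real.pi_pos
  refine ⟨round (θ / (2 * Real.pi)), ?_⟩
  set m := round (θ / (2 * Real.pi)) with hm
  have h1 : |θ / (2 * Real.pi) - m| ≤ 1 / 2 := abs_sub_round _
  have h2 : θ - 2 * Real.pi * m = 2 * Real.pi * (θ / (2 * Real.pi) - m) := by field_simp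
  have h3 : |θ - 2 * Real.pi * m| ≤ Real.pi := by
    rw [h2, abs_mul, abs_of_pos (by positivity : (0 : ℝ) < 2 * Real.pi)]
    nlinarith
  set φ := θ - 2 * Real.pi * m with hφ
  have h4 : Complex.exp (Complex.I * (θ : ℝ)) = Complex.exp (Complex.I * (φ : ℝ)) := by
    have : (Complex.I * (θ : ℝ) : ℂ) = Complex.I * (φ : ℝ) + m * (2 * Real.pi * Complex.I) := by
      rw [hφ]; push_cast; ring
    rw [this, Complex.exp_periodic.int_mul m]
  rw [h4, Complex.norm_exp_I_mul_ofReal_sub_one, norm_mul, Real.norm_eq_abs, Real.norm_eq_abs,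
    abs_two] at h
  have h5 : 2 / Real.pi * |φ / 2| ≤ |Real.sin (φ / 2)| := by
    refine Real.mul_abs_le_abs_sin ?_
    rw [abs_div, abs_two]; linarith
  rw [abs_div, abs_two] at h5
  have h6 : |φ| / Real.pi ≤ |Real.sin (φ / 2)| := by
    calc |φ| / Real.pi = 2 / Real.pi * (|φ| / 2) := by ring
      _ ≤ _ := h5
  have h7 : |φ| ≤ Real.pi * |Real.sin (φ / 2)| := by
    rw [div_le_iff₀ hpi] at h6; linarith
  have h8 : Real.pi ≤ 4 := Real.pi_le_four
  nlinarith [abs_nonneg (Real.sin (φ / 2))]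

lemma liouville (α : ℝ) (hα : Irrational α) (ha : IsAlgebraic ℚ α) :
    ∃ (D : ℕ) (c : ℝ), 0 < c ∧ ∀ m n : ℤ, m ≠ 0 → c ≤ |m * α - n| * |(m : ℝ)| ^ D := by
  have ha' : IsAlgebraic ℤ α := (IsFractionRing.isAlgebraic_iff ℤ ℚ ℝ).2 ha
  obtain ⟨f, f0, hf⟩ := ha'
  have fa : Polynomial.eval α (Polynomial.map (algebraMap ℤ ℝ) f) = 0 := by
    rw [Polynomial.eval_map_algebraMap]; exact hf
  obtain ⟨A, hA, h⟩ := Liouville.exists_pos_real_of_irrational_root hα f0 fa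
  refine ⟨f.natDegree, A⁻¹, inv_pos.2 hA, ?_⟩
  have key : ∀ (m : ℕ) (n : ℤ), A⁻¹ ≤ |((m : ℝ) + 1) * α - n| * ((m : ℝ) + 1) ^ f.natDegree := by
    intro m n
    have h1 := h n m
    have hm : (0 : ℝ) < (m : ℝ) + 1 := by positivity
    have h2 : |α - n / ((m : ℝ) + 1)| ≤ |((m : ℝ) + 1) * α - n| := by
      have : ((m : ℝ) + 1) * α - n = ((m : ℝ) + 1) * (α - n / ((m : ℝ) + 1)) := by field_simp
      rw [this, abs_mul, abs_of_pos hm]
      have := abs_nonneg (α - n / ((m : ℝ) + 1))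
      have hm' : (0 : ℝ) ≤ m := by positivity
      nlinarith
    rw [inv_le_iff_one_le_mul₀ hA]
    calc (1 : ℝ) ≤ _ := h1
      _ ≤ ((m : ℝ) + 1) ^ f.natDegree * (|((m : ℝ) + 1) * α - n| * A) := by gcongr
      _ = _ := by ring
  intro m n hm
  rcases lt_or_gt_of_ne hm with hneg | hpos
  · obtain ⟨k, hk⟩ : ∃ k : ℕ, -m = k + 1 := ⟨(-m - 1).toNat, by omega⟩
    have h1 := key k (-n)
    have hmr : ((k : ℝ) + 1) = -(m : ℝ) := by
      have : ((-m : ℤ) : ℝ) = ((k + 1 : ℤ) : ℝ) := by exact_mod_cast hk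
      push_cast at this; linarith
    rw [hmr] at h1
    have e1 : |(m : ℝ)| = -(m : ℝ) := abs_of_neg (by exact_mod_cast hneg)
    rw [e1]
    have e2 : |-(m : ℝ) * α - ((-n : ℤ) : ℝ)| = |m * α - n| := by
      rw [← abs_neg]; congr 1; push_cast; ring
    rwa [e2] at h1
  · obtain ⟨k, hk⟩ : ∃ k : ℕ, m = k + 1 := ⟨(m - 1).toNat, by omega⟩
    have h1 := key k n
    have hmr : ((k : ℝ) + 1) = (m : ℝ) := by
      have : ((m : ℤ) : ℝ) = ((k + 1 : ℤ) : ℝ) := by exact_mod_cast hk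
      push_cast at this; linarith
    rw [hmr] at h1
    have e1 : |(m : ℝ)| = (m : ℝ) := abs_of_pos (by exact_mod_cast hpos)
    rwa [e1]

lemma gap (μ ν : ℝ) (hμ : μ ≠ 0) (hirr : Irrational (ν / μ)) (halg : IsAlgebraic ℚ (ν / μ)) :
    ∃ (D : ℕ) (c : ℝ), 0 < c ∧ ∀ x s : ℝ, ‖Complex.exp (Complex.I * (μ * x : ℝ)) - 1‖ ≤ s →
      ‖Complex.exp (Complex.I * (ν * x : ℝ)) - 1‖ ≤ s → |x| ≤ 1 ∨ c ≤ (|x| + 1) ^ D * s := by
  obtain ⟨D, c0, hc0, hL⟩ := liouville _ hirr halg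
  set α := ν / μ with hα
  have hμ' : 0 < |μ| := abs_pos.2 hμ
  set c1 := c0 / ((1 + |α|) * (|μ| + 1) ^ D) with hc1
  have hc1p : 0 < c1 := by positivity
  refine ⟨D, min (min (|μ| / 2) 1) c1, by positivity, fun x s h1 h2 => ?_⟩
  have hs : 0 ≤ s := (norm_nonneg _).trans h1
  have hx1 : (1 : ℝ) ≤ (|x| + 1) ^ D := one_le_pow₀ (by linarith [abs_nonneg x])
  by_cases hs1 : 1 < s
  · right
    calc min (min (|μ| / 2) 1) c1 ≤ 1 := (min_le_left _ _).trans (min_le_right _ _)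
      _ ≤ (|x| + 1) ^ D * s := by nlinarith
  by_cases hs2 : |μ| / 2 < s
  · right
    calc min (min (|μ| / 2) 1) c1 ≤ |μ| / 2 := (min_le_left _ _).trans (min_le_left _ _)
      _ ≤ s := hs2.le
      _ ≤ (|x| + 1) ^ D * s := by nlinarith
  rw [not_lt] at hs1 hs2
  obtain ⟨m, hm⟩ := near_int _ _ h1
  obtain ⟨n, hn⟩ := near_int _ _ h2
  by_cases hm0 : m = 0
  · left
    rw [hm0] at hm
    simp only [Int.cast_zero, mul_zero, sub_zero] at hm
    rw [abs_mul] at hm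
    have : |μ| * |x| ≤ |μ| * 1 := by linarith
    exact le_of_mul_le_mul_left this hμ'
  · right
    have hL' := hL m n hm0
    have hpi : (3 : ℝ) < Real.pi := Real.pi_gt_three
    have e1 : |(m : ℝ) * α - n| ≤ (1 + |α|) * s := by
      have e2 : (2 * Real.pi * μ) * ((m : ℝ) * α - n) =
          ν * (2 * Real.pi * m - μ * x) + μ * (ν * x - 2 * Real.pi * n) := by
        rw [hα]; field_simp; ring
      have e3 : |(2 * Real.pi * μ) * ((m : ℝ) * α - n)| ≤ |ν| * (2 * s) + |μ| * (2 * s) := by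
        rw [e2]
        refine (abs_add_le _ _).trans ?_
        rw [abs_mul, abs_mul]
        have hm' : |2 * Real.pi * m - μ * x| ≤ 2 * s := by rw [abs_sub_comm]; exact hm
        gcongr
      have e4 : |ν| = |α| * |μ| := by rw [hα, abs_div]; field_simp
      rw [abs_mul, abs_mul, abs_of_pos (by positivity : (0 : ℝ) < 2 * Real.pi), e4] at e3
      have e5 : |μ| * |(m : ℝ) * α - n| * (2 * Real.pi) ≤ |μ| * ((1 + |α|) * s) * 2 := by
        nlinarith
      have e6 : |μ| * |(m : ℝ) * α - n| * 2 ≤ |μ| * ((1 + |α|) * s) * 2 := by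
        have : 0 ≤ |μ| * |(m : ℝ) * α - n| := by positivity
        nlinarith
      have e7 : |μ| * |(m : ℝ) * α - n| ≤ |μ| * ((1 + |α|) * s) := by linarith
      exact le_of_mul_le_mul_left e7 hμ'
    have e2 : |(m : ℝ)| ≤ (|μ| + 1) * (|x| + 1) := by
      have h3 : |2 * Real.pi * (m : ℝ)| ≤ |μ * x| + 2 * s := by
        have : 2 * Real.pi * (m : ℝ) = μ * x - (μ * x - 2 * Real.pi * m) := by ring
        rw [this]
        exact (abs_sub _ _).trans (by linarith)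
      rw [abs_mul, abs_mul μ x, abs_of_pos (by positivity : (0 : ℝ) < 2 * Real.pi)] at h3
      have h4 : 0 ≤ |(m : ℝ)| := abs_nonneg _
      have h5 : 0 ≤ |μ| * |x| := by positivity
      have h6 := abs_nonneg x
      nlinarith
    have e3 : c0 ≤ (1 + |α|) * s * ((|μ| + 1) * (|x| + 1)) ^ D := by
      calc c0 ≤ _ := hL'
        _ ≤ _ := by gcongr
    calc min (min (|μ| / 2) 1) c1 ≤ c1 := min_le_right _ _
      _ ≤ (|x| + 1) ^ D * s := by
        rw [hc1, div_le_iff₀ (by positivity)]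
        calc c0 ≤ _ := e3
          _ = _ := by rw [mul_pow]; ring

end Pool.Agent.Helper77.EHR
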