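import Mathlib
import Pool.Agent.Helper77.EHR.Cls
import Pool.Agent.Helper77.EHR.Dio
import Pool.Agent.Helper77.EHR.Count

/-! MP_4f9849: four-term exponential sums, assembly. -/

namespace Pool.Agent.Helper77.EHR

open Filter Topology

/-- the exponential sum. -/
noncomputable def F (c : Fin 4 → ℂ) (l : Fin 4 → ℝ) (z : ℂ) : ℂ := ∑ j, u c l j z

lemma strip (c : Fin 4 → ℂ) (l : Fin 4 → ℝ) (hl : Function.Injective l) (hc : ∃ j, c j ≠ 0) :
    ∃ H : ℝ, 0 ≤ H ∧ ∀ z, F c l z = 0 → |z.im| ≤ H := by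
  classical
  have hw : ∃ j, ‖c j‖ ≠ 0 := by obtain ⟨j, hj⟩ := hc; exact ⟨j, by simpa using hj⟩
  obtain ⟨j, Y, hY0, hY⟩ := dom (fun j => ‖c j‖) l hl hw
  obtain ⟨j', Y', hY0', hY'⟩ := dom (fun j => ‖c j‖) (fun j => -l j)
    (fun a b h => hl (neg_injective h)) hw
  refine ⟨max Y Y', le_max_of_le_left hY0, fun z hz => ?_⟩
  by_contra hcon
  rw [not_le] at hcon
  have key : ∀ j, ‖c j‖ * Real.exp (-(l j * z.im)) ≤
      ∑ i ∈ Finset.univ.erase j, ‖c i‖ * Real.exp (-(l i * z.im)) := by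
    intro j
    unfold F at hz
    rw [← Finset.add_sum_erase _ _ (Finset.mem_univ j)] at hz
    rw [← norm_u, eq_neg_of_add_eq_zero_left hz, norm_neg]
    refine (norm_sum_le _ _).trans (le_of_eq ?_)
    exact Finset.sum_congr rfl (fun i _ => norm_u _ _ _ _)
  rcases le_or_gt 0 z.im with h | h
  · rw [abs_of_nonneg h] at hcon
    have h1 := hY z.im ((le_max_left _ _).trans hcon.le)
    simp only [abs_norm] at h1
    exact absurd h1 (not_lt.2 (key j))
  · rw [abs_of_neg h] at hcon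
    have h1 := hY' (-z.im) ((le_max_right _ _).trans hcon.le)
    simp only [abs_norm, neg_mul_neg] at h1
    exact absurd h1 (not_lt.2 (key j'))

lemma near_of_pair (c : Fin 4 → ℂ) (l : Fin 4 → ℝ) (H : ℝ)
    (hH : ∀ z, F c l z = 0 → |z.im| ≤ H) :
    ∃ M Λ : ℝ, 0 < M ∧ 1 ≤ Λ ∧ ∀ z w, F c l z = 0 → F c l w = 0 → w ≠ z → Λ * ‖z - w‖ ≤ 1 →
      Near c l H (M * ‖z - w‖) z := by
  refine ⟨∑ j, ‖c j‖ * Real.exp (|l j| * H) * (l j) ^ 2 + 1, ∑ j, |l j| + 1, by positivity, ?_, ?_⟩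
  · have : 0 ≤ ∑ j, |l j| := Finset.sum_nonneg (fun j _ => abs_nonneg _)
    linarith
  intro z w hz hw hne hd
  refine ⟨hH z hz, hz, ?_⟩
  have hzH := hH z hz
  set d := w - z with hdd
  have hd0 : 0 < ‖d‖ := norm_pos_iff.2 (sub_ne_zero.2 hne)
  have hdn : ‖z - w‖ = ‖d‖ := by rw [hdd, norm_sub_rev]
  rw [hdn] at hd ⊢
  have hj : ∀ j, ‖Complex.I * (l j : ℂ) * d‖ ≤ 1 := by
    intro j
    rw [norm_mul, norm_mul, Complex.norm_I, one_mul, Complex.norm_real, Real.norm_eq_abs]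
    have : |l j| ≤ ∑ j, |l j| :=
      Finset.single_le_sum (f := fun j => |l j|) (fun j _ => abs_nonneg _) (Finset.mem_univ j)
    nlinarith
  have e1 : ∑ j, u c l j z * (Complex.exp (Complex.I * (l j : ℂ) * d) - 1 - Complex.I * (l j : ℂ) * d)
      = -(Complex.I * d) * ∑ j, (l j : ℂ) * u c l j z := by
    have h1 : ∀ j, u c l j z * (Complex.exp (Complex.I * (l j : ℂ) * d) - 1 -
        Complex.I * (l j : ℂ) * d) = u c l j w - u c l j z - (Complex.I * d) * ((l j : ℂ) * u c l j z) := by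
      intro j
      have : u c l j w = u c l j z * Complex.exp (Complex.I * (l j : ℂ) * d) := by
        unfold u
        rw [mul_assoc (c j), ← Complex.exp_add, hdd]
        congr 2; ring
      rw [this]; ring
    rw [Finset.sum_congr rfl (fun j _ => h1 j), Finset.sum_sub_distrib, Finset.sum_sub_distrib,
      ← Finset.mul_sum]
    have a1 : ∑ j, u c l j w = 0 := hw
    have a2 : ∑ j, u c l j z = 0 := hz
    rw [a1, a2]; ring
  have e2 : ‖d‖ * ‖∑ j, (l j : ℂ) * u c l j z‖ ≤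
      (∑ j, ‖c j‖ * Real.exp (|l j| * H) * (l j) ^ 2) * ‖d‖ ^ 2 := by
    have : ‖d‖ * ‖∑ j, (l j : ℂ) * u c l j z‖ = ‖-(Complex.I * d) * ∑ j, (l j : ℂ) * u c l j z‖ := by
      rw [norm_mul, norm_neg, norm_mul, Complex.norm_I, one_mul]
    rw [this, ← e1, Finset.sum_mul]
    refine (norm_sum_le _ _).trans (Finset.sum_le_sum (fun j _ => ?_))
    rw [norm_mul]
    have b1 : ‖u c l j z‖ ≤ ‖c j‖ * Real.exp (|l j| * H) := by
      rw [norm_u]
      refine mul_le_mul_of_nonneg_left (Real.exp_le_exp.2 ?_) (norm_nonneg _)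
      calc -(l j * z.im) ≤ |l j * z.im| := neg_le_abs _
        _ = |l j| * |z.im| := abs_mul _ _
        _ ≤ |l j| * H := mul_le_mul_of_nonneg_left hzH (abs_nonneg _)
    have b2 : ‖Complex.exp (Complex.I * (l j : ℂ) * d) - 1 - Complex.I * (l j : ℂ) * d‖
        ≤ (l j) ^ 2 * ‖d‖ ^ 2 := by
      refine (Complex.norm_exp_sub_one_sub_id_le (hj j)).trans (le_of_eq ?_)
      rw [norm_mul, norm_mul, Complex.norm_I, one_mul, Complex.norm_real, Real.norm_eq_abs, mul_pow,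
        sq_abs]
    calc _ ≤ (‖c j‖ * Real.exp (|l j| * H)) * ((l j) ^ 2 * ‖d‖ ^ 2) :=
          mul_le_mul b1 b2 (norm_nonneg _) (by positivity)
      _ = _ := by ring
  have e3 : ‖∑ j, (l j : ℂ) * u c l j z‖ ≤
      (∑ j, ‖c j‖ * Real.exp (|l j| * H) * (l j) ^ 2) * ‖d‖ := by
    have : ‖d‖ * ‖∑ j, (l j : ℂ) * u c l j z‖ ≤
        ‖d‖ * ((∑ j, ‖c j‖ * Real.exp (|l j| * H) * (l j) ^ 2) * ‖d‖) := by
      calc _ ≤ _ := e2
        _ = _ := by ring
    exact le_of_mul_le_mul_left this hd0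
  calc _ ≤ _ := e3
    _ ≤ _ := by nlinarith

/-- a zero with another zero very close. -/
def Bad (c : Fin 4 → ℂ) (l : Fin 4 → ℝ) (q : ℕ) (z : ℂ) : Prop :=
  F c l z = 0 ∧ ∃ w, w ≠ z ∧ F c l w = 0 ∧ ‖z - w‖ * (1 + ‖z‖) ^ q < 1

/-- the conclusion. -/
def Concl (c : Fin 4 → ℂ) (l : Fin 4 → ℝ) : Prop :=
  ∃ (q : ℕ) (C : ℝ), ∀ R : ℝ, 3 ≤ R →
    ({k : ℤ | |(k : ℝ)| ≤ R ∧ ∃ z, Bad c l q z ∧ (k : ℝ) ≤ z.re ∧ z.re < k + 1}.ncard : ℝ)
      ≤ C * Real.log (Real.log R)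

lemma concl_irr (c : Fin 4 → ℂ) (l : Fin 4 → ℝ) (hl : Function.Injective l)
    (ha : ∀ j, IsAlgebraic ℚ (l j)) (h0 : c 0 ≠ 0) (h1 : c 1 ≠ 0) (j : Fin 4) (hj : c j ≠ 0)
    (hirr : Irrational ((l j - l 1) / (l 0 - l 1))) : Concl c l := by
  classical
  obtain ⟨H, hH0, hH⟩ := strip c l hl ⟨0, h0⟩
  obtain ⟨M, Λ, hM, hΛ, hnear⟩ := near_of_pair c l H hH
  obtain ⟨t, cls, n, K, hn, hK, hcls, hclass⟩ := classes c l H hl h0 h1
  have hμ : l 0 - l 1 ≠ 0 := fun h => absurd (hl (sub_eq_zero.1 h)) (by decide)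
  have halg : IsAlgebraic ℚ ((l j - l 1) / (l 0 - l 1)) :=
    ((ha j).sub (ha 1)).mul ((ha 0).sub (ha 1)).inv
  obtain ⟨D, g, hg, hgap⟩ := gap (l 0 - l 1) (l j - l 1) hμ hirr halg
  set q : ℕ := 2 * n * (D + 1) * 3 + 1 with hq
  set T : ℝ := Λ + M + K * M / g ^ (2 * n) with hT
  have hT1 : 1 ≤ T := by
    have : 0 ≤ K * M / g ^ (2 * n) := by positivity
    rw [hT]; linarith
  let cl : ℂ → ℝ × Prop := fun z => (cls z.im, 0 ≤ (W c l z).im)
  let tt : Finset (ℝ × Prop) := t ×ˢ {True, False}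
  have hdist : ∀ z, Bad c l q z → T ≤ ‖z‖ → ∀ r : ℝ, 1 ≤ r → r ≤ ‖z‖ → T ≤ r →
      Near c l H (M / (1 + r) ^ q) z := by
    intro z hz hTz r hr1 hr hTr
    obtain ⟨hz0, w, hwz, hw0, hd⟩ := hz
    have hp : 0 < (1 + ‖z‖) ^ q := by positivity
    have hd1 : ‖z - w‖ < 1 / (1 + ‖z‖) ^ q := by rwa [lt_div_iff₀ hp]
    have hd2 : 1 / (1 + ‖z‖) ^ q ≤ 1 / (1 + ‖z‖) := by
      refine one_div_le_one_div_of_le (by positivity) ?_
      exact le_self_pow₀ (by linarith [norm_nonneg z]) (by omega)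
    have hΛz : Λ * ‖z - w‖ ≤ 1 := by
      have h3 : Λ ≤ 1 + ‖z‖ := by
        have : 0 ≤ K * M / g ^ (2 * n) := by positivity
        linarith
      have h4 : ‖z - w‖ ≤ 1 / (1 + ‖z‖) := hd1.le.trans hd2
      rw [le_div_iff₀ (by positivity)] at h4
      nlinarith [norm_nonneg (z - w)]
    obtain ⟨a1, a2, a3⟩ := hnear z w hz0 hw0 hwz hΛz
    refine ⟨a1, a2, a3.trans ?_⟩
    rw [div_eq_mul_one_div]
    refine mul_le_mul_of_nonneg_left (hd1.le.trans ?_) hM.le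
    exact one_div_le_one_div_of_le (by positivity)
      (pow_le_pow_left₀ (by linarith) (by linarith) q)
  refine ⟨q, ?_⟩
  refine count (Bad c l q) H tt cl T (fun z hz => hH z hz.1) ?_ ?_
  · intro z hz
    simp only [tt, cl, Finset.mem_product]
    refine ⟨hcls _ (hH z hz.1), ?_⟩
    by_cases h : 0 ≤ (W c l z).im <;> simp [h]
  · intro z w hz hw hTz hzw hcl
    simp only [cl, Prod.mk.injEq, eq_iff_iff] at hcl
    obtain ⟨hc1, hc2⟩ := hcl
    set r := ‖z‖ with hr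
    have hr1 : 1 ≤ r := hT1.trans hTz
    have hpow : 0 < (1 + r) ^ q := by positivity
    have hδ : M / (1 + r) ^ q ≤ 1 := by
      rw [div_le_one hpow]
      have h1' : 1 + r ≤ (1 + r) ^ q := le_self_pow₀ (by linarith) (by omega)
      have : 0 ≤ K * M / g ^ (2 * n) := by positivity
      linarith
    have n1 := hdist z hz hTz r hr1 le_rfl hTz
    have n2 := hdist w hw (hTz.trans hzw) r hr1 hzw hTz
    obtain ⟨s, hs0, hs1, hs2⟩ := hclass z w _ hδ n1 n2 hc1 hc2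
    rcases hgap (z.re - w.re) s (hs2 0 h0) (hs2 j hj) with h | h
    · exact Or.inl h
    · right
      set X := |z.re - w.re| with hX
      have hX0 : 0 ≤ X := abs_nonneg _
      -- g^(2n) ≤ (X+1)^(2nD) K M / (1+r)^q
      have e1 : g ^ (2 * n) ≤ ((X + 1) ^ D) ^ (2 * n) * (K * (M / (1 + r) ^ q)) := by
        calc g ^ (2 * n) ≤ ((X + 1) ^ D * s) ^ (2 * n) := pow_le_pow_left₀ hg.le h _
          _ = ((X + 1) ^ D) ^ (2 * n) * s ^ (2 * n) := mul_pow _ _ _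
          _ ≤ _ := mul_le_mul_of_nonneg_left hs1 (by positivity)
      have hgp : 0 < g ^ (2 * n) := by positivity
      have e2 : (1 + r) ^ q ≤ ((X + 1) ^ D) ^ (2 * n) * (K * M / g ^ (2 * n)) := by
        have : ((X + 1) ^ D) ^ (2 * n) * (K * (M / (1 + r) ^ q)) =
          (((X + 1) ^ D) ^ (2 * n) * (K * M)) / (1 + r) ^ q := by ring
        rw [this, le_div_iff₀ hpow] at e1
        rw [← mul_div_assoc, le_div_iff₀ hgp]
        linarith
      have e3 : (1 + r) ^ q ≤ ((X + 1) ^ D) ^ (2 * n) * (1 + r) := by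
        refine e2.trans (mul_le_mul_of_nonneg_left ?_ (by positivity))
        linarith
      have e4 : (1 + r) ^ (2 * n * (D + 1) * 3) ≤ ((X + 1) ^ D) ^ (2 * n) := by
        rw [hq, pow_succ] at e3
        exact le_of_mul_le_mul_right e3 (by linarith)
      have e5 : ((1 + r) ^ 3) ^ (2 * n * (D + 1)) ≤ (X + 1) ^ (2 * n * (D + 1)) := by
        calc ((1 + r) ^ 3) ^ (2 * n * (D + 1)) = (1 + r) ^ (2 * n * (D + 1) * 3) := by
              rw [← pow_mul]; congr 1; ring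
          _ ≤ ((X + 1) ^ D) ^ (2 * n) := e4
          _ = (X + 1) ^ (D * (2 * n)) := by rw [← pow_mul]
          _ ≤ (X + 1) ^ (2 * n * (D + 1)) := by
              refine pow_le_pow_right₀ (by linarith) ?_
              nlinarith
      have e6 : (1 + r) ^ 3 ≤ X + 1 := by
        refine le_of_not_gt (fun hlt => ?_)
        have hne : 2 * n * (D + 1) ≠ 0 := by positivity
        exact absurd e5 (not_le.2 (pow_lt_pow_left₀ hlt (by linarith) hne))
      have e7 : X ≤ r + ‖w‖ := by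
        have a1 := Complex.abs_re_le_norm z
        have a2 := Complex.abs_re_le_norm w
        have a3 : |z.re - w.re| ≤ |z.re| + |w.re| := abs_sub _ _
        rw [hX, hr]; linarith
      nlinarith [mul_nonneg (sq_nonneg r) (by linarith : 0 ≤ 1 + r + 1)]

end Pool.Agent.Helper77.EHR
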