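import Mathlib
import Pool.Agent.Helper77.EHR.Main

/-! MP_4f9849: commensurable frequencies, and the final theorem. -/

namespace Pool.Agent.Helper77.EHR

open Filter Topology

lemma F_analytic (c : Fin 4 → ℂ) (l : Fin 4 → ℝ) (z : ℂ) : AnalyticAt ℂ (F c l) z := by
  unfold F u
  fun_prop

lemma finite_zeros (f : ℂ → ℂ) (hf : ∀ z, AnalyticAt ℂ f z) (hne : ∃ z, f z ≠ 0) (r : ℝ) :
    {z | f z = 0 ∧ ‖z‖ ≤ r}.Finite := by
  by_contra hinf
  have hinf' : {z | f z = 0 ∧ ‖z‖ ≤ r}.Infinite := hinf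
  obtain ⟨x, _, hx⟩ := hinf'.exists_accPt_of_subset_isCompact (isCompact_closedBall (0 : ℂ) r)
    (fun z hz => by simpa using hz.2)
  rw [accPt_iff_frequently_nhdsNE] at hx
  have h1 : ∃ᶠ z in 𝓝[≠] x, f z = 0 := hx.mono (fun z hz => hz.1)
  have h2 := (hf x).frequently_zero_iff_eventually_zero.1 h1
  have h3 : AnalyticOnNhd ℂ f Set.univ := fun z _ => hf z
  obtain ⟨y, hy⟩ := hne
  exact hy (h3.eqOn_zero_of_preconnected_of_eventuallyEq_zero isPreconnected_univ
    (Set.mem_univ x) h2 (Set.mem_univ y))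

lemma finite_sep (Z : Set ℂ) (hZ : Z.Finite) :
    ∃ s : ℝ, 0 < s ∧ ∀ a ∈ Z, ∀ b ∈ Z, a ≠ b → s ≤ ‖a - b‖ := by
  classical
  let P := hZ.toFinset.offDiag
  by_cases hP : P.Nonempty
  · obtain ⟨p, hp, hmin⟩ := P.exists_min_image (fun p => ‖p.1 - p.2‖) hP
    refine ⟨‖p.1 - p.2‖, ?_, fun a ha b hb hab => hmin (a, b) ?_⟩
    · rw [Finset.mem_offDiag] at hp
      exact norm_pos_iff.2 (sub_ne_zero.2 hp.2.2)
    · rw [Finset.mem_offDiag]
      exact ⟨by simpa using ha, by simpa using hb, hab⟩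
  · refine ⟨1, one_pos, fun a ha b hb hab => absurd ⟨(a, b), ?_⟩ hP⟩
    rw [Finset.mem_offDiag]
    exact ⟨by simpa using ha, by simpa using hb, hab⟩

lemma concl_rat (c : Fin 4 → ℂ) (l : Fin 4 → ℝ) (hl : Function.Injective l) (h0 : c 0 ≠ 0)
    (hrat : ∀ j, c j ≠ 0 → ∃ r : ℚ, l j - l 1 = r * (l 0 - l 1)) : Concl c l := by
  classical
  obtain ⟨H, hH0, hH⟩ := strip c l hl ⟨0, h0⟩
  have hμ : l 0 - l 1 ≠ 0 := fun h => absurd (hl (sub_eq_zero.1 h)) (by decide)
  have hr' : ∀ j, ∃ r : ℚ, c j ≠ 0 → l j - l 1 = r * (l 0 - l 1) := by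
    intro j
    by_cases hj : c j = 0
    · exact ⟨0, fun h => absurd hj h⟩
    · obtain ⟨r, hr⟩ := hrat j hj
      exact ⟨r, fun _ => hr⟩
  choose r hr using hr'
  set Q : ℕ := ∏ j, (r j).den with hQ
  have hQpos : 0 < Q := Finset.prod_pos (fun j _ => (r j).pos)
  set P : ℝ := 2 * Real.pi * Q / (l 0 - l 1) with hP
  have hPne : P ≠ 0 := by
    rw [hP]; have := Real.pi_pos; positivity
  have hper : ∀ j, c j ≠ 0 → ∃ N : ℤ, (l j - l 1) * P = 2 * Real.pi * N := by
    intro j hj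
    obtain ⟨k, hk⟩ : (r j).den ∣ Q := Finset.dvd_prod_of_mem _ (Finset.mem_univ j)
    refine ⟨(r j).num * k, ?_⟩
    rw [hr j hj, hP, hk]
    have h1 : ((r j : ℚ) : ℝ) * ((r j).den : ℝ) = ((r j).num : ℝ) := by
      exact_mod_cast Rat.mul_den_eq_num (r j)
    push_cast
    rw [← h1]
    field_simp
  have hshift : ∀ (n : ℤ) (z : ℂ), F c l z = 0 → F c l (z + ((n * P : ℝ) : ℂ)) = 0 := by
    intro n z hz
    have h1 : ∀ j, u c l j (z + ((n * P : ℝ) : ℂ)) =
        Complex.exp (Complex.I * (l 1 : ℂ) * ((n * P : ℝ) : ℂ)) * u c l j z := by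
      intro j
      by_cases hj : c j = 0
      · simp [u, hj]
      · obtain ⟨N, hN⟩ := hper j hj
        unfold u
        have h2 : Complex.I * (l j : ℂ) * (z + ((n * P : ℝ) : ℂ)) =
            (Complex.I * (l 1 : ℂ) * ((n * P : ℝ) : ℂ) + Complex.I * (l j : ℂ) * z)
              + ((n * N : ℤ) : ℂ) * (2 * Real.pi * Complex.I) := by
          have h3 : ((l j - l 1 : ℝ) : ℂ) * (P : ℂ) = 2 * Real.pi * N := by exact_mod_cast hN
          push_cast at h3 ⊢
          linear_combination (Complex.I * n) * h3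
        rw [h2, Complex.exp_periodic.int_mul (n * N), Complex.exp_add]
        ring
    unfold F at hz ⊢
    rw [Finset.sum_congr rfl (fun j _ => h1 j), ← Finset.mul_sum, hz, mul_zero]
  have hne : ∃ z, F c l z ≠ 0 := by
    refine ⟨((H + 1 : ℝ) : ℂ) * Complex.I, fun h => ?_⟩
    have := hH _ h
    have h2 : (((H + 1 : ℝ) : ℂ) * Complex.I).im = H + 1 := by simp
    rw [h2, abs_of_nonneg (by linarith)] at this
    linarith
  obtain ⟨s, hs, hsep⟩ := finite_sep _ (finite_zeros (F c l) (F_analytic c l) hne (|P| + 1 + H))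
  have hbad : ∀ z, Bad c l 1 z → ‖z‖ < 1 / min s 1 := by
    rintro z ⟨hz, w, hwz, hw, hd⟩
    have hm : 0 < min s 1 := lt_min hs one_pos
    have hz1 : 0 ≤ ‖z‖ := norm_nonneg z
    rw [pow_one] at hd
    have hdz : ‖z - w‖ ≤ 1 := by
      by_contra hcon
      rw [not_le] at hcon
      nlinarith
    set n : ℤ := -⌊z.re / P⌋ with hn
    have hz' := hshift n z hz
    have hw' := hshift n w hw
    set z' := z + ((n * P : ℝ) : ℂ) with hz'd
    set w' := w + ((n * P : ℝ) : ℂ) with hw'd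
    have hre : |z'.re| ≤ |P| := by
      have h1 : z'.re = P * Int.fract (z.re / P) := by
        rw [hz'd, hn, Int.fract]
        simp only [Complex.add_re, Complex.ofReal_re]
        push_cast
        field_simp
        ring
      rw [h1, abs_mul, abs_of_nonneg (Int.fract_nonneg (z.re / P))]
      have := (Int.fract_lt_one (z.re / P)).le
      nlinarith [abs_nonneg P]
    have him := hH _ hz'
    have hnz : ‖z'‖ ≤ |P| + H := by
      have := Complex.norm_le_abs_re_add_abs_im z'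
      linarith
    have hzw : z' - w' = z - w := by rw [hz'd, hw'd]; ring
    have hnw : ‖w'‖ ≤ |P| + 1 + H := by
      have : w' = z' - (z' - w') := by ring
      rw [this, hzw]
      exact (norm_sub_le _ _).trans (by linarith)
    have hsz := hsep z' ⟨hz', by linarith⟩ w' ⟨hw', hnw⟩ (by
      intro h
      apply hwz
      have : z - w = 0 := by rw [← hzw, h, sub_self]
      exact (sub_eq_zero.1 this).symm)
    rw [hzw] at hsz
    have hsm : min s 1 ≤ ‖z - w‖ := (min_le_left _ _).trans hsz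
    rw [lt_div_iff₀ hm]
    nlinarith [norm_nonneg (z - w)]
  refine ⟨1, count (Bad c l 1) H ({0} : Finset ℕ) (fun _ => 0) (1 / min s 1)
    (fun z hz => hH z hz.1) (fun _ _ => by simp) ?_⟩
  intro z w hz _ hT _ _
  exact absurd (hbad z hz) (not_lt.2 hT)

lemma concl_empty (c : Fin 4 → ℂ) (l : Fin 4 → ℝ) (h : ∀ z, F c l z ≠ 0) : Concl c l := by
  refine ⟨0, 0, fun R _ => ?_⟩
  have : {k : ℤ | |(k : ℝ)| ≤ R ∧ ∃ z, Bad c l 0 z ∧ (k : ℝ) ≤ z.re ∧ z.re < k + 1} = ∅ := by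
    rw [Set.eq_empty_iff_forall_notMem]
    rintro k ⟨_, z, hz, _⟩
    exact h z hz.1
  rw [this]; simp

lemma concl01 (c : Fin 4 → ℂ) (l : Fin 4 → ℝ) (hl : Function.Injective l)
    (ha : ∀ j, IsAlgebraic ℚ (l j)) (h0 : c 0 ≠ 0) (h1 : c 1 ≠ 0) : Concl c l := by
  by_cases h : ∃ j, c j ≠ 0 ∧ Irrational ((l j - l 1) / (l 0 - l 1))
  · obtain ⟨j, hj, hirr⟩ := h
    exact concl_irr c l hl ha h0 h1 j hj hirr
  · refine concl_rat c l hl h0 (fun j hj => ?_)
    have h2 : ¬ Irrational ((l j - l 1) / (l 0 - l 1)) := fun h3 => h ⟨j, hj, h3⟩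
    rw [Irrational, not_not] at h2
    obtain ⟨r, hr⟩ := h2
    have hμ : l 0 - l 1 ≠ 0 := fun h => absurd (hl (sub_eq_zero.1 h)) (by decide)
    exact ⟨r, by rw [hr]; field_simp⟩

lemma perm_exists : ∀ i j : Fin 4, i ≠ j → ∃ σ : Equiv.Perm (Fin 4), σ 0 = i ∧ σ 1 = j := by
  decide

theorem concl (c : Fin 4 → ℂ) (l : Fin 4 → ℝ) (hl : Function.Injective l)
    (ha : ∀ j, IsAlgebraic ℚ (l j)) (hc : ∃ j, c j ≠ 0) : Concl c l := by
  obtain ⟨i, hi⟩ := hc
  by_cases h : ∃ j, i ≠ j ∧ c j ≠ 0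
  · obtain ⟨j, hij, hj⟩ := h
    obtain ⟨σ, hσ0, hσ1⟩ := perm_exists i j hij
    have hF : ∀ z, F (c ∘ σ) (l ∘ σ) z = F c l z := by
      intro z
      unfold F
      exact Equiv.sum_comp σ (fun j => u c l j z)
    have h1 := concl01 (c ∘ σ) (l ∘ σ) (hl.comp σ.injective) (fun j => ha _)
      (by simpa [hσ0] using hi) (by simpa [hσ1] using hj)
    obtain ⟨q, C, h2⟩ := h1
    refine ⟨q, C, fun R hR => ?_⟩
    have := h2 R hR
    simpa only [Bad, hF] using this
  · have hother : ∀ j, j ≠ i → c j = 0 := by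
      intro j hj
      by_contra hcj
      exact h ⟨j, fun h => hj h.symm, hcj⟩
    refine concl_empty c l (fun z hz => ?_)
    unfold F at hz
    rw [Finset.sum_eq_single i (fun j _ hj => by simp [u, hother j hj]) (by simp)] at hz
    have : u c l i z ≠ 0 := mul_ne_zero hi (Complex.exp_ne_zero _)
    exact this hz

end Pool.Agent.Helper77.EHR
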