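import Mathlib

/-! MP_4f9849: an exponential sum with `N` terms and real frequencies has fewer than `N` zeros in
small discs around points of a horizontal strip, so boundedly many zeros in unit cells. -/

namespace Pool.Agent.Helper77.EHR

open Filter Topology

/-- exponential sum over a finite type. -/
noncomputable def G {ι : Type*} [Fintype ι] (c : ι → ℂ) (l : ι → ℝ) (z : ℂ) : ℂ :=
  ∑ j, c j * Complex.exp (Complex.I * (l j : ℂ) * z)

lemma factor (f : ℂ → ℂ) (hf : Differentiable ℂ f) (S : Finset ℂ) (hS : ∀ a ∈ S, f a = 0) :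
    ∃ g : ℂ → ℂ, Differentiable ℂ g ∧ ∀ z, f z = (∏ a ∈ S, (z - a)) * g z := by
  classical
  induction S using Finset.induction_on with
  | empty => exact ⟨f, hf, fun z => by simp⟩
  | insert a S ha ih =>
    obtain ⟨g, hg, hfg⟩ := ih (fun b hb => hS b (Finset.mem_insert_of_mem hb))
    have hga : g a = 0 := by
      have h1 := hfg a
      rw [hS a (Finset.mem_insert_self _ _)] at h1
      have h2 : ∏ b ∈ S, (a - b) ≠ 0 := by
        rw [Finset.prod_ne_zero_iff]
        intro b hb h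
        rw [sub_eq_zero] at h
        exact ha (h ▸ hb)
      rcases mul_eq_zero.1 h1.symm with h | h
      · exact absurd h h2
      · exact h
    refine ⟨dslope g a, ?_, fun z => ?_⟩
    · rw [← differentiableOn_univ] at hg ⊢
      exact (Complex.differentiableOn_dslope univ_mem).2 hg
    · rw [hfg z, Finset.prod_insert ha]
      have h3 : (z - a) * dslope g a z = g z := by
        have := sub_smul_dslope g a z
        rw [smul_eq_mul, hga, sub_zero] at this
        exact this
      rw [← h3]; ring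

lemma small_of_zeros (f : ℂ → ℂ) (hf : Differentiable ℂ f) (z0 : ℂ) (ρ B : ℝ) (hρ : 0 < ρ)
    (hρ1 : ρ ≤ 1) (hB : ∀ z, ‖z - z0‖ ≤ 2 → ‖f z‖ ≤ B) (S : Finset ℂ)
    (hS : ∀ a ∈ S, f a = 0 ∧ ‖a - z0‖ ≤ ρ) (z : ℂ) (hz : ‖z - z0‖ ≤ ρ) :
    ‖f z‖ ≤ (2 * ρ) ^ S.card * B := by
  obtain ⟨g, hg, hfg⟩ := factor f hf S (fun a ha => (hS a ha).1)
  have hB0 : 0 ≤ B := (norm_nonneg _).trans (hB z0 (by simp))
  have h1 : ∀ w, ‖w - z0‖ = 1 + ρ → ‖g w‖ ≤ B := by
    intro w hw
    have h2 : 1 ≤ ‖∏ a ∈ S, (w - a)‖ := by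
      rw [norm_prod]
      calc (1 : ℝ) = ∏ _a ∈ S, (1 : ℝ) := by rw [Finset.prod_const_one]
        _ ≤ ∏ a ∈ S, ‖w - a‖ := by
          refine Finset.prod_le_prod (fun _ _ => zero_le_one) (fun a ha => ?_)
          have h3 := (hS a ha).2
          have h4 : ‖w - z0‖ ≤ ‖w - a‖ + ‖a - z0‖ := norm_sub_le_norm_sub_add_norm_sub _ _ _
          linarith
    have h5 := hB w (by linarith)
    rw [hfg w, norm_mul] at h5
    nlinarith [norm_nonneg (g w)]
  have h2 : ‖g z‖ ≤ B := by
    refine Complex.norm_le_of_forall_mem_frontier_norm_le (U := Metric.ball z0 (1 + ρ))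
      Metric.isBounded_ball hg.diffContOnCl ?_ (subset_closure ?_)
    · intro w hw
      rw [frontier_ball z0 (by linarith)] at hw
      exact h1 w (by rw [← dist_eq_norm]; exact hw)
    · rw [Metric.mem_ball, dist_eq_norm]; linarith
  rw [hfg z, norm_mul, norm_prod]
  refine mul_le_mul ?_ h2 (norm_nonneg _) (by positivity)
  calc ∏ a ∈ S, ‖z - a‖ ≤ ∏ _a ∈ S, (2 * ρ) := by
        refine Finset.prod_le_prod (fun a _ => norm_nonneg _) (fun a ha => ?_)
        have h3 := (hS a ha).2
        have h4 : ‖z - a‖ ≤ ‖z - z0‖ + ‖z0 - a‖ := norm_sub_le_norm_sub_add_norm_sub _ _ _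
        rw [norm_sub_rev z0 a] at h4
        linarith
    _ = (2 * ρ) ^ S.card := by rw [Finset.prod_const]

section
variable {ι : Type*} [Fintype ι] (c : ι → ℂ) (l : ι → ℝ)

lemma G_diff : Differentiable ℂ (G c l) := by
  unfold G
  fun_prop

lemma iter_G (n : ℕ) (z : ℂ) : iteratedDeriv n (G c l) z =
    ∑ j, (Complex.I * (l j : ℂ)) ^ n * (c j * Complex.exp (Complex.I * (l j : ℂ) * z)) := by
  unfold G
  rw [iteratedDeriv_fun_sum]
  · refine Finset.sum_congr rfl (fun j _ => ?_)
    rw [iteratedDeriv_const_mul_field, iteratedDeriv_cexp_const_mul]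
    ring
  · intro j _
    fun_prop

omit [Fintype ι] in
lemma norm_term (j : ι) (z : ℂ) :
    ‖c j * Complex.exp (Complex.I * (l j : ℂ) * z)‖ = ‖c j‖ * Real.exp (-(l j * z.im)) := by
  rw [norm_mul, Complex.norm_exp]
  congr 2
  simp

/-- fewer than `N` zeros in small discs. -/
theorem zeros_local [DecidableEq ι] (hl : Function.Injective l) (hc : ∃ j, c j ≠ 0) (H : ℝ) :
    ∃ ρ : ℝ, 0 < ρ ∧ ρ ≤ 1 ∧ ∀ z0 : ℂ, |z0.im| ≤ H → ∀ S : Finset ℂ,
      (∀ a ∈ S, G c l a = 0 ∧ ‖a - z0‖ ≤ ρ) → S.card < Fintype.card ι := by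
  classical
  obtain ⟨j0, hj0⟩ := hc
  set N := Fintype.card ι with hN
  have hNpos : 0 < N := Fintype.card_pos_iff.2 ⟨j0⟩
  -- interpolation polynomial
  let x : ι → ℂ := fun j => Complex.I * (l j : ℂ)
  have hx : Set.InjOn x (Finset.univ : Finset ι) := by
    intro a _ b _ h
    have h1 : (l a : ℂ) = (l b : ℂ) := mul_left_cancel₀ Complex.I_ne_zero h
    exact hl (by exact_mod_cast h1)
  let p : Polynomial ℂ := Lagrange.basis Finset.univ x j0
  have hp0 : p.eval (x j0) = 1 := Lagrange.eval_basis_self hx (Finset.mem_univ _)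
  have hp1 : ∀ j, j ≠ j0 → p.eval (x j) = 0 := fun j hj =>
    Lagrange.eval_basis_of_ne (fun h => hj h.symm) (Finset.mem_univ _)
  have hdeg : p.natDegree < N := by
    have h1 := Lagrange.degree_basis hx (Finset.mem_univ j0)
    have h2 : p.natDegree = N - 1 := by
      have : p.degree = ((N - 1 : ℕ) : WithBot ℕ) := by
        rw [h1]; rfl
      exact Polynomial.natDegree_eq_of_degree_eq_some this
    omega
  set PP : ℝ := ∑ n ∈ Finset.range N, ‖p.coeff n‖ with hPP
  have hPP0 : 0 ≤ PP := Finset.sum_nonneg (fun _ _ => norm_nonneg _)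
  -- bounds
  set B : ℝ := ∑ j, ‖c j‖ * Real.exp (|l j| * (|H| + 2)) with hB
  have hB0 : 0 ≤ B := Finset.sum_nonneg (fun _ _ => by positivity)
  set m : ℝ := ‖c j0‖ * Real.exp (-(|l j0| * |H|)) with hm
  have hmpos : 0 < m := by
    have := norm_pos_iff.2 hj0
    positivity
  set K : ℝ := PP * (N.factorial * (2 ^ N * B)) + m with hK
  have hKpos : 0 < K := by positivity
  refine ⟨min 1 (m / (2 * K)), by positivity, min_le_left _ _, fun z0 hz0 S hS => ?_⟩
  set ρ := min 1 (m / (2 * K)) with hρ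
  have hρpos : 0 < ρ := by positivity
  have hρ1 : ρ ≤ 1 := min_le_left _ _
  have hρ2 : ρ ≤ m / (2 * K) := min_le_right _ _
  by_contra hcard
  rw [not_lt] at hcard
  have hBz : ∀ z, ‖z - z0‖ ≤ 2 → ‖G c l z‖ ≤ B := by
    intro z hz
    unfold G
    refine (norm_sum_le _ _).trans (Finset.sum_le_sum (fun j _ => ?_))
    rw [norm_term]
    refine mul_le_mul_of_nonneg_left (Real.exp_le_exp.2 ?_) (norm_nonneg _)
    have h1 : |z.im| ≤ |H| + 2 := by
      have h2 : |(z - z0).im| ≤ 2 := (Complex.abs_im_le_norm _).trans hz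
      rw [Complex.sub_im] at h2
      have h3 : |z.im| ≤ |z.im - z0.im| + |z0.im| := by
        have := abs_add_le (z.im - z0.im) z0.im
        simpa using this
      have h4 := le_abs_self H
      linarith
    calc -(l j * z.im) ≤ |l j * z.im| := neg_le_abs _
      _ = |l j| * |z.im| := abs_mul _ _
      _ ≤ _ := mul_le_mul_of_nonneg_left h1 (abs_nonneg _)
  have hsm : ∀ z ∈ Metric.sphere z0 ρ, ‖G c l z‖ ≤ (2 * ρ) ^ S.card * B := by
    intro z hz
    refine small_of_zeros (G c l) (G_diff c l) z0 ρ B hρpos hρ1 hBz S hS z ?_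
    rw [← dist_eq_norm]; exact (Metric.mem_sphere.1 hz).le
  have hcoef : ∀ n ∈ Finset.range N, ‖iteratedDeriv n (G c l) z0‖ ≤
      N.factorial * (2 ^ N * B) * ρ := by
    intro n hn
    rw [Finset.mem_range] at hn
    have h1 := Complex.norm_iteratedDeriv_le_of_forall_mem_sphere_norm_le n hρpos
      (G_diff c l).diffContOnCl hsm
    refine h1.trans ?_
    rw [div_le_iff₀ (by positivity)]
    have h2 : (2 * ρ) ^ S.card ≤ 2 ^ N * ρ ^ (n + 1) := by
      have h3 : (2 * ρ) ^ N ≤ 2 ^ N * ρ ^ (n + 1) := by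
        rw [mul_pow]
        exact mul_le_mul_of_nonneg_left (pow_le_pow_of_le_one hρpos.le hρ1 (by omega)) (by positivity)
      have h4 : 2 * ρ ≤ 1 := by
        have h5 : m / (2 * K) ≤ 1 / 2 := by
          rw [div_le_iff₀ (by positivity)]
          have : 0 ≤ PP * (N.factorial * (2 ^ N * B)) := by positivity
          linarith
        linarith
      exact (pow_le_pow_of_le_one (by positivity) h4 hcard).trans h3
    have h3 : (n.factorial : ℝ) ≤ N.factorial := by exact_mod_cast Nat.factorial_le hn.le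
    calc (n.factorial : ℝ) * ((2 * ρ) ^ S.card * B) ≤ N.factorial * ((2 ^ N * ρ ^ (n + 1)) * B) := by
          gcongr
      _ = _ := by rw [pow_succ]; ring
  have hkey : c j0 * Complex.exp (Complex.I * (l j0 : ℂ) * z0) =
      ∑ n ∈ Finset.range N, p.coeff n * iteratedDeriv n (G c l) z0 := by
    have h1 : ∑ n ∈ Finset.range N, p.coeff n * iteratedDeriv n (G c l) z0 =
        ∑ j, p.eval (x j) * (c j * Complex.exp (Complex.I * (l j : ℂ) * z0)) := by
      simp_rw [iter_G, Finset.mul_sum]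
      rw [Finset.sum_comm]
      refine Finset.sum_congr rfl (fun j _ => ?_)
      rw [Polynomial.eval_eq_sum_range' hdeg, Finset.sum_mul]
      refine Finset.sum_congr rfl (fun n _ => ?_)
      ring
    rw [h1, Finset.sum_eq_single j0 (fun j _ hj => by rw [hp1 j hj, zero_mul]) (by simp), hp0,
      one_mul]
  have hlow : m ≤ ‖c j0 * Complex.exp (Complex.I * (l j0 : ℂ) * z0)‖ := by
    rw [norm_term]
    refine mul_le_mul_of_nonneg_left (Real.exp_le_exp.2 ?_) (norm_nonneg _)
    have h1 : l j0 * z0.im ≤ |l j0| * |H| := by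
      calc l j0 * z0.im ≤ |l j0 * z0.im| := le_abs_self _
        _ = |l j0| * |z0.im| := abs_mul _ _
        _ ≤ |l j0| * |H| := mul_le_mul_of_nonneg_left (hz0.trans (le_abs_self _)) (abs_nonneg _)
    linarith
  have hup : ‖c j0 * Complex.exp (Complex.I * (l j0 : ℂ) * z0)‖ ≤
      PP * (N.factorial * (2 ^ N * B) * ρ) := by
    rw [hkey]
    refine (norm_sum_le _ _).trans ?_
    rw [hPP, Finset.sum_mul]
    refine Finset.sum_le_sum (fun n hn => ?_)
    rw [norm_mul]
    exact mul_le_mul_of_nonneg_left (hcoef n hn) (norm_nonneg _)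
  have h1 : m ≤ (K - m) * ρ := by
    calc m ≤ _ := hlow
      _ ≤ _ := hup
      _ = (K - m) * ρ := by rw [hK]; ring
  have h2 : K * ρ ≤ m / 2 := by
    calc K * ρ ≤ K * (m / (2 * K)) := mul_le_mul_of_nonneg_left hρ2 hKpos.le
      _ = m / 2 := by field_simp
  nlinarith [mul_pos hmpos hρpos]

/-- boundedly many zeros in unit cells. -/
theorem zeros_cell (hl : Function.Injective l) (hc : ∃ j, c j ≠ 0) (H : ℝ) :
    ∃ Z : ℕ, ∀ (k : ℤ) (S : Finset ℂ),
      (∀ a ∈ S, G c l a = 0 ∧ |a.im| ≤ H ∧ (k : ℝ) ≤ a.re ∧ a.re < k + 1) → S.card ≤ Z := by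
  classical
  obtain ⟨ρ, hρ, _, hloc⟩ := zeros_local c l hl hc H
  let Kset : Set ℂ := {a | 0 ≤ a.re ∧ a.re ≤ 1 ∧ |a.im| ≤ H}
  have hK : IsCompact Kset := by
    refine Metric.isCompact_of_isClosed_isBounded ?_ ?_
    · have e : Kset = {a | 0 ≤ a.re} ∩ ({a | a.re ≤ 1} ∩ {a | |a.im| ≤ H}) := by
        ext a; simp [Kset]
      rw [e]
      refine (isClosed_le continuous_const Complex.continuous_re).inter
        ((isClosed_le Complex.continuous_re continuous_const).inter
        (isClosed_le Complex.continuous_im.abs continuous_const))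
    · refine (Metric.isBounded_closedBall (x := (0 : ℂ)) (r := 1 + |H|)).subset (fun a ha => ?_)
      rw [Metric.mem_closedBall, dist_zero_right]
      have h1 := Complex.norm_le_abs_re_add_abs_im a
      have h2 : |a.re| ≤ 1 := by rw [abs_le]; constructor <;> linarith [ha.1, ha.2.1]
      have h3 := ha.2.2.trans (le_abs_self H)
      linarith
  obtain ⟨t, ht1, ht2⟩ := hK.elim_nhds_subcover (fun a => Metric.ball a ρ)
    (fun a _ => Metric.ball_mem_nhds a hρ)
  refine ⟨t.card * Fintype.card ι, fun k S hS => ?_⟩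
  have hcov : S ⊆ t.biUnion (fun b => S.filter (fun a => ‖a - (b + k)‖ ≤ ρ)) := by
    intro a ha
    obtain ⟨_, h1, h2, h3⟩ := hS a ha
    have h4 : a - k ∈ Kset := by
      refine ⟨?_, ?_, ?_⟩
      · simp; linarith
      · simp; linarith
      · simpa using h1
    have h5 := ht2 h4
    simp only [Set.mem_iUnion] at h5
    obtain ⟨b, hb, h6⟩ := h5
    rw [Finset.mem_biUnion]
    refine ⟨b, hb, ?_⟩
    rw [Finset.mem_filter]
    refine ⟨ha, ?_⟩
    rw [Metric.mem_ball, dist_eq_norm] at h6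
    have : a - (b + k) = a - k - b := by ring
    rw [this]; exact h6.le
  calc S.card ≤ _ := Finset.card_le_card hcov
    _ ≤ ∑ b ∈ t, (S.filter (fun a => ‖a - (b + k)‖ ≤ ρ)).card := Finset.card_biUnion_le
    _ ≤ ∑ _b ∈ t, Fintype.card ι := by
        refine Finset.sum_le_sum (fun b hb => ?_)
        refine (hloc (b + k) ?_ _ (fun a ha => ?_)).le
        · have := (ht1 b hb).2.2
          simpa using this
        · rw [Finset.mem_filter] at ha
          exact ⟨(hS a ha.1).1, ha.2⟩
    _ = t.card * Fintype.card ι := by rw [Finset.sum_const, smul_eq_mul]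

end

end Pool.Agent.Helper77.EHR
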