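import Mathlib
import Pool.Agent.Helper77.EHR.Rank1
import Pool.Agent.Helper77.EHR.Zeros

/-! MP_4f9849: the four-term theorem with zeros counted. -/

namespace Pool.Agent.Helper77.EHR

open Filter Topology

theorem four_terms (c : Fin 4 → ℂ) (l : Fin 4 → ℝ) (hc : ∃ j, c j ≠ 0)
    (hl : Function.Injective l) (ha : ∀ j, IsAlgebraic ℚ (l j)) :
    ∃ (q : ℕ) (C : ℝ), ∀ R : ℝ, 3 ≤ R →
      {z | ‖z‖ ≤ R ∧ Bad c l q z}.Finite ∧
      ({z | ‖z‖ ≤ R ∧ Bad c l q z}.ncard : ℝ) ≤ C * Real.log (Real.log R) := by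
  classical
  obtain ⟨q, C, hC⟩ := concl c l hl ha hc
  obtain ⟨H, hH0, hH⟩ := strip c l hl hc
  obtain ⟨Z, hZ⟩ := zeros_cell c l hl hc H
  have hFG : ∀ z, G c l z = F c l z := fun z => rfl
  have hne : ∃ z, F c l z ≠ 0 := by
    refine ⟨((H + 1 : ℝ) : ℂ) * Complex.I, fun h => ?_⟩
    have := hH _ h
    have h2 : (((H + 1 : ℝ) : ℂ) * Complex.I).im = H + 1 := by simp
    rw [h2, abs_of_nonneg (by linarith)] at this
    linarith
  set L3 := Real.log (Real.log 3) with hL3
  have hL3p : 0 < L3 := loglog3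
  refine ⟨q, Z * (max C 0 * (Real.log 2 / L3 + 1)), fun R hR => ?_⟩
  have hfin : {z | ‖z‖ ≤ R ∧ Bad c l q z}.Finite :=
    (finite_zeros (F c l) (F_analytic c l) hne R).subset (fun z hz => ⟨hz.2.1, hz.1⟩)
  refine ⟨hfin, ?_⟩
  set S := hfin.toFinset with hS
  have hmem : ∀ z, z ∈ S ↔ ‖z‖ ≤ R ∧ Bad c l q z := fun z => by simp [hS]
  rw [Set.ncard_eq_toFinset_card _ hfin]
  set KK : Set ℤ := {k : ℤ | |(k : ℝ)| ≤ R + 1 ∧ ∃ z, Bad c l q z ∧ (k : ℝ) ≤ z.re ∧ z.re < k + 1}
    with hKK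
  have hKfin : KK.Finite := by
    refine (Finset.finite_toSet (Finset.Icc (-(⌈R + 1⌉)) ⌈R + 1⌉)).subset (fun k hk => ?_)
    have h1 := hk.1
    have h2 : |(k : ℝ)| ≤ (⌈R + 1⌉ : ℝ) := h1.trans (Int.le_ceil _)
    rw [abs_le] at h2
    simp only [Finset.coe_Icc, Set.mem_Icc]
    constructor
    · have := h2.1; exact_mod_cast this
    · have := h2.2; exact_mod_cast this
  have himg : S.image (fun z => ⌊z.re⌋) ⊆ hKfin.toFinset := by
    intro k hk
    rw [Finset.mem_image] at hk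
    obtain ⟨z, hz, rfl⟩ := hk
    rw [hmem] at hz
    rw [Set.Finite.mem_toFinset]
    refine ⟨?_, z, hz.2, Int.floor_le _, Int.lt_floor_add_one _⟩
    have h1 := (Complex.abs_re_le_norm z).trans hz.1
    have h2 := Int.floor_le z.re
    have h3 := Int.lt_floor_add_one z.re
    rw [abs_le] at h1 ⊢
    constructor <;> linarith
  have hcard : S.card ≤ Z * KK.ncard := by
    have h1 : S.card ≤ Z * (S.image (fun z => ⌊z.re⌋)).card := by
      refine Finset.card_le_mul_card_image S Z (fun k _ => ?_)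
      refine hZ k _ (fun a ha => ?_)
      rw [Finset.mem_filter, hmem] at ha
      obtain ⟨⟨_, h2⟩, h3⟩ := ha
      refine ⟨h2.1, hH _ h2.1, ?_, ?_⟩
      · rw [← h3]; exact Int.floor_le _
      · rw [← h3]; exact Int.lt_floor_add_one _
    refine h1.trans (Nat.mul_le_mul_left Z ?_)
    rw [Set.ncard_eq_toFinset_card _ hKfin]
    exact Finset.card_le_card himg
  have h1 := hC (R + 1) (by linarith)
  have hlogR : Real.log 3 ≤ Real.log R := Real.log_le_log (by norm_num) hR
  have hl3 : 1 < Real.log 3 := by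
    rw [Real.lt_log_iff_exp_lt (by norm_num)]; exact Real.exp_one_lt_three
  have hll : L3 ≤ Real.log (Real.log R) := Real.log_le_log (by linarith) hlogR
  set LL := Real.log (Real.log R) with hLL
  have h2 : Real.log (Real.log (R + 1)) ≤ Real.log 2 + LL := by
    have h3 : R + 1 ≤ R ^ 2 := by nlinarith
    have h4 : Real.log (R + 1) ≤ 2 * Real.log R := by
      have := Real.log_le_log (by linarith) h3
      rw [Real.log_pow] at this
      exact_mod_cast this
    have h5 : 0 < Real.log (R + 1) := Real.log_pos (by linarith)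
    have h6 := Real.log_le_log h5 h4
    rwa [Real.log_mul (by norm_num) (by linarith)] at h6
  have h3 : 0 ≤ Real.log (Real.log (R + 1)) := by
    apply Real.log_nonneg
    have := Real.log_le_log (by linarith : (0 : ℝ) < R) (by linarith : R ≤ R + 1)
    linarith
  have h4 : Real.log (Real.log (R + 1)) ≤ (Real.log 2 / L3 + 1) * LL := by
    have h5 : Real.log 2 ≤ Real.log 2 / L3 * LL := by
      rw [div_mul_eq_mul_div, le_div_iff₀ hL3p]
      exact mul_le_mul_of_nonneg_left hll (Real.log_nonneg (by norm_num))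
    calc _ ≤ _ := h2
      _ ≤ Real.log 2 / L3 * LL + LL := by linarith
      _ = _ := by ring
  have h5 : (KK.ncard : ℝ) ≤ max C 0 * ((Real.log 2 / L3 + 1) * LL) := by
    calc (KK.ncard : ℝ) ≤ C * Real.log (Real.log (R + 1)) := h1
      _ ≤ max C 0 * Real.log (Real.log (R + 1)) := mul_le_mul_of_nonneg_right (le_max_left _ _) h3
      _ ≤ _ := mul_le_mul_of_nonneg_left h4 (le_max_right _ _)
  calc (S.card : ℝ) ≤ (Z : ℝ) * KK.ncard := by exact_mod_cast hcard
    _ ≤ Z * (max C 0 * ((Real.log 2 / L3 + 1) * LL)) := mul_le_mul_of_nonneg_left h5 (by positivity)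
    _ = _ := by ring

end Pool.Agent.Helper77.EHR
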