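import Mathlib

/-! Liouville's inequality for a linear form in real algebraic numbers. -/

set_option autoImplicit false

namespace Pool.Agent.Helper77.EHR

open Finset NumberField

theorem one_le_norm {K : Type*} [Field K] [NumberField K] (a : 𝓞 K) (h : a ≠ 0) :
    (1 : ℝ) ≤ |((Algebra.norm ℚ (a : K) : ℚ) : ℝ)| := by
  rw [← Algebra.coe_norm_int]
  have h3 := Int.one_le_abs (Algebra.norm_ne_zero_iff.mpr h)
  exact_mod_cast h3

theorem liou (n : ℕ) (ρ : Fin n → ℝ) (halg : ∀ j, IsAlgebraic ℚ (ρ j))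
    (hind : ∀ (h : Fin n → ℤ) (m : ℤ), (∑ j, (h j : ℝ) * ρ j) = m → h = 0) :
    ∃ (D : ℕ) (c : ℝ), 0 < c ∧ ∀ (H : ℕ) (h : Fin n → ℤ) (m : ℤ), 1 ≤ H →
      (∀ j, |h j| ≤ H) → h ≠ 0 → c / (H : ℝ) ^ D ≤ |(∑ j, (h j : ℝ) * ρ j) - m| := by
  classical
  let K : IntermediateField ℚ ℝ := IntermediateField.adjoin ℚ (Set.range ρ)
  have hfd : FiniteDimensional ℚ K := by
    refine IntermediateField.finiteDimensional_adjoin ?_
    rintro x ⟨j, rfl⟩
    exact isAlgebraic_iff_isIntegral.1 (halg j)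
  have hnf : NumberField K := { to_charZero := inferInstance, to_finiteDimensional := hfd }
  let r : Fin n → K := fun j => ⟨ρ j, IntermediateField.subset_adjoin ℚ _ ⟨j, rfl⟩⟩
  have hr : ∀ j, ((r j : K) : ℝ) = ρ j := fun j => rfl
  have hai : Algebra.IsAlgebraic ℤ K :=
    (IsFractionRing.comap_isAlgebraic_iff (A := ℤ) (K := ℚ) (C := K)).2 inferInstance
  obtain ⟨d, hd0, hd⟩ := Algebra.IsAlgebraic.exists_integral_multiples ℤ (univ.image r)
  have hd' : ∀ j, IsIntegral ℤ ((d : K) * r j) := by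
    intro j
    have := hd (r j) (mem_image_of_mem r (mem_univ j))
    rwa [zsmul_eq_mul] at this
  set σ : K →+* ℂ := (algebraMap ℝ ℂ).comp (algebraMap K ℝ) with hσ
  set D : ℕ := Module.finrank ℚ K - 1 with hD
  set S : ℝ := ∑ j, |ρ j| with hS
  set T : ℝ := ∑ j, house ((d : K) * r j) with hT
  have hS0 : 0 ≤ S := sum_nonneg fun j _ => abs_nonneg _
  have hT0 : 0 ≤ T := sum_nonneg fun j _ => house_nonneg _
  have hd1 : (1 : ℝ) ≤ |(d : ℝ)| := by
    have : (1 : ℤ) ≤ |d| := Int.one_le_abs hd0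
    exact_mod_cast this
  set E : ℝ := T + |(d : ℝ)| * (1 + S) with hE
  have hE1 : 1 ≤ E := by nlinarith
  refine ⟨D, 1 / (|(d : ℝ)| * E ^ D), by positivity, ?_⟩
  intro H h m hH hh h0
  have hHr : (1 : ℝ) ≤ H := by exact_mod_cast hH
  have hED : (1 : ℝ) ≤ E ^ D := one_le_pow₀ hE1
  have hHD : (1 : ℝ) ≤ (H : ℝ) ^ D := one_le_pow₀ hHr
  have hhr : ∀ j, |((h j : ℤ) : ℝ)| ≤ H := fun j => by exact_mod_cast hh j
  by_cases hbig : 1 ≤ |(∑ j, (h j : ℝ) * ρ j) - m|
  · refine le_trans ?_ hbig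
    rw [div_div, div_le_one (by positivity)]
    have : 1 ≤ |(d : ℝ)| * E ^ D := one_le_mul_of_one_le_of_one_le hd1 hED
    exact one_le_mul_of_one_le_of_one_le this hHD
  · push Not at hbig
    set α : K := (∑ j, (h j : K) * ((d : K) * r j)) - (m : K) * (d : K) with hα
    have hαr : ((α : K) : ℝ) = (d : ℝ) * ((∑ j, (h j : ℝ) * ρ j) - m) := by
      rw [hα]
      push_cast
      rw [mul_sub, mul_sum]
      congr 1
      · refine sum_congr rfl fun j _ => ?_
        rw [hr]
        ring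
      · ring
    have hαint : IsIntegral ℤ α := by
      refine IsIntegral.sub (IsIntegral.sum _ fun j _ => ?_) ?_
      · exact IsIntegral.mul (by simpa using (isIntegral_algebraMap (R := ℤ) (A := K) (x := h j))) (hd' j)
      · exact IsIntegral.mul (by simpa using (isIntegral_algebraMap (R := ℤ) (A := K) (x := m)))
          (by simpa using (isIntegral_algebraMap (R := ℤ) (A := K) (x := d)))
    have hα0 : α ≠ 0 := by
      intro h1
      have h2 : ((α : K) : ℝ) = 0 := by rw [h1]; rfl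
      rw [hαr] at h2
      rcases mul_eq_zero.1 h2 with h3 | h3
      · exact hd0 (by exact_mod_cast h3)
      · exact h0 (hind h m (sub_eq_zero.1 h3))
    have hnorm : (1 : ℝ) ≤ |((Algebra.norm ℚ α : ℚ) : ℝ)| := by
      have h1 : (⟨α, hαint⟩ : 𝓞 K) ≠ 0 := by
        intro h2
        exact hα0 (congrArg (fun x : 𝓞 K => (x : K)) h2)
      exact one_le_norm (⟨α, hαint⟩ : 𝓞 K) h1
    have hm : |(m : ℝ)| ≤ 1 + H * S := by
      have h1 : |∑ j, (h j : ℝ) * ρ j| ≤ H * S := by
        refine (abs_sum_le_sum_abs _ _).trans ?_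
        rw [hS, mul_sum]
        refine sum_le_sum fun j _ => ?_
        rw [abs_mul]
        exact mul_le_mul_of_nonneg_right (hhr j) (abs_nonneg _)
      have h2 : |(m : ℝ)| ≤ |(∑ j, (h j : ℝ) * ρ j) - m| + |∑ j, (h j : ℝ) * ρ j| := by
        have h3 : (m : ℝ) = -((∑ j, (h j : ℝ) * ρ j) - m) + ∑ j, (h j : ℝ) * ρ j := by ring
        calc |(m : ℝ)| = |-((∑ j, (h j : ℝ) * ρ j) - m) + ∑ j, (h j : ℝ) * ρ j| := by rw [← h3]
          _ ≤ |-((∑ j, (h j : ℝ) * ρ j) - m)| + |∑ j, (h j : ℝ) * ρ j| := abs_add_le _ _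
          _ = _ := by rw [abs_neg]
      linarith
    have hhouse : house α ≤ H * E := by
      have h1 : house α ≤ house (∑ j, (h j : K) * ((d : K) * r j))
          + house (((-m * d : ℤ)) : K) := by
        have : α = (∑ j, (h j : K) * ((d : K) * r j)) + (((-m * d : ℤ)) : K) := by
          rw [hα]
          push_cast
          ring
        rw [this]
        exact house_add_le _ _
      have h2 : house (∑ j, (h j : K) * ((d : K) * r j)) ≤ H * T := by
        refine (house_sum_le_sum_house _ _).trans ?_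
        rw [hT, mul_sum]
        refine sum_le_sum fun j _ => (house_mul_le _ _).trans ?_
        rw [house_intCast]
        refine mul_le_mul_of_nonneg_right ?_ (house_nonneg _)
        have := hhr j
        exact_mod_cast this
      have h3 : house (((-m * d : ℤ)) : K) = |(m : ℝ)| * |(d : ℝ)| := by
        rw [house_intCast]
        push_cast
        rw [abs_mul, abs_neg]
      rw [h3] at h1
      have h4 : |(m : ℝ)| * |(d : ℝ)| ≤ (1 + H * S) * |(d : ℝ)| :=
        mul_le_mul_of_nonneg_right hm (abs_nonneg _)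
      have h5 : (1 + H * S) * |(d : ℝ)| ≤ H * (|(d : ℝ)| * (1 + S)) := by
        nlinarith [mul_le_mul_of_nonneg_right hHr (abs_nonneg (d : ℝ))]
      rw [hE]
      linarith
    have hmain := norm_norm_le_norm_mul_house_pow α σ
    have h1 : ‖σ α‖ = |(d : ℝ)| * |(∑ j, (h j : ℝ) * ρ j) - m| := by
      have : σ α = (((α : K) : ℝ) : ℂ) := rfl
      rw [this, Complex.norm_real, hαr, norm_mul, Real.norm_eq_abs, Real.norm_eq_abs]
    have h2 : ‖Algebra.norm ℚ α‖ = |((Algebra.norm ℚ α : ℚ) : ℝ)| := by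
      rw [← Rat.norm_cast_real, Real.norm_eq_abs]
    rw [h1, h2] at hmain
    have h3 : house α ^ (Module.finrank ℚ K - 1) ≤ (H * E) ^ D :=
      pow_le_pow_left₀ (house_nonneg _) hhouse _
    have h4 : 1 ≤ |(d : ℝ)| * |(∑ j, (h j : ℝ) * ρ j) - m| * (H * E) ^ D :=
      hnorm.trans (hmain.trans (mul_le_mul_of_nonneg_left h3 (by positivity)))
    rw [div_div, div_le_iff₀ (by positivity)]
    calc (1 : ℝ) ≤ |(d : ℝ)| * |(∑ j, (h j : ℝ) * ρ j) - m| * (H * E) ^ D := h4
      _ = _ := by rw [mul_pow]; ring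

end Pool.Agent.Helper77.EHR
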