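import Mathlib

/-! # Upper bound for the number of returns of a linear flow with algebraic frequencies -/

open Finset Complex

namespace Pool.Agent.Helper77.EHR

/-- Liouville's inequality for linear forms in algebraic numbers -/
theorem liou_form (n : ℕ) (ρ : Fin n → ℝ) (halg : ∀ j, IsAlgebraic ℚ (ρ j))
    (hind : ∀ (h : Fin n → ℤ) (m : ℤ), (∑ j, (h j : ℝ) * ρ j) = m → h = 0) :
    ∃ (D : ℕ) (c : ℝ), 0 < c ∧ ∀ H : ℕ, 1 ≤ H → ∀ h : Fin n → ℤ, h ≠ 0 → (∀ j, |(h j : ℝ)| ≤ H) →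
      ∀ m : ℤ, c / (H : ℝ) ^ D ≤ |(∑ j, (h j : ℝ) * ρ j) - m| := by
  classical
  let K : IntermediateField ℚ ℝ := IntermediateField.adjoin ℚ (Set.range ρ)
  have hfin : FiniteDimensional ℚ K := by
    refine IntermediateField.finiteDimensional_adjoin ?_
    rintro _ ⟨j, rfl⟩
    exact (halg j).isIntegral
  have hNF : NumberField K := { to_charZero := inferInstance, to_finiteDimensional := hfin }
  let r : Fin n → K := fun j => ⟨ρ j, IntermediateField.subset_adjoin ℚ _ ⟨j, rfl⟩⟩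
  have hr : ∀ j, ((r j : K) : ℝ) = ρ j := fun j => rfl
  -- a common denominator
  obtain ⟨d, hd0, hd⟩ : ∃ d : ℤ, d ≠ 0 ∧ ∀ j, IsIntegral ℤ ((d : K) * r j) := by
    have h1 : ∀ j, ∃ y : ℤ, y ≠ 0 ∧ IsIntegral ℤ ((y : K) * r j) := by
      intro j
      have h2 : IsAlgebraic ℤ (r j) := by
        have h3 : IsAlgebraic ℚ (r j) := Algebra.IsAlgebraic.isAlgebraic _
        exact (IsFractionRing.isAlgebraic_iff ℤ ℚ K).2 h3
      obtain ⟨y, hy, h4⟩ := h2.exists_integral_multiple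
      refine ⟨y, hy, ?_⟩
      rwa [zsmul_eq_mul] at h4
    choose y hy0 hy using h1
    refine ⟨∏ j, y j, Finset.prod_ne_zero_iff.2 fun j _ => hy0 j, fun j => ?_⟩
    have h5 : (((∏ j, y j : ℤ) : K)) * r j = ((∏ i ∈ Finset.univ.erase j, y i : ℤ) : K) * ((y j : K) * r j) := by
      rw [← Finset.prod_erase_mul _ _ (Finset.mem_univ j)]
      push_cast
      ring
    rw [h5]
    exact (isIntegral_algebraMap (R := ℤ) (A := K) (x := ∏ i ∈ Finset.univ.erase j, y i)).mul (hy j)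
  let B : ℝ := 1 + |(d : ℝ)| * ((∑ σ : K →ₐ[ℚ] ℂ, ∑ j, ‖σ (r j)‖) + (∑ j, |ρ j|) + 1)
  have hS1 : 0 ≤ ∑ σ : K →ₐ[ℚ] ℂ, ∑ j, ‖σ (r j)‖ := by positivity
  have hS2 : 0 ≤ ∑ j, |ρ j| := by positivity
  have hB1 : 1 ≤ B := by
    have : 0 ≤ |(d : ℝ)| * ((∑ σ : K →ₐ[ℚ] ℂ, ∑ j, ‖σ (r j)‖) + (∑ j, |ρ j|) + 1) := by positivity
    simp only [B]
    linarith
  have hd1 : (1 : ℝ) ≤ |(d : ℝ)| := by
    rw [← Int.cast_abs]
    exact_mod_cast Int.one_le_abs hd0
  let D := Fintype.card (K →ₐ[ℚ] ℂ)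
  refine ⟨D, 1 / (|(d : ℝ)| * B ^ D), by positivity, ?_⟩
  intro H hH h hh hhH m
  have hH1 : (1 : ℝ) ≤ H := by exact_mod_cast hH
  have hsum : |∑ j, (h j : ℝ) * ρ j| ≤ (∑ j, |ρ j|) * H := by
    rw [Finset.sum_mul]
    refine (Finset.abs_sum_le_sum_abs _ _).trans (Finset.sum_le_sum fun j _ => ?_)
    rw [abs_mul, mul_comm]
    exact mul_le_mul_of_nonneg_left (hhH j) (abs_nonneg _)
  have hcle : 1 / (|(d : ℝ)| * B ^ D) / (H : ℝ) ^ D ≤ 1 := by
    rw [div_div]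
    apply div_le_one_of_le₀ _ (by positivity)
    have h1 : (1 : ℝ) ≤ B ^ D := one_le_pow₀ hB1
    have h2 : (1 : ℝ) ≤ (H : ℝ) ^ D := one_le_pow₀ hH1
    have h3 : (1 : ℝ) ≤ |(d : ℝ)| * B ^ D := by nlinarith
    nlinarith
  by_cases hm : ((∑ j, |ρ j|) + 1) * H < |(m : ℝ)|
  · have h1 : |(m : ℝ)| - |∑ j, (h j : ℝ) * ρ j| ≤ |(∑ j, (h j : ℝ) * ρ j) - m| := by
      rw [abs_sub_comm]
      exact abs_sub_abs_le_abs_sub _ _
    nlinarith
  push Not at hm
  -- the algebraic integer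
  set α : K := (d : K) * ((∑ j, (h j : K) * r j) - m) with hα
  have hαR : ((α : K) : ℝ) = d * ((∑ j, (h j : ℝ) * ρ j) - m) := by
    rw [hα]
    push_cast
    simp [hr]
  have hαint : IsIntegral ℤ α := by
    have h1 : α = (∑ j, (h j : K) * ((d : K) * r j)) - (d : K) * m := by
      rw [hα, mul_sub, Finset.mul_sum]
      congr 1
      exact Finset.sum_congr rfl fun j _ => by ring
    rw [h1]
    refine IsIntegral.sub (IsIntegral.sum _ fun j _ => ?_) ?_
    · exact (isIntegral_algebraMap (R := ℤ) (A := K) (x := h j)).mul (hd j)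
    · exact (isIntegral_algebraMap (R := ℤ) (A := K) (x := d)).mul
        (isIntegral_algebraMap (R := ℤ) (A := K) (x := m))
  have hα0 : α ≠ 0 := by
    intro h0
    have h1 : (d : ℝ) * ((∑ j, (h j : ℝ) * ρ j) - m) = 0 := by
      rw [← hαR, h0]
      rfl
    have h2 : (d : ℝ) ≠ 0 := by exact_mod_cast hd0
    have h3 := (mul_eq_zero.1 h1).resolve_left h2
    exact hh (hind h m (sub_eq_zero.1 h3))
  have hnorm : 1 ≤ ∏ σ : K →ₐ[ℚ] ℂ, ‖σ α‖ := by
    let α' : NumberField.RingOfIntegers K := ⟨α, hαint⟩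
    have h1 : ((Algebra.norm ℤ α' : ℤ) : ℚ) = Algebra.norm ℚ α := Algebra.coe_norm_int α'
    have h2 : Algebra.norm ℚ α ≠ 0 := by
      rw [Ne, Algebra.norm_eq_zero_iff]
      exact hα0
    have h3 : Algebra.norm ℤ α' ≠ 0 := by
      intro h0
      rw [h0, Int.cast_zero] at h1
      exact h2 h1.symm
    have h4 := Algebra.norm_eq_prod_embeddings ℚ ℂ α
    have h5 := congrArg norm h4
    rw [norm_prod, ← h1] at h5
    rw [← h5]
    simp only [eq_ratCast, Rat.cast_intCast, Complex.norm_intCast]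
    rw [← Int.cast_abs]
    exact_mod_cast Int.one_le_abs h3
  have hσ : ∀ σ : K →ₐ[ℚ] ℂ, ‖σ α‖ ≤ B * H := by
    intro σ
    have h1 : σ α = (d : ℂ) * ((∑ j, (h j : ℂ) * σ (r j)) - m) := by
      rw [hα]
      simp
    rw [h1, norm_mul, Complex.norm_intCast]
    have h2 : ‖(∑ j, (h j : ℂ) * σ (r j)) - m‖ ≤
        ((∑ σ : K →ₐ[ℚ] ℂ, ∑ j, ‖σ (r j)‖) + (∑ j, |ρ j|) + 1) * H := by
      refine (norm_sub_le _ _).trans ?_
      have h3 : ‖∑ j, (h j : ℂ) * σ (r j)‖ ≤ (∑ σ : K →ₐ[ℚ] ℂ, ∑ j, ‖σ (r j)‖) * H := by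
        refine (norm_sum_le _ _).trans ?_
        have h4 : ∑ j, ‖σ (r j)‖ ≤ ∑ σ : K →ₐ[ℚ] ℂ, ∑ j, ‖σ (r j)‖ :=
          Finset.single_le_sum (f := fun σ : K →ₐ[ℚ] ℂ => ∑ j, ‖σ (r j)‖)
            (fun _ _ => by positivity) (Finset.mem_univ σ)
        refine le_trans ?_ (mul_le_mul_of_nonneg_right h4 (by positivity))
        rw [Finset.sum_mul]
        refine Finset.sum_le_sum fun j _ => ?_
        rw [norm_mul, Complex.norm_intCast, mul_comm]
        exact mul_le_mul_of_nonneg_left (hhH j) (norm_nonneg _)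
      rw [Complex.norm_intCast]
      nlinarith
    have h5 : |(d : ℝ)| * ‖(∑ j, (h j : ℂ) * σ (r j)) - m‖ ≤
        |(d : ℝ)| * (((∑ σ : K →ₐ[ℚ] ℂ, ∑ j, ‖σ (r j)‖) + (∑ j, |ρ j|) + 1) * H) :=
      mul_le_mul_of_nonneg_left h2 (abs_nonneg _)
    refine h5.trans ?_
    simp only [B]
    nlinarith
  -- the identity embedding
  let σ₀ : K →ₐ[ℚ] ℂ := (Complex.ofRealAm.restrictScalars ℚ).comp K.val
  have hσ₀ : ‖σ₀ α‖ = |(d : ℝ)| * |(∑ j, (h j : ℝ) * ρ j) - m| := by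
    have h1 : σ₀ α = ((α : ℝ) : ℂ) := rfl
    rw [h1, Complex.norm_real, hαR, Real.norm_eq_abs, abs_mul]
  have h6 : ∏ σ : K →ₐ[ℚ] ℂ, ‖σ α‖ ≤ ‖σ₀ α‖ * (B * H) ^ D := by
    rw [← Finset.mul_prod_erase _ _ (Finset.mem_univ σ₀)]
    refine mul_le_mul_of_nonneg_left ?_ (norm_nonneg _)
    refine (Finset.prod_le_prod (fun _ _ => norm_nonneg _) fun σ _ => hσ σ).trans ?_
    rw [Finset.prod_const]
    refine pow_le_pow_right₀ (by nlinarith) ?_
    exact (Finset.card_erase_le).trans (le_of_eq Finset.card_univ)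
  have h7 := hnorm.trans h6
  rw [hσ₀, mul_pow] at h7
  rw [div_div, div_le_iff₀ (by positivity)]
  calc (1 : ℝ) ≤ |(d : ℝ)| * |(∑ j, (h j : ℝ) * ρ j) - m| * (B ^ D * (H : ℝ) ^ D) := h7
    _ = _ := by ring

/-- geometric sums -/
lemma geom_bound {β η : ℝ} (hη : 0 < η) (h : ∀ m : ℤ, η ≤ |β - m|) (K : ℕ) :
    ‖∑ k ∈ range K, exp (2 * Real.pi * I * (k * β))‖ ≤ 1 / (2 * η) := by
  set z : ℂ := exp (2 * Real.pi * I * β) with hz
  have h1 : ∀ k : ℕ, exp (2 * Real.pi * I * (k * β)) = z ^ k := by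
    intro k
    rw [hz, ← Complex.exp_nat_mul]
    congr 1
    ring
  simp only [h1]
  have h2 : 4 * η ≤ ‖z - 1‖ := by
    have e : z = exp (I * ((2 * Real.pi * β : ℝ) : ℂ)) := by
      rw [hz]
      congr 1
      push_cast
      ring
    rw [e, Complex.norm_exp_I_mul_ofReal_sub_one, Real.norm_eq_abs, abs_mul]
    have h3 : |Real.sin (2 * Real.pi * β / 2)| = |Real.sin (Real.pi * (β - round β))| := by
      have h4 : Real.pi * (β - round β) = Real.pi * β - (round β : ℤ) * Real.pi := by ring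
      rw [h4, Real.sin_sub_int_mul_pi, abs_mul, abs_zpow, abs_neg, abs_one, one_zpow, one_mul]
      congr 2
      ring
    rw [h3]
    have h5 : |Real.pi * (β - round β)| ≤ Real.pi / 2 := by
      rw [abs_mul, abs_of_pos Real.pi_pos]
      have := abs_sub_round β
      nlinarith [Real.pi_pos]
    have h6 := Real.mul_abs_le_abs_sin h5
    rw [abs_mul, abs_of_pos Real.pi_pos] at h6
    have h7 := h (round β)
    have h8 : 2 / Real.pi * (Real.pi * |β - round β|) = 2 * |β - round β| := by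
      field_simp
    rw [h8] at h6
    rw [abs_of_pos (by norm_num : (0 : ℝ) < 2)]
    linarith
  have hz1 : z ≠ 1 := by
    intro h0
    rw [h0, sub_self, norm_zero] at h2
    linarith
  have hzn : ‖z‖ = 1 := by
    have e : z = exp (((2 * Real.pi * β : ℝ) : ℂ) * I) := by
      rw [hz]
      congr 1
      push_cast
      ring
    rw [e, Complex.norm_exp_ofReal_mul_I]
  rw [geom_sum_eq hz1, norm_div, div_le_div_iff₀ (by linarith) (by positivity)]
  have h9 : ‖z ^ K - 1‖ ≤ 2 := by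
    refine (norm_sub_le _ _).trans ?_
    rw [norm_pow, hzn, one_pow, norm_one]
    norm_num
  nlinarith

/-- one factor at a return -/
lemma factor_ge {M L : ℕ} (hL : 3 * L ≤ M + 2) {x : ℝ} (hM : 1 ≤ M)
    (h : ∃ p : ℤ, |x - p| ≤ 1 / (2 * M)) :
    (L : ℝ) / 2 ≤ ‖∑ h : Fin L, exp (2 * Real.pi * I * ((h : ℕ) * x))‖ := by
  obtain ⟨p, hp⟩ := h
  have h1 : ∀ h : Fin L, (1 / 2 : ℝ) ≤ (exp (2 * Real.pi * I * ((h : ℕ) * x))).re := by
    intro h
    have e : exp (2 * Real.pi * I * ((h : ℕ) * x)) =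
        exp (((2 * Real.pi * (h : ℕ) * (x - p) : ℝ) : ℂ) * I) := by
      rw [Complex.exp_eq_exp_iff_exists_int]
      refine ⟨(h : ℕ) * p, ?_⟩
      push_cast
      ring
    rw [e, Complex.exp_ofReal_mul_I_re]
    have h2 : |2 * Real.pi * (h : ℕ) * (x - p)| ≤ Real.pi / 3 := by
      rw [abs_mul, abs_of_nonneg (by positivity)]
      have h3 : ((h : ℕ) : ℝ) ≤ M / 3 := by
        have h4 : 3 * (h : ℕ) ≤ M := by
          have := h.2
          omega
        have h5 : (3 : ℝ) * ((h : ℕ) : ℝ) ≤ M := by exact_mod_cast h4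
        linarith
      have hM0 : (0 : ℝ) < M := by exact_mod_cast hM
      calc 2 * Real.pi * (h : ℕ) * |x - p| ≤ 2 * Real.pi * (M / 3) * (1 / (2 * M)) := by
            gcongr
        _ = Real.pi / 3 := by field_simp
    rw [← Real.cos_abs, ← Real.cos_pi_div_three]
    exact Real.cos_le_cos_of_nonneg_of_le_pi (abs_nonneg _) (by linarith [Real.pi_pos]) h2
  have h2 : (L : ℝ) / 2 ≤ (∑ h : Fin L, exp (2 * Real.pi * I * ((h : ℕ) * x))).re := by
    rw [Complex.re_sum]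
    calc (L : ℝ) / 2 = ∑ _h : Fin L, (1 / 2 : ℝ) := by simp; ring
      _ ≤ _ := Finset.sum_le_sum fun h _ => h1 h
  exact h2.trans ((le_abs_self _).trans (Complex.abs_re_le_norm _))

open scoped Classical in
/-- **the upper bound for the number of returns** -/
theorem returns (n : ℕ) (ρ : Fin n → ℝ) (halg : ∀ j, IsAlgebraic ℚ (ρ j))
    (hind : ∀ (h : Fin n → ℤ) (m : ℤ), (∑ j, (h j : ℝ) * ρ j) = m → h = 0) :
    ∃ (A : ℕ) (C : ℝ), 0 < C ∧ ∀ (M K : ℕ) (a : Fin n → ℝ), 1 ≤ M → M ^ A ≤ K →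
      (((Finset.range K).filter fun k : ℕ => ∀ j, ∃ p : ℤ,
        |(k : ℝ) * ρ j - a j - p| ≤ 1 / (2 * M)).card : ℝ) ≤ C * K / M ^ n := by
  obtain ⟨D, c, hc, hL⟩ := liou_form n ρ halg hind
  refine ⟨D + n, 4 ^ n * (3 ^ n + 1 / (2 * c)), by positivity, ?_⟩
  intro M K a hM hK
  obtain ⟨L, hL1, hL2, hL3⟩ : ∃ L : ℕ, 1 ≤ L ∧ M ≤ 3 * L ∧ 3 * L ≤ M + 2 :=
    ⟨(M + 2) / 3, by omega, by omega, by omega⟩
  have hLM : L ≤ M := by omega
  set S := (Finset.range K).filter fun k : ℕ => ∀ j, ∃ p : ℤ,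
    |(k : ℝ) * ρ j - a j - p| ≤ 1 / (2 * M) with hS
  -- the trigonometric polynomial
  let P : ℕ → ℂ := fun k => ∑ h : Fin n → Fin L,
    exp (2 * Real.pi * I * (∑ j, ((h j : ℕ) : ℂ) * ((k * ρ j - a j : ℝ) : ℂ)))
  have hPprod : ∀ k, P k = ∏ j, ∑ h : Fin L,
      exp (2 * Real.pi * I * ((h : ℕ) * ((k * ρ j - a j : ℝ) : ℂ))) := by
    intro k
    rw [Finset.prod_univ_sum, Fintype.piFinset_univ]
    refine Finset.sum_congr rfl fun h _ => ?_
    rw [← Complex.exp_sum, Finset.mul_sum]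
  have hPge : ∀ k ∈ S, ((L : ℝ) / 2) ^ n ≤ ‖P k‖ := by
    intro k hk
    rw [hS, Finset.mem_filter] at hk
    rw [hPprod, norm_prod]
    calc ((L : ℝ) / 2) ^ n = ∏ _j : Fin n, (L : ℝ) / 2 := by
          rw [Finset.prod_const, Finset.card_univ, Fintype.card_fin]
      _ ≤ _ := Finset.prod_le_prod (fun _ _ => by positivity) fun j _ =>
          factor_ge hL3 hM (hk.2 j)
  have hlow : (S.card : ℝ) * (((L : ℝ) / 2) ^ n) ^ 2 ≤ ∑ k ∈ range K, ‖P k‖ ^ 2 := by
    calc (S.card : ℝ) * (((L : ℝ) / 2) ^ n) ^ 2 = ∑ _k ∈ S, (((L : ℝ) / 2) ^ n) ^ 2 := by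
          rw [Finset.sum_const, nsmul_eq_mul]
      _ ≤ ∑ k ∈ S, ‖P k‖ ^ 2 := Finset.sum_le_sum fun k hk =>
          pow_le_pow_left₀ (by positivity) (hPge k hk) 2
      _ ≤ _ := Finset.sum_le_sum_of_subset_of_nonneg (Finset.filter_subset _ _)
          fun _ _ _ => by positivity
  -- expansion of the square
  have hsq : ∀ k, ((‖P k‖ ^ 2 : ℝ) : ℂ) = ∑ h : Fin n → Fin L, ∑ h' : Fin n → Fin L,
      exp (2 * Real.pi * I * (-(∑ j, (((h j : ℕ) : ℂ) - ((h' j : ℕ) : ℂ)) * (a j : ℂ)))) *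
      exp (2 * Real.pi * I * (k * ((∑ j, (((h j : ℕ) : ℝ) - ((h' j : ℕ) : ℝ)) * ρ j : ℝ) : ℂ))) := by
    intro k
    have e1 : ((‖P k‖ ^ 2 : ℝ) : ℂ) = P k * (starRingEnd ℂ) (P k) := by
      rw [Complex.mul_conj, Complex.normSq_eq_norm_sq]
    rw [e1]
    simp only [P, map_sum]
    rw [Finset.sum_mul_sum]
    refine Finset.sum_congr rfl fun h _ => Finset.sum_congr rfl fun h' _ => ?_
    rw [← Complex.exp_conj, ← Complex.exp_add, ← Complex.exp_add]
    congr 1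
    simp only [map_mul, map_sum, Complex.conj_ofReal, Complex.conj_I, map_ofNat, map_natCast]
    have e6 : (∑ j, ((h j : ℕ) : ℂ) * ((k * ρ j - a j : ℝ) : ℂ)) -
        (∑ j, ((h' j : ℕ) : ℂ) * ((k * ρ j - a j : ℝ) : ℂ)) =
        -(∑ j, (((h j : ℕ) : ℂ) - ((h' j : ℕ) : ℂ)) * (a j : ℂ)) +
        k * ((∑ j, (((h j : ℕ) : ℝ) - ((h' j : ℕ) : ℝ)) * ρ j : ℝ) : ℂ) := by
      push_cast
      rw [← Finset.sum_sub_distrib, Finset.mul_sum, ← Finset.sum_neg_distrib,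
        ← Finset.sum_add_distrib]
      refine Finset.sum_congr rfl fun j _ => ?_
      ring
    rw [← mul_add, ← e6]
    ring
  set Bd : ℝ := (L : ℝ) ^ D / (2 * c) with hBd
  have hup : ∑ k ∈ range K, ‖P k‖ ^ 2 ≤ (L : ℝ) ^ n * K + ((L : ℝ) ^ n) ^ 2 * Bd := by
    have e2 : ((∑ k ∈ range K, ‖P k‖ ^ 2 : ℝ) : ℂ) = ∑ h : Fin n → Fin L, ∑ h' : Fin n → Fin L,
        exp (2 * Real.pi * I * (-(∑ j, (((h j : ℕ) : ℂ) - ((h' j : ℕ) : ℂ)) * (a j : ℂ)))) *
        ∑ k ∈ range K, exp (2 * Real.pi * I * (k * ((∑ j, (((h j : ℕ) : ℝ) - ((h' j : ℕ) : ℝ)) * ρ j : ℝ) : ℂ))) := by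
      rw [Complex.ofReal_sum]
      simp only [hsq]
      rw [Finset.sum_comm]
      refine Finset.sum_congr rfl fun h _ => ?_
      rw [Finset.sum_comm]
      refine Finset.sum_congr rfl fun h' _ => ?_
      rw [Finset.mul_sum]
    have e3 : ∑ k ∈ range K, ‖P k‖ ^ 2 = ‖((∑ k ∈ range K, ‖P k‖ ^ 2 : ℝ) : ℂ)‖ := by
      rw [Complex.norm_real, Real.norm_eq_abs, abs_of_nonneg (by positivity)]
    rw [e3, e2]
    have hterm : ∀ h h' : Fin n → Fin L,
        ‖exp (2 * Real.pi * I * (-(∑ j, (((h j : ℕ) : ℂ) - ((h' j : ℕ) : ℂ)) * (a j : ℂ)))) *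
        ∑ k ∈ range K, exp (2 * Real.pi * I * (k * ((∑ j, (((h j : ℕ) : ℝ) - ((h' j : ℕ) : ℝ)) * ρ j : ℝ) : ℂ)))‖ ≤
        (if h' = h then (K : ℝ) else 0) + Bd := by
      intro h h'
      have e4 : ‖exp (2 * Real.pi * I * (-(∑ j, (((h j : ℕ) : ℂ) - ((h' j : ℕ) : ℂ)) * (a j : ℂ))))‖ = 1 := by
        have e5 : (2 * Real.pi * I * (-(∑ j, (((h j : ℕ) : ℂ) - ((h' j : ℕ) : ℂ)) * (a j : ℂ)))) =
            ((2 * Real.pi * (-(∑ j, (((h j : ℕ) : ℝ) - ((h' j : ℕ) : ℝ)) * a j)) : ℝ) : ℂ) * I := by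
          push_cast
          ring
        rw [e5, Complex.norm_exp_ofReal_mul_I]
      rw [norm_mul, e4, one_mul]
      have hBd0 : 0 ≤ Bd := by positivity
      split_ifs with hh
      · refine (norm_sum_le _ _).trans ?_
        subst hh
        simp only [sub_self, zero_mul, Finset.sum_const_zero, Complex.ofReal_zero, mul_zero,
          Complex.exp_zero, norm_one, Finset.sum_const, Finset.card_range, nsmul_eq_mul, mul_one]
        linarith
      · rw [zero_add]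
        have hne : (fun j => ((h j : ℕ) : ℤ) - ((h' j : ℕ) : ℤ)) ≠ 0 := by
          intro h0
          apply hh
          funext j
          have := congrFun h0 j
          simp only [Pi.zero_apply] at this
          apply Fin.ext
          omega
        have hη : 0 < c / (L : ℝ) ^ D := by positivity
        have hg := geom_bound (β := ∑ j, (((h j : ℕ) : ℝ) - ((h' j : ℕ) : ℝ)) * ρ j) hη (fun m => by
          have := hL L hL1 _ hne (fun j => by
            have h1 := (h j).2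
            have h2 := (h' j).2
            rw [abs_le]
            constructor
            · push_cast
              have : ((h' j : ℕ) : ℝ) ≤ L := by exact_mod_cast h2.le
              have : (0 : ℝ) ≤ ((h j : ℕ) : ℝ) := by positivity
              linarith
            · push_cast
              have : ((h j : ℕ) : ℝ) ≤ L := by exact_mod_cast h1.le
              have : (0 : ℝ) ≤ ((h' j : ℕ) : ℝ) := by positivity
              linarith) m
          simpa using this) K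
        refine hg.trans (le_of_eq ?_)
        rw [hBd]
        field_simp
    refine (norm_sum_le _ _).trans ((Finset.sum_le_sum fun h _ => (norm_sum_le _ _).trans
      (Finset.sum_le_sum fun h' _ => hterm h h')).trans (le_of_eq ?_))
    simp only [Finset.sum_add_distrib, Finset.sum_ite_eq', Finset.mem_univ, if_true,
      Finset.sum_const, Finset.card_univ, Fintype.card_fun, Fintype.card_fin, nsmul_eq_mul]
    push_cast
    ring
  have hL0 : (0 : ℝ) < L := by exact_mod_cast hL1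
  have hM0 : (0 : ℝ) < M := by exact_mod_cast hM
  have h1 := hlow.trans hup
  -- conclude
  have h2 : (S.card : ℝ) ≤ 4 ^ n * (K / (L : ℝ) ^ n + Bd) := by
    have h3 : (((L : ℝ) / 2) ^ n) ^ 2 = ((L : ℝ) ^ n) ^ 2 / 4 ^ n := by
      rw [div_pow, div_pow]
      congr 1
      rw [← pow_mul, mul_comm, pow_mul]
      norm_num
    rw [h3] at h1
    have h4 : (0 : ℝ) < ((L : ℝ) ^ n) ^ 2 / 4 ^ n := by positivity
    rw [← le_div_iff₀ h4] at h1
    refine h1.trans (le_of_eq ?_)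
    field_simp
  refine h2.trans ?_
  have h5 : (M : ℝ) ^ n ≤ 3 ^ n * (L : ℝ) ^ n := by
    rw [← mul_pow]
    exact pow_le_pow_left₀ hM0.le (by exact_mod_cast hL2) n
  have h6 : (K : ℝ) / (L : ℝ) ^ n ≤ 3 ^ n * (K / (M : ℝ) ^ n) := by
    rw [mul_div_assoc', div_le_div_iff₀ (by positivity) (by positivity)]
    have hK0 : (0 : ℝ) ≤ K := by positivity
    nlinarith [mul_le_mul_of_nonneg_left h5 hK0]
  have h7 : Bd ≤ 1 / (2 * c) * (K / (M : ℝ) ^ n) := by
    have h8 : (L : ℝ) ^ D ≤ (M : ℝ) ^ D := pow_le_pow_left₀ hL0.le (by exact_mod_cast hLM) D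
    have h9 : (M : ℝ) ^ D * (M : ℝ) ^ n ≤ K := by
      rw [← pow_add]
      exact_mod_cast hK
    have h10 : (L : ℝ) ^ D ≤ K / (M : ℝ) ^ n := by
      rw [le_div_iff₀ (by positivity)]
      refine le_trans ?_ h9
      exact mul_le_mul_of_nonneg_right h8 (by positivity)
    rw [hBd, div_eq_mul_one_div, mul_comm]
    exact mul_le_mul_of_nonneg_left h10 (by positivity)
  calc (4 : ℝ) ^ n * (K / (L : ℝ) ^ n + Bd) ≤
        4 ^ n * (3 ^ n * (K / (M : ℝ) ^ n) + 1 / (2 * c) * (K / (M : ℝ) ^ n)) :=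
          mul_le_mul_of_nonneg_left (add_le_add h6 h7) (by positivity)
    _ = _ := by ring

end Pool.Agent.Helper77.EHR
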