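import Mathlib

/-! Two free phases: few grid points with prescribed modulus. -/

set_option autoImplicit false

namespace Pool.Agent.Helper77.EHR

open Finset

/-- the root of unity of order `L` with index `g` -/
noncomputable def rt (L : ℕ) (g : ℕ) : ℂ :=
  Complex.exp (2 * Real.pi * Complex.I * ((g : ℝ) / (L : ℝ) : ℝ))

theorem norm_rt (L g : ℕ) : ‖rt L g‖ = 1 := by
  unfold rt
  have : (2 * Real.pi * Complex.I * (((g : ℝ) / (L : ℝ) : ℝ) : ℂ))
      = ((2 * Real.pi * ((g : ℝ) / L) : ℝ) : ℂ) * Complex.I := by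
    push_cast
    ring
  rw [this, Complex.norm_exp_ofReal_mul_I]

/-- a small value of `e(x) - 1` forces `x` to be close to an integer -/
theorem near_int' {x s : ℝ} (h : ‖Complex.exp (2 * Real.pi * Complex.I * (x : ℂ)) - 1‖ ≤ s) :
    ∃ m : ℤ, |x - m| ≤ s / 4 := by
  refine ⟨round x, ?_⟩
  set y : ℝ := x - round x with hy
  have hy1 : |y| ≤ 1 / 2 := abs_sub_round x
  have he : Complex.exp (2 * Real.pi * Complex.I * (x : ℂ))
      = Complex.exp (2 * Real.pi * Complex.I * (y : ℂ)) := by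
    have h1 : 2 * Real.pi * Complex.I * (x : ℂ)
        = 2 * Real.pi * Complex.I * (y : ℂ) + (round x : ℤ) * (2 * Real.pi * Complex.I) := by
      rw [hy]
      push_cast
      ring
    rw [h1, Complex.exp_add, Complex.exp_int_mul_two_pi_mul_I, mul_one]
  rw [he] at h
  have h2 : ‖Complex.exp (2 * Real.pi * Complex.I * (y : ℂ)) - 1‖ = 2 * |Real.sin (Real.pi * y)| := by
    have h3 : 2 * Real.pi * Complex.I * (y : ℂ) = Complex.I * ((2 * Real.pi * y : ℝ) : ℂ) := by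
      push_cast
      ring
    rw [h3, Complex.norm_exp_I_mul_ofReal_sub_one, norm_mul, Real.norm_eq_abs, Real.norm_eq_abs,
      abs_of_pos (by norm_num : (0 : ℝ) < 2)]
    congr 2
    ring_nf
  rw [h2] at h
  have h3 : 2 * |y| ≤ |Real.sin (Real.pi * y)| := by
    have h4 := Real.mul_abs_le_abs_sin (x := Real.pi * y) (by
      rw [abs_mul, abs_of_pos Real.pi_pos]
      nlinarith [Real.pi_pos])
    rw [abs_mul, abs_of_pos Real.pi_pos] at h4
    have h5 : 2 / Real.pi * (Real.pi * |y|) = 2 * |y| := by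
      field_simp
    rw [h5] at h4
    exact h4
  linarith

/-- few natural numbers lie in a short interval -/
theorem cnt_near (L : ℕ) (c ρ : ℝ) (hρ : 0 ≤ ρ) :
    (((Finset.range L).filter fun g : ℕ => |(g : ℝ) - c| ≤ ρ).card : ℝ) ≤ 2 * ρ + 1 := by
  have h1 : ((Finset.range L).filter fun g : ℕ => |(g : ℝ) - c| ≤ ρ).card
      ≤ (Finset.Icc ⌈c - ρ⌉ ⌊c + ρ⌋).card := by
    refine card_le_card_of_injOn (fun g => (g : ℤ)) ?_ ?_
    · intro g hg
      rw [mem_coe, mem_filter, abs_le] at hg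
      rw [mem_coe, mem_Icc, Int.ceil_le, Int.le_floor]
      push_cast
      constructor
      · linarith [hg.2.1]
      · linarith [hg.2.2]
    · intro g _ g' _ h
      have h' : (g : ℤ) = g' := h
      exact_mod_cast h'
  rw [Int.card_Icc] at h1
  have h2 : (((⌊c + ρ⌋ + 1 - ⌈c - ρ⌉).toNat : ℕ) : ℝ) ≤ 2 * ρ + 1 := by
    rcases le_total 0 (⌊c + ρ⌋ + 1 - ⌈c - ρ⌉) with h | h
    · have h3 : (((⌊c + ρ⌋ + 1 - ⌈c - ρ⌉).toNat : ℕ) : ℝ)
          = ((⌊c + ρ⌋ + 1 - ⌈c - ρ⌉ : ℤ) : ℝ) := by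
        exact_mod_cast Int.toNat_of_nonneg h
      rw [h3]
      push_cast
      have h4 := Int.floor_le (c + ρ)
      have h5 := Int.le_ceil (c - ρ)
      linarith
    · rw [Int.toNat_of_nonpos h]
      push_cast
      linarith
  exact (by exact_mod_cast h1 : _ ≤ (((⌊c + ρ⌋ + 1 - ⌈c - ρ⌉).toNat : ℕ) : ℝ)).trans h2

/-- few roots of unity lie in a small disc -/
theorem arc (L : ℕ) (hL : 1 ≤ L) (w : ℂ) (r : ℝ) (hr : 0 ≤ r) :
    (((Finset.range L).filter fun g : ℕ => ‖rt L g - w‖ ≤ r).card : ℝ) ≤ 3 * (L * r + 1) := by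
  classical
  have hL' : (1 : ℝ) ≤ L := by exact_mod_cast hL
  have hLpos : (0 : ℝ) < L := by linarith
  set F := (Finset.range L).filter fun g : ℕ => ‖rt L g - w‖ ≤ r with hF
  rcases le_or_gt 1 r with hr1 | hr1
  · have h1 : (F.card : ℝ) ≤ L := by
      have := card_filter_le (Finset.range L) (fun g : ℕ => ‖rt L g - w‖ ≤ r)
      rw [card_range] at this
      exact_mod_cast this
    nlinarith
  rcases F.eq_empty_or_nonempty with h0 | ⟨g0, hg0⟩
  · rw [h0, card_empty]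
    push_cast
    positivity
  have hsub : F ⊆ (Finset.Icc (-1 : ℤ) 1).biUnion (fun m =>
      (Finset.range L).filter fun g : ℕ => |(g : ℝ) - (g0 + m * L)| ≤ L * r / 2) := by
    intro g hg
    rw [hF, mem_filter] at hg hg0
    have h1 : ‖rt L g - rt L g0‖ ≤ 2 * r := by
      have : rt L g - rt L g0 = (rt L g - w) - (rt L g0 - w) := by ring
      rw [this]
      refine (norm_sub_le _ _).trans ?_
      linarith [hg.2, hg0.2]
    have h2 : rt L g - rt L g0 = rt L g0 *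
        (Complex.exp (2 * Real.pi * Complex.I * (((((g : ℝ) - g0) / L : ℝ)) : ℂ)) - 1) := by
      unfold rt
      rw [mul_sub, mul_one, ← Complex.exp_add]
      congr 2
      push_cast
      field_simp
      ring
    rw [h2, norm_mul, norm_rt, one_mul] at h1
    obtain ⟨m, hm⟩ := near_int' h1
    rw [mem_biUnion]
    have hgL : (g : ℝ) < L := by exact_mod_cast mem_range.1 hg.1
    have hg0L : (g0 : ℝ) < L := by exact_mod_cast mem_range.1 hg0.1
    have hg_0 : (0 : ℝ) ≤ g := by positivity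
    have hg0_0 : (0 : ℝ) ≤ g0 := by positivity
    have h3 : |((g : ℝ) - g0) / L| < 1 := by
      rw [abs_div, abs_of_pos hLpos, div_lt_one hLpos, abs_lt]
      constructor <;> linarith
    refine ⟨m, ?_, ?_⟩
    · rw [abs_le] at hm
      rw [abs_lt] at h3
      rw [mem_Icc]
      have h4 : (m : ℝ) < 2 := by linarith
      have h5 : (-2 : ℝ) < m := by linarith
      have h4' : m < 2 := by exact_mod_cast h4
      have h5' : -2 < m := by exact_mod_cast h5
      omega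
    · rw [mem_filter]
      refine ⟨hg.1, ?_⟩
      have h4 : (g : ℝ) - (g0 + m * L) = L * (((g : ℝ) - g0) / L - m) := by
        field_simp
        ring
      rw [h4, abs_mul, abs_of_pos hLpos]
      have := mul_le_mul_of_nonneg_left hm hLpos.le
      linarith
  have h1 := (card_le_card hsub).trans card_biUnion_le
  have h2 : (F.card : ℝ) ≤ ∑ m ∈ Finset.Icc (-1 : ℤ) 1,
      (((Finset.range L).filter fun g : ℕ => |(g : ℝ) - (g0 + m * L)| ≤ L * r / 2).card : ℝ) := by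
    exact_mod_cast h1
  refine h2.trans ?_
  calc ∑ m ∈ Finset.Icc (-1 : ℤ) 1,
      (((Finset.range L).filter fun g : ℕ => |(g : ℝ) - (g0 + m * L)| ≤ L * r / 2).card : ℝ)
      ≤ ∑ _m ∈ Finset.Icc (-1 : ℤ) 1, (2 * (L * r / 2) + 1) :=
        sum_le_sum fun m _ => cnt_near L _ _ (by positivity)
    _ = 3 * (L * r + 1) := by
        have e : ((1 : ℤ) + 1 - -1).toNat = 3 := rfl
        rw [sum_const, Int.card_Icc, e, nsmul_eq_mul]
        push_cast
        ring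

/-- two unit numbers with nearly equal real parts are nearly equal or nearly conjugate -/
theorem re_close {x x' : ℂ} (hx : ‖x‖ = 1) (hx' : ‖x'‖ = 1) {δ : ℝ} (hδ : 0 ≤ δ)
    (h : |x.re - x'.re| ≤ δ) :
    ‖x - x'‖ ≤ δ + Real.sqrt (2 * δ) ∨ ‖x - (starRingEnd ℂ) x'‖ ≤ δ + Real.sqrt (2 * δ) := by
  have h1 : x.re ^ 2 + x.im ^ 2 = 1 := by
    have := Complex.sq_norm x
    rw [hx, Complex.normSq_apply] at this
    nlinarith
  have h1' : x'.re ^ 2 + x'.im ^ 2 = 1 := by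
    have := Complex.sq_norm x'
    rw [hx', Complex.normSq_apply] at this
    nlinarith
  have hr : |x.re| ≤ 1 := hx ▸ Complex.abs_re_le_norm x
  have hr' : |x'.re| ≤ 1 := hx' ▸ Complex.abs_re_le_norm x'
  have h2 : |x.im - x'.im| * |x.im + x'.im| ≤ 2 * δ := by
    rw [← abs_mul]
    have e : (x.im - x'.im) * (x.im + x'.im) = -((x.re - x'.re) * (x.re + x'.re)) := by nlinarith
    rw [e, abs_neg, abs_mul]
    have h3 : |x.re + x'.re| ≤ 2 := (abs_add_le _ _).trans (by linarith)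
    have := mul_le_mul h h3 (abs_nonneg _) hδ
    linarith
  have h3 : |x.im - x'.im| ≤ Real.sqrt (2 * δ) ∨ |x.im + x'.im| ≤ Real.sqrt (2 * δ) := by
    by_contra hcon
    push Not at hcon
    have h4 := Real.sq_sqrt (by positivity : (0 : ℝ) ≤ 2 * δ)
    have h5 := Real.sqrt_nonneg (2 * δ)
    nlinarith [mul_lt_mul'' hcon.1 hcon.2 h5 h5]
  rcases h3 with h3 | h3
  · left
    refine (Complex.norm_le_abs_re_add_abs_im _).trans ?_
    rw [Complex.sub_re, Complex.sub_im]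
    exact add_le_add h h3
  · right
    refine (Complex.norm_le_abs_re_add_abs_im _).trans ?_
    rw [Complex.sub_re, Complex.sub_im, Complex.conj_re, Complex.conj_im, sub_neg_eq_add]
    exact add_le_add h h3

/-- the solutions of one modulus condition in one phase -/
theorem one_phase (L : ℕ) (hL : 1 ≤ L) (α T : ℂ) (t κ δ : ℝ) (hδ : 0 ≤ δ)
    (hαT : 0 < ‖α‖ * ‖T‖) (hκ : κ ≤ δ * (‖α‖ * ‖T‖)) :
    (((Finset.range L).filter fun g : ℕ => |‖α * rt L g + T‖ ^ 2 - t| ≤ κ).card : ℝ)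
      ≤ 6 * (L * (δ + Real.sqrt (2 * δ)) + 1) := by
  classical
  set ρ : ℝ := δ + Real.sqrt (2 * δ) with hρ
  have hρ0 : 0 ≤ ρ := by positivity
  set F := (Finset.range L).filter fun g : ℕ => |‖α * rt L g + T‖ ^ 2 - t| ≤ κ with hF
  rcases F.eq_empty_or_nonempty with h0 | ⟨g0, hg0⟩
  · rw [h0, card_empty]
    push_cast
    positivity
  set β : ℂ := α * (starRingEnd ℂ) T with hβ
  have hβn : ‖β‖ = ‖α‖ * ‖T‖ := by rw [hβ, norm_mul, Complex.norm_conj]
  have hβ0 : (‖β‖ : ℂ) ≠ 0 := by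
    rw [hβn]
    exact_mod_cast hαT.ne'
  set w : ℂ := β / (‖β‖ : ℂ) with hw
  have hwn : ‖w‖ = 1 := by
    rw [hw, norm_div, Complex.norm_real, Real.norm_eq_abs, abs_of_nonneg (norm_nonneg β),
      div_self]
    rw [hβn]
    exact hαT.ne'
  have hww : w * (starRingEnd ℂ) w = 1 := by
    rw [Complex.mul_conj, Complex.normSq_eq_norm_sq, hwn]
    norm_num
  have hexp : ∀ g, ‖α * rt L g + T‖ ^ 2 = ‖α‖ ^ 2 + ‖T‖ ^ 2 + 2 * (rt L g * β).re := by
    intro g
    rw [Complex.sq_norm, Complex.normSq_add, Complex.normSq_mul, ← Complex.sq_norm,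
      ← Complex.sq_norm, ← Complex.sq_norm, norm_rt]
    have : α * rt L g * (starRingEnd ℂ) T = rt L g * β := by rw [hβ]; ring
    rw [this]
    ring
  set v : ℂ := (starRingEnd ℂ) (rt L g0 * w) * (starRingEnd ℂ) w with hv
  have hsub : F ⊆ ((Finset.range L).filter fun g : ℕ => ‖rt L g - rt L g0‖ ≤ ρ) ∪
      ((Finset.range L).filter fun g : ℕ => ‖rt L g - v‖ ≤ ρ) := by
    intro g hg
    rw [hF, mem_filter] at hg hg0
    rw [mem_union, mem_filter, mem_filter]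
    have h1 : |(rt L g * w).re - (rt L g0 * w).re| ≤ δ := by
      have h2 : |2 * (rt L g * β).re - 2 * (rt L g0 * β).re| ≤ 2 * κ := by
        have e : 2 * (rt L g * β).re - 2 * (rt L g0 * β).re
            = (‖α * rt L g + T‖ ^ 2 - t) - (‖α * rt L g0 + T‖ ^ 2 - t) := by
          rw [hexp, hexp]
          ring
        rw [e]
        refine (abs_sub _ _).trans ?_
        linarith [hg.2, hg0.2]
      have h3 : ∀ z : ℂ, (z * β).re = ‖β‖ * (z * w).re := by
        intro z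
        have : z * β = (‖β‖ : ℂ) * (z * w) := by
          rw [hw]
          field_simp
        rw [this, Complex.re_ofReal_mul]
      rw [h3, h3] at h2
      have h4 : 2 * (‖β‖ * (rt L g * w).re) - 2 * (‖β‖ * (rt L g0 * w).re)
          = (2 * ‖β‖) * ((rt L g * w).re - (rt L g0 * w).re) := by ring
      rw [h4, abs_mul, abs_of_nonneg (by positivity)] at h2
      have h5 : (2 * ‖β‖) * |(rt L g * w).re - (rt L g0 * w).re| ≤ (2 * ‖β‖) * δ := by
        refine h2.trans ?_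
        rw [hβn]
        linarith
      have h6 : 0 < 2 * ‖β‖ := by rw [hβn]; linarith
      exact le_of_mul_le_mul_left h5 h6
    have hx : ‖rt L g * w‖ = 1 := by rw [norm_mul, norm_rt, hwn, one_mul]
    have hx' : ‖rt L g0 * w‖ = 1 := by rw [norm_mul, norm_rt, hwn, one_mul]
    rcases re_close hx hx' hδ h1 with h2 | h2
    · left
      refine ⟨hg.1, ?_⟩
      rw [← sub_mul, norm_mul, hwn, mul_one] at h2
      exact h2
    · right
      refine ⟨hg.1, ?_⟩
      have h3 : rt L g - v = (rt L g * w - (starRingEnd ℂ) (rt L g0 * w)) * (starRingEnd ℂ) w := by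
        rw [hv, sub_mul, mul_assoc, hww, mul_one]
      rw [h3, norm_mul, Complex.norm_conj, hwn, mul_one]
      exact h2
  have h1 := (card_le_card hsub).trans (card_union_le _ _)
  have h2 := arc L hL (rt L g0) ρ hρ0
  have h3 := arc L hL v ρ hρ0
  have h4 : (F.card : ℝ) ≤
      (((Finset.range L).filter fun g : ℕ => ‖rt L g - rt L g0‖ ≤ ρ).card : ℝ) +
      (((Finset.range L).filter fun g : ℕ => ‖rt L g - v‖ ≤ ρ).card : ℝ) := by exact_mod_cast h1
  linarith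

/-- two free phases -/
theorem two_phase (a K : ℝ) (ha : 0 < a) (hK : 0 ≤ K) : ∃ C : ℝ, 0 ≤ C ∧
    ∀ (M : ℕ) (α β S : ℂ) (t : ℝ), 1 ≤ M → a ≤ ‖α‖ → a ≤ ‖β‖ →
      ((((Finset.range (M ^ 4)) ×ˢ (Finset.range (M ^ 4))).filter fun g : ℕ × ℕ =>
        |‖α * Complex.exp (2 * Real.pi * Complex.I * (g.1 / (M : ℝ) ^ 4 : ℝ)) +
          β * Complex.exp (2 * Real.pi * Complex.I * (g.2 / (M : ℝ) ^ 4 : ℝ)) + S‖ ^ 2 - t| ≤
          K / (M : ℝ) ^ 4).card : ℝ) ≤ C * (M : ℝ) ^ 7 := by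
  classical
  set C1 : ℝ := K / a + Real.sqrt (2 * (K / a)) with hC1
  have hC10 : 0 ≤ C1 := by positivity
  refine ⟨3 * (1 / a + 1) + 6 * (C1 + 1), by positivity, ?_⟩
  intro M α β S t hM hα hβ
  have hM1 : (1 : ℝ) ≤ M := by exact_mod_cast hM
  have hM0 : (0 : ℝ) < M := by linarith
  have hL1 : 1 ≤ M ^ 4 := Nat.one_le_pow _ _ hM
  have hLr : ((M ^ 4 : ℕ) : ℝ) = (M : ℝ) ^ 4 := by push_cast; rfl
  have hrt : ∀ g : ℕ, Complex.exp (2 * Real.pi * Complex.I * ((g / (M : ℝ) ^ 4 : ℝ) : ℂ))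
      = rt (M ^ 4) g := by
    intro g
    unfold rt
    rw [hLr]
  set F := ((Finset.range (M ^ 4)) ×ˢ (Finset.range (M ^ 4))).filter fun g : ℕ × ℕ =>
        |‖α * Complex.exp (2 * Real.pi * Complex.I * (g.1 / (M : ℝ) ^ 4 : ℝ)) +
          β * Complex.exp (2 * Real.pi * Complex.I * (g.2 / (M : ℝ) ^ 4 : ℝ)) + S‖ ^ 2 - t| ≤
          K / (M : ℝ) ^ 4 with hF
  set Nn : ℕ → ℕ := fun y => ((Finset.range (M ^ 4)).filter fun x : ℕ =>
    |‖α * rt (M ^ 4) x + (β * rt (M ^ 4) y + S)‖ ^ 2 - t| ≤ K / (M : ℝ) ^ 4).card with hNn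
  have h1 : F.card ≤ ∑ y ∈ Finset.range (M ^ 4), Nn y := by
    have e : F.card = ∑ y ∈ Finset.range (M ^ 4), (F.filter fun g => g.2 = y).card := by
      rw [← card_eq_sum_card_fiberwise]
      intro g hg
      rw [mem_coe, hF, mem_filter, mem_product] at hg
      exact hg.1.2
    rw [e]
    refine sum_le_sum fun y _ => ?_
    refine card_le_card_of_injOn (fun g => g.1) ?_ ?_
    · intro g hg
      rw [mem_coe, mem_filter, hF, mem_filter, mem_product] at hg
      rw [mem_coe, mem_filter]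
      refine ⟨hg.1.1.1, ?_⟩
      have := hg.1.2
      rw [hrt, hrt, hg.2, add_assoc] at this
      exact this
    · intro g hg g' hg' h
      rw [mem_coe, mem_filter] at hg hg'
      exact Prod.ext h (hg.2.trans hg'.2.symm)
  have hNL : ∀ y, (Nn y : ℝ) ≤ (M : ℝ) ^ 4 := by
    intro y
    have := card_filter_le (Finset.range (M ^ 4)) (fun x : ℕ =>
      |‖α * rt (M ^ 4) x + (β * rt (M ^ 4) y + S)‖ ^ 2 - t| ≤ K / (M : ℝ) ^ 4)
    rw [card_range] at this
    have h' : Nn y ≤ M ^ 4 := this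
    rw [← hLr]
    exact_mod_cast h'
  have hgood : ∀ y, 1 / (M : ℝ) ^ 2 < ‖β * rt (M ^ 4) y + S‖ → (Nn y : ℝ) ≤ 6 * (C1 + 1) * (M : ℝ) ^ 3 := by
    intro y hy
    have hy0 : 0 < ‖β * rt (M ^ 4) y + S‖ := lt_trans (by positivity) hy
    have hα0 : 0 < ‖α‖ := lt_of_lt_of_le ha hα
    have h2 := one_phase (M ^ 4) hL1 α (β * rt (M ^ 4) y + S) t (K / (M : ℝ) ^ 4)
      (K / a / (M : ℝ) ^ 2) (by positivity) (by positivity) (by
        have h3 : a * (1 / (M : ℝ) ^ 2) ≤ ‖α‖ * ‖β * rt (M ^ 4) y + S‖ :=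
          mul_le_mul hα hy.le (by positivity) (norm_nonneg _)
        calc K / (M : ℝ) ^ 4 = K / a / (M : ℝ) ^ 2 * (a * (1 / (M : ℝ) ^ 2)) := by
              field_simp
          _ ≤ _ := mul_le_mul_of_nonneg_left h3 (by positivity))
    refine h2.trans ?_
    rw [hLr]
    have h3 : K / a / (M : ℝ) ^ 2 ≤ K / a / M := by
      rw [pow_two, ← div_div]
      exact div_le_self (by positivity) hM1
    have h4 : Real.sqrt (2 * (K / a / (M : ℝ) ^ 2)) = Real.sqrt (2 * (K / a)) / M := by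
      have : 2 * (K / a / (M : ℝ) ^ 2) = 2 * (K / a) / (M : ℝ) ^ 2 := by ring
      rw [this, Real.sqrt_div (by positivity), Real.sqrt_sq hM0.le]
    rw [h4]
    have h5 : (M : ℝ) ^ 4 * (K / a / (M : ℝ) ^ 2 + Real.sqrt (2 * (K / a)) / M)
        ≤ (M : ℝ) ^ 3 * C1 := by
      calc (M : ℝ) ^ 4 * (K / a / (M : ℝ) ^ 2 + Real.sqrt (2 * (K / a)) / M)
          ≤ (M : ℝ) ^ 4 * (K / a / M + Real.sqrt (2 * (K / a)) / M) := by
            refine mul_le_mul_of_nonneg_left ?_ (by positivity)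
            linarith
        _ = (M : ℝ) ^ 3 * C1 := by
            rw [hC1]
            field_simp
    have h6 : (1 : ℝ) ≤ (M : ℝ) ^ 3 := one_le_pow₀ hM1
    nlinarith
  set Bd : Finset ℕ := (Finset.range (M ^ 4)).filter fun y : ℕ =>
    ‖β * rt (M ^ 4) y + S‖ ≤ 1 / (M : ℝ) ^ 2 with hBd
  have hbad : (Bd.card : ℝ) ≤ 3 * (1 / a + 1) * (M : ℝ) ^ 2 := by
    have hβ0 : 0 < ‖β‖ := lt_of_lt_of_le ha hβ
    have hβ1 : β ≠ 0 := norm_pos_iff.1 hβ0
    have h2 := arc (M ^ 4) hL1 (-S / β) (1 / (a * (M : ℝ) ^ 2)) (by positivity)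
    have h3 : Bd.card ≤ ((Finset.range (M ^ 4)).filter fun g : ℕ =>
        ‖rt (M ^ 4) g - -S / β‖ ≤ 1 / (a * (M : ℝ) ^ 2)).card := by
      refine card_le_card ?_
      intro y hy
      rw [hBd, mem_filter] at hy
      rw [mem_filter]
      refine ⟨hy.1, ?_⟩
      have h4 : rt (M ^ 4) y - -S / β = (β * rt (M ^ 4) y + S) / β := by
        field_simp
        ring
      rw [h4, norm_div, div_le_div_iff₀ hβ0 (by positivity)]
      have h5 := mul_le_mul_of_nonneg_right hy.2 (by positivity : (0 : ℝ) ≤ a * (M : ℝ) ^ 2)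
      refine h5.trans ?_
      have h6 : 1 / (M : ℝ) ^ 2 * (a * (M : ℝ) ^ 2) = a := by field_simp
      rw [h6, one_mul]
      exact hβ
    have h4 : (Bd.card : ℝ) ≤ 3 * (((M ^ 4 : ℕ) : ℝ) * (1 / (a * (M : ℝ) ^ 2)) + 1) :=
      (by exact_mod_cast h3 : (Bd.card : ℝ) ≤ _).trans h2
    refine h4.trans ?_
    rw [hLr]
    have h5 : (M : ℝ) ^ 4 * (1 / (a * (M : ℝ) ^ 2)) = 1 / a * (M : ℝ) ^ 2 := by
      field_simp
    rw [h5]
    have h6 : (1 : ℝ) ≤ (M : ℝ) ^ 2 := one_le_pow₀ hM1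
    nlinarith
  have h2 : (F.card : ℝ) ≤ ∑ y ∈ Finset.range (M ^ 4), (Nn y : ℝ) := by exact_mod_cast h1
  have h3 : ∑ y ∈ Finset.range (M ^ 4), (Nn y : ℝ) ≤
      ∑ y ∈ Finset.range (M ^ 4), ((if ‖β * rt (M ^ 4) y + S‖ ≤ 1 / (M : ℝ) ^ 2 then (M : ℝ) ^ 4 else 0)
        + 6 * (C1 + 1) * (M : ℝ) ^ 3) := by
    refine sum_le_sum fun y _ => ?_
    have hpos : 0 ≤ 6 * (C1 + 1) * (M : ℝ) ^ 3 := by positivity
    split_ifs with h
    · linarith [hNL y]
    · rw [zero_add]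
      exact hgood y (not_le.1 h)
  have h4 : ∑ y ∈ Finset.range (M ^ 4), ((if ‖β * rt (M ^ 4) y + S‖ ≤ 1 / (M : ℝ) ^ 2 then (M : ℝ) ^ 4 else 0)
        + 6 * (C1 + 1) * (M : ℝ) ^ 3) = Bd.card * (M : ℝ) ^ 4 + 6 * (C1 + 1) * (M : ℝ) ^ 7 := by
    rw [sum_add_distrib, ← sum_filter, sum_const, sum_const, card_range, nsmul_eq_mul, nsmul_eq_mul,
      hLr, ← hBd]
    ring
  have h5 : (Bd.card : ℝ) * (M : ℝ) ^ 4 ≤ 3 * (1 / a + 1) * (M : ℝ) ^ 7 := by
    calc (Bd.card : ℝ) * (M : ℝ) ^ 4 ≤ 3 * (1 / a + 1) * (M : ℝ) ^ 2 * (M : ℝ) ^ 4 :=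
          mul_le_mul_of_nonneg_right hbad (by positivity)
      _ = 3 * (1 / a + 1) * (M : ℝ) ^ 6 := by ring
      _ ≤ 3 * (1 / a + 1) * (M : ℝ) ^ 7 := by
          refine mul_le_mul_of_nonneg_left ?_ (by positivity)
          exact pow_le_pow_right₀ hM1 (by norm_num)
  calc (F.card : ℝ) ≤ Bd.card * (M : ℝ) ^ 4 + 6 * (C1 + 1) * (M : ℝ) ^ 7 :=
        (h2.trans h3).trans (le_of_eq h4)
    _ ≤ 3 * (1 / a + 1) * (M : ℝ) ^ 7 + 6 * (C1 + 1) * (M : ℝ) ^ 7 := by linarith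
    _ = _ := by ring

end Pool.Agent.Helper77.EHR
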