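import Pool.Agent.Helper77.EHR.Dio
import Pool.Agent.Helper77.EHR.Ret

/-! # Upper bound for the number of unit cells in which the phases return to a small box -/

open Finset Complex

namespace Pool.Agent.Helper77.EHR

/-- the integer parts of the phases -/
lemma phase_int {n : ℕ} {ν : ℝ} {ρ : Fin n → ℝ} {κ B y : ℝ} {P : ℕ} (hκ : 0 < κ) (hP : 1 ≤ P)
    (hB : B = κ * (1 + ∑ j, |ρ j|)) {m : ℤ} (hm : |ν * y - 2 * Real.pi * m| ≤ 2 * (κ / P)) {j : Fin n}
    (h : ‖exp (I * (ν * ρ j * y : ℝ)) - 1‖ ≤ κ / P) : ∃ p : ℤ, |(m : ℝ) * ρ j - p| ≤ B / P := by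
  obtain ⟨p, hp⟩ := near_int _ _ h
  refine ⟨p, ?_⟩
  have hP0 : (0 : ℝ) < P := by exact_mod_cast hP
  have hpi : (1 : ℝ) ≤ Real.pi := by linarith [Real.pi_gt_three]
  have h1 : 2 * Real.pi * ((m : ℝ) * ρ j - p) =
      -(ρ j * (ν * y - 2 * Real.pi * m)) + (ν * ρ j * y - 2 * Real.pi * p) := by ring
  have h2 : 2 * Real.pi * |(m : ℝ) * ρ j - p| ≤ |ρ j| * (2 * (κ / P)) + 2 * (κ / P) := by
    calc 2 * Real.pi * |(m : ℝ) * ρ j - p| = |2 * Real.pi * ((m : ℝ) * ρ j - p)| := by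
          rw [abs_mul, abs_of_pos (by positivity : (0 : ℝ) < 2 * Real.pi)]
      _ ≤ |ρ j * (ν * y - 2 * Real.pi * m)| + |ν * ρ j * y - 2 * Real.pi * p| := by
          rw [h1]
          refine (abs_add_le _ _).trans ?_
          rw [abs_neg]
      _ ≤ _ := by
          rw [abs_mul]
          exact add_le_add (mul_le_mul_of_nonneg_left hm (abs_nonneg _)) hp
  have h3 : |ρ j| ≤ ∑ j, |ρ j| := Finset.single_le_sum (f := fun j => |ρ j|)
    (fun _ _ => abs_nonneg _) (Finset.mem_univ j)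
  have h4 : 0 < κ / P := by positivity
  have h5 : B / P = (κ / P) * (1 + ∑ j, |ρ j|) := by rw [hB]; ring
  rw [h5]
  have h6 : |(m : ℝ) * ρ j - p| ≤ Real.pi * |(m : ℝ) * ρ j - p| :=
    le_mul_of_one_le_left (abs_nonneg _) hpi
  nlinarith [mul_le_mul_of_nonneg_left h3 h4.le]

/-- **few visits** -/
theorem visits (n : ℕ) (ν : ℝ) (ρ : Fin n → ℝ) (hν : ν ≠ 0) (halg : ∀ j, IsAlgebraic ℚ (ρ j))
    (hind : ∀ (h : Fin n → ℤ) (m : ℤ), (∑ j, (h j : ℝ) * ρ j) = m → h = 0) (κ : ℝ) (hκ : 0 < κ) :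
    ∃ (A : ℕ) (C : ℝ), 0 < C ∧ ∀ (P : ℕ) (R : ℝ) (S : Finset ℤ) (x : ℤ → ℝ), 1 ≤ P →
      (P : ℝ) ^ A ≤ R → 1 ≤ R → (∀ k ∈ S, |(k : ℝ)| ≤ R ∧ (k : ℝ) ≤ x k ∧ x k < k + 1) →
      (∀ k ∈ S, ∀ k' ∈ S, ‖Complex.exp (Complex.I * (ν * (x k - x k') : ℝ)) - 1‖ ≤ κ / P ∧
        ∀ j, ‖Complex.exp (Complex.I * (ν * ρ j * (x k - x k') : ℝ)) - 1‖ ≤ κ / P) →
      (S.card : ℝ) ≤ C * R / (P : ℝ) ^ n := by
  classical
  obtain ⟨A, C, hC, hret⟩ := returns n ρ halg hind
  have hS0 : 0 ≤ ∑ j, |ρ j| := Finset.sum_nonneg fun _ _ => abs_nonneg _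
  obtain ⟨B, hB⟩ : ∃ B : ℝ, B = κ * (1 + ∑ j, |ρ j|) := ⟨_, rfl⟩
  have hB0 : 0 < B := by rw [hB]; positivity
  obtain ⟨L, hL⟩ := exists_nat_ge (2 * B + 1)
  obtain ⟨F, hF⟩ := exists_nat_ge (4 * κ / |ν| + 1)
  obtain ⟨D, hD⟩ := exists_nat_ge (|ν| * 3 + 2 * κ + 1)
  have hν0 : 0 < |ν| := abs_pos.2 hν
  have hL1 : (1 : ℝ) ≤ L := by linarith
  have hL1' : 1 ≤ L := by exact_mod_cast hL1
  have hD1 : (1 : ℝ) ≤ D := by nlinarith
  refine ⟨A, (2 * (2 * F + 1)) * C * (D + 2) * (2 * L) ^ n + 3 * (L : ℝ) ^ n, by positivity, ?_⟩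
  intro P R S x hP hPR hR hx hvis
  have hP0 : (0 : ℝ) < P := by exact_mod_cast hP
  by_cases hPL : P < L
  · -- the trivial bound
    have h1 : (S.card : ℝ) ≤ 3 * R := by
      have h2 : S ⊆ Finset.Icc (-⌊R⌋) ⌊R⌋ := by
        intro k hk
        have h3 := abs_le.1 (hx k hk).1
        rw [Finset.mem_Icc]
        constructor
        · rw [neg_le]
          apply Int.le_floor.2
          push_cast
          linarith
        · exact Int.le_floor.2 h3.2
      have h4 := Finset.card_le_card h2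
      rw [Int.card_Icc] at h4
      have h5 : (0 : ℤ) ≤ ⌊R⌋ := Int.floor_nonneg.2 (by linarith)
      have h6 : ((⌊R⌋ + 1 - -⌊R⌋).toNat : ℤ) = 2 * ⌊R⌋ + 1 := by
        rw [Int.toNat_of_nonneg (by omega)]
        ring
      have h7 : (S.card : ℤ) ≤ 2 * ⌊R⌋ + 1 := by
        rw [← h6]
        exact_mod_cast h4
      have h8 : (S.card : ℝ) ≤ 2 * (⌊R⌋ : ℝ) + 1 := by exact_mod_cast h7
      linarith [Int.floor_le R]
    refine h1.trans ?_
    rw [le_div_iff₀ (by positivity)]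
    have h9 : (P : ℝ) ^ n ≤ (L : ℝ) ^ n := pow_le_pow_left₀ hP0.le (by exact_mod_cast hPL.le) n
    have h10 : 0 ≤ (2 * (2 * F + 1)) * C * (D + 2) * (2 * L) ^ n * R := by positivity
    have h11 : 3 * R * (P : ℝ) ^ n ≤ 3 * R * (L : ℝ) ^ n := mul_le_mul_of_nonneg_left h9 (by positivity)
    calc 3 * R * (P : ℝ) ^ n ≤ 3 * R * (L : ℝ) ^ n := h11
      _ ≤ (2 * (2 * F + 1)) * C * (D + 2) * (2 * L) ^ n * R + 3 * R * (L : ℝ) ^ n := by linarith
      _ = _ := by ring
  push Not at hPL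
  rcases S.eq_empty_or_nonempty with hSe | ⟨k0, hk0⟩
  · rw [hSe]
    simp only [Finset.card_empty, Nat.cast_zero]
    positivity
  -- the scale
  obtain ⟨M, hM1, hML, hMP⟩ : ∃ M : ℕ, 1 ≤ M ∧ M * L ≤ P ∧ P ≤ 2 * L * M := by
    refine ⟨P / L, (Nat.one_le_div_iff (by omega)).2 hPL, Nat.div_mul_le_self P L, ?_⟩
    have h1 := Nat.lt_div_mul_add (a := P) (b := L) (by omega)
    have h2 : 1 ≤ P / L := (Nat.one_le_div_iff (by omega)).2 hPL
    nlinarith
  have hM0 : (0 : ℝ) < M := by exact_mod_cast hM1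
  have hBM : B / P ≤ 1 / (2 * M) := by
    rw [div_le_div_iff₀ hP0 (by positivity)]
    have h1 : (M : ℝ) * L ≤ P := by exact_mod_cast hML
    nlinarith
  -- the integers
  have hex : ∀ k, ∃ m : ℤ, k ∈ S → |ν * (x k - x k0) - 2 * Real.pi * m| ≤ 2 * (κ / P) := by
    intro k
    by_cases hk : k ∈ S
    · obtain ⟨m, hm⟩ := near_int _ _ (hvis k hk k0 hk0).1
      exact ⟨m, fun _ => hm⟩
    · exact ⟨0, fun h => absurd h hk⟩
  choose m hm using hex
  have hpi : (1 : ℝ) ≤ Real.pi := by linarith [Real.pi_gt_three]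
  have hκP : κ / P ≤ κ := div_le_self hκ.le (by exact_mod_cast hP)
  have hmR : ∀ k ∈ S, |(m k : ℝ)| ≤ D * R := by
    intro k hk
    have h1 := hm k hk
    obtain ⟨a1, a2, a3⟩ := hx k hk
    obtain ⟨b1, b2, b3⟩ := hx k0 hk0
    have a1' := abs_le.1 a1
    have b1' := abs_le.1 b1
    have h2 : |x k - x k0| ≤ 2 * R + 1 := by
      rw [abs_le]
      constructor <;> linarith
    have h3 : |ν * (x k - x k0)| ≤ |ν| * (2 * R + 1) := by
      rw [abs_mul]
      exact mul_le_mul_of_nonneg_left h2 hν0.le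
    have h4 : 2 * Real.pi * |(m k : ℝ)| ≤ |ν * (x k - x k0)| + 2 * (κ / P) := by
      have h5 : |2 * Real.pi * (m k : ℝ)| = 2 * Real.pi * |(m k : ℝ)| := by
        rw [abs_mul, abs_of_pos (by positivity : (0 : ℝ) < 2 * Real.pi)]
      rw [← h5]
      have h6 : 2 * Real.pi * (m k : ℝ) = ν * (x k - x k0) - (ν * (x k - x k0) - 2 * Real.pi * (m k : ℝ)) := by ring
      rw [h6]
      exact (abs_sub _ _).trans (add_le_add le_rfl h1)
    have h7 : |(m k : ℝ)| ≤ 2 * Real.pi * |(m k : ℝ)| :=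
      le_mul_of_one_le_left (abs_nonneg _) (by linarith)
    have h8 : |ν| * (2 * R + 1) + 2 * κ ≤ D * R := by
      have h9 : (|ν| * 3 + 2 * κ + 1) * R ≤ D * R := mul_le_mul_of_nonneg_right hD (by linarith)
      nlinarith
    linarith
  obtain ⟨K, hK1, hK2⟩ : ∃ K : ℕ, D * R < K ∧ (K : ℝ) ≤ (D + 2) * R := by
    refine ⟨⌊(D : ℝ) * R⌋₊ + 1, ?_, ?_⟩
    · push_cast
      exact Nat.lt_floor_add_one _
    · push_cast
      have := Nat.floor_le (a := (D : ℝ) * R) (by positivity)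
      nlinarith
  have hMK : M ^ A ≤ K := by
    have h1 : (M : ℝ) ^ A ≤ (P : ℝ) ^ A := by
      refine pow_le_pow_left₀ hM0.le ?_ A
      have : M ≤ P := by nlinarith
      exact_mod_cast this
    have h2 : (M : ℝ) ^ A ≤ K := by nlinarith
    exact_mod_cast h2
  have hr := hret M K (fun _ => 0) hM1 hMK
  -- the image
  have himg : (S.image fun k => (m k).natAbs) ⊆ (Finset.range K).filter fun k : ℕ => ∀ j, ∃ p : ℤ,
      |(k : ℝ) * ρ j - (fun _ => (0 : ℝ)) j - p| ≤ 1 / (2 * M) := by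
    intro t ht
    rw [Finset.mem_image] at ht
    obtain ⟨k, hk, rfl⟩ := ht
    rw [Finset.mem_filter, Finset.mem_range]
    constructor
    · have h1 : (((m k).natAbs : ℕ) : ℝ) = |(m k : ℝ)| := by
        rw [Nat.cast_natAbs, Int.cast_abs]
      have h2 : (((m k).natAbs : ℕ) : ℝ) < K := by
        rw [h1]
        exact lt_of_le_of_lt (hmR k hk) hK1
      exact_mod_cast h2
    · intro j
      obtain ⟨p, hp⟩ := phase_int (y := x k - x k0) hκ hP hB (hm k hk) ((hvis k hk k0 hk0).2 j)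
      rcases le_total 0 (m k) with h0 | h0
      · refine ⟨p, ?_⟩
        have h1 : (((m k).natAbs : ℕ) : ℝ) = (m k : ℝ) := by
          rw [Nat.cast_natAbs, Int.cast_abs, abs_of_nonneg]
          exact_mod_cast h0
        simp only [sub_zero]
        rw [h1]
        exact hp.trans hBM
      · refine ⟨-p, ?_⟩
        have h1 : (((m k).natAbs : ℕ) : ℝ) = -(m k : ℝ) := by
          rw [Nat.cast_natAbs, Int.cast_abs, abs_of_nonpos]
          exact_mod_cast h0
        simp only [sub_zero]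
        rw [h1]
        have h2 : -(m k : ℝ) * ρ j - ((-p : ℤ) : ℝ) = -((m k : ℝ) * ρ j - p) := by
          push_cast
          ring
        rw [h2, abs_neg]
        exact hp.trans hBM
  -- the fibres
  have hfib : ∀ s : ℤ, (S.filter fun k => m k = s).card ≤ 2 * F + 1 := by
    intro s
    rcases (S.filter fun k => m k = s).eq_empty_or_nonempty with he | ⟨k1, hk1⟩
    · rw [he]
      simp
    · rw [Finset.mem_filter] at hk1
      have h1 : (S.filter fun k => m k = s) ⊆ Finset.Icc (k1 - F) (k1 + F) := by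
        intro k hk
        rw [Finset.mem_filter] at hk
        have h2 := hm k hk.1
        have h3 := hm k1 hk1.1
        rw [hk.2] at h2
        rw [hk1.2] at h3
        have h4 : |ν * (x k - x k1)| ≤ 4 * κ := by
          have h5 : ν * (x k - x k1) = (ν * (x k - x k0) - 2 * Real.pi * s) -
              (ν * (x k1 - x k0) - 2 * Real.pi * s) := by ring
          rw [h5]
          refine (abs_sub _ _).trans ?_
          linarith
        rw [abs_mul, mul_comm, ← le_div_iff₀ hν0] at h4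
        obtain ⟨a1, a2, a3⟩ := hx k hk.1
        obtain ⟨b1, b2, b3⟩ := hx k1 hk1.1
        have h6 := abs_le.1 h4
        rw [Finset.mem_Icc]
        constructor
        · have h7 : ((k1 - F : ℤ) : ℝ) ≤ k := by
            push_cast
            linarith
          exact_mod_cast h7
        · have h7 : (k : ℝ) ≤ ((k1 + F : ℤ) : ℝ) := by
            push_cast
            linarith
          exact_mod_cast h7
      refine (Finset.card_le_card h1).trans ?_
      rw [Int.card_Icc]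
      omega
  have hcard : S.card ≤ (2 * (2 * F + 1)) * (S.image fun k => (m k).natAbs).card := by
    refine Finset.card_le_mul_card_image _ _ fun t _ => ?_
    have h1 : (S.filter fun k => (m k).natAbs = t) ⊆
        (S.filter fun k => m k = t) ∪ (S.filter fun k => m k = -t) := by
      intro k hk
      rw [Finset.mem_filter] at hk
      rw [Finset.mem_union, Finset.mem_filter, Finset.mem_filter]
      rcases Int.natAbs_eq (m k) with h | h
      · left
        exact ⟨hk.1, by rw [h, hk.2]⟩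
      · right
        exact ⟨hk.1, by rw [h, hk.2]⟩
    refine (Finset.card_le_card h1).trans ((Finset.card_union_le _ _).trans ?_)
    have h2 := hfib (t : ℤ)
    have h3 := hfib (-(t : ℤ))
    omega
  have h1 : (S.card : ℝ) ≤ (2 * (2 * F + 1)) * (C * K / (M : ℝ) ^ n) := by
    have h2 : (S.card : ℝ) ≤ (2 * (2 * F + 1)) * ((S.image fun k => (m k).natAbs).card : ℝ) := by
      exact_mod_cast hcard
    refine h2.trans (mul_le_mul_of_nonneg_left ?_ (by positivity))
    refine le_trans ?_ hr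
    exact_mod_cast Finset.card_le_card himg
  refine h1.trans ?_
  have h2 : (P : ℝ) ^ n ≤ (2 * L) ^ n * (M : ℝ) ^ n := by
    rw [← mul_pow]
    exact pow_le_pow_left₀ hP0.le (by exact_mod_cast hMP) n
  have h3 : (1 : ℝ) / (M : ℝ) ^ n ≤ (2 * L) ^ n / (P : ℝ) ^ n := by
    rw [div_le_div_iff₀ (by positivity) (by positivity), one_mul]
    exact h2
  have h4 : (K : ℝ) / (M : ℝ) ^ n ≤ (D + 2) * R * ((2 * L) ^ n / (P : ℝ) ^ n) := by
    rw [div_eq_mul_one_div]
    exact mul_le_mul hK2 h3 (by positivity) (by positivity)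
  calc (2 * (2 * F + 1)) * (C * K / (M : ℝ) ^ n) =
        (2 * (2 * F + 1)) * C * ((K : ℝ) / (M : ℝ) ^ n) := by ring
    _ ≤ (2 * (2 * F + 1)) * C * ((D + 2) * R * ((2 * L) ^ n / (P : ℝ) ^ n)) :=
        mul_le_mul_of_nonneg_left h4 (by positivity)
    _ = (2 * (2 * F + 1)) * C * (D + 2) * (2 * L) ^ n * R / (P : ℝ) ^ n := by ring
    _ ≤ _ := by
        rw [div_le_div_iff_of_pos_right (by positivity)]
        have : 0 ≤ 3 * (L : ℝ) ^ n * R := by positivity
        nlinarith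

end Pool.Agent.Helper77.EHR
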